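import Pool.Agent.V8H83.WD.Tr2

/-!
# The trace of the words in the doubled generators
-/

set_option autoImplicit false

namespace Pool.Agent.V8H83.WD

open Pool.Agent.H891R2.Jones Pool.Agent.TH561

section ann

variable {d : ℂ} {m : ℕ}

theorem map_WP {A B : Type*} [Monoid A] [Monoid B] (f : A →* B) (e : ℕ → A) (L : List ℕ) :
    f (WP e L) = WP (fun i => f (e i)) L := by
  unfold WP
  rw [map_list_prod, List.map_map]
  rfl

/-- the trace of a word in the doubled generators -/
theorem tr_U (hd : d ^ 2 = d + 1) (L : List ℕ) (hL : ∀ i ∈ L, i + 1 < m) :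
    tr d (2 * m) (FF2 d (er d (2 * m)) m * WP (Ub d (er d (2 * m)) m) L) = d ^ lam m L := by
  have hT := isTL_er d (2 * m)
  have hU := isTL_Ub hT hd
  set F := FF2 d (er d (2 * m)) m with hF
  set C := Subalgebra.centralizer ℂ ({F} : Set (RR d (2 * m))) with hC
  have memU : ∀ j, Ub d (er d (2 * m)) m j ∈ C := by
    intro j
    rw [hC, Subalgebra.mem_centralizer_iff]
    intro g hg
    rw [Set.mem_singleton_iff] at hg
    rw [hg, FF2_Ub hT hd, Ub_FF2 hT hd]
  let UC : ℕ → C := fun j => ⟨Ub d (er d (2 * m)) m j, memU j⟩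
  let e : Bool → ℕ → (Matrix (Fin m → Fin 2) (Fin m → Fin 2) ℂ × C) := fun b i =>
    if b then (KK m 2 i, 0) else (0, UC i)
  let dd : Bool → ℂ := fun b => if b then 2 else d
  have hUC : IsTL m d UC :=
    { sq := fun i hi => Subtype.ext (hU.sq i hi)
      up := fun i hi => Subtype.ext (hU.up i hi)
      down := fun i hi => Subtype.ext (hU.down i hi)
      far := fun i j hj hij => Subtype.ext (hU.far i j hj hij) }
  have hKK := isTL_KK m 2
  have he : ∀ j, IsTL m (dd j) (e j) := by
    intro j
    cases j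
    · exact
      { sq := fun i hi => Prod.ext (by simp [e]) (by simpa [e, dd] using hUC.sq i hi)
        up := fun i hi => Prod.ext (by simp [e]) (by simpa [e, dd] using hUC.up i hi)
        down := fun i hi => Prod.ext (by simp [e]) (by simpa [e, dd] using hUC.down i hi)
        far := fun i j hj hij => Prod.ext (by simp [e]) (by simpa [e, dd] using hUC.far i j hj hij) }
    · exact
      { sq := fun i hi => Prod.ext (by simpa [e, dd] using hKK.sq i hi) (by simp [e])
        up := fun i hi => Prod.ext (by simpa [e, dd] using hKK.up i hi) (by simp [e])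
        down := fun i hi => Prod.ext (by simpa [e, dd] using hKK.down i hi) (by simp [e])
        far := fun i j hj hij => Prod.ext (by simpa [e, dd] using hKK.far i j hj hij) (by simp [e]) }
  let τ : Bool → (Matrix (Fin m → Fin 2) (Fin m → Fin 2) ℂ × C) →ₗ[ℂ] ℂ := fun b =>
    if b then (Matrix.traceLinearMap (Fin m → Fin 2) ℂ ℂ) ∘ₗ LinearMap.fst ℂ _ _
    else ((tr d (2 * m)) ∘ₗ (LinearMap.mulLeft ℂ F) ∘ₗ C.val.toLinearMap) ∘ₗ LinearMap.snd ℂ _ _
  have τt : ∀ x, τ true x = Matrix.trace x.1 := fun x => rfl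
  have τf : ∀ x, τ false x = tr d (2 * m) (F * (x.2 : RR d (2 * m))) := fun x => rfl
  have hcyc : ∀ j x y, τ j (x * y) = τ j (y * x) := by
    intro j x y
    cases j
    · rw [τf, τf]
      have h1 : F * (x.2 : RR d (2 * m)) = (x.2 : RR d (2 * m)) * F := by
        have := (Subalgebra.mem_centralizer_iff ℂ).1 x.2.2 F rfl
        exact this
      show tr d (2 * m) (F * ((x.2 : RR d (2 * m)) * (y.2 : RR d (2 * m)))) =
        tr d (2 * m) (F * ((y.2 : RR d (2 * m)) * (x.2 : RR d (2 * m))))
      rw [← mul_assoc, h1, mul_assoc, tr_comm, mul_assoc]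
    · rw [τt, τt]
      exact Matrix.trace_mul_comm _ _
  have e1 : ∀ L : List ℕ, (WP (e true) L).1 = WP (KK m 2) L := by
    intro L
    exact map_WP (MonoidHom.fst (Matrix (Fin m → Fin 2) (Fin m → Fin 2) ℂ) C) (e true) L
  have e2 : ∀ L : List ℕ, (((WP (e false) L).2 : C) : RR d (2 * m)) = WP (Ub d (er d (2 * m)) m) L := by
    intro L
    exact map_WP ((C.val : C →* RR d (2 * m)).comp
      (MonoidHom.snd (Matrix (Fin m → Fin 2) (Fin m → Fin 2) ℂ) C)) (e false) L
  have hmk : ∀ j r L, r + 1 < m → (∀ i ∈ L, i < r) →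
      dd j * τ j (WP (e j) L * e j r) = τ j (WP (e j) L) := by
    intro j r L hr hL
    cases j
    · have h1 := markov_U hd r hr L hL
      have h2 : τ false (WP (e false) L * e false r) = tr d (2 * m) (F * WP (Ub d (er d (2 * m)) m) L *
          Ub d (er d (2 * m)) m r) := by
        rw [τf]
        show tr d (2 * m) (F * (((WP (e false) L).2 : C) * Ub d (er d (2 * m)) m r)) = _
        rw [e2, mul_assoc]
      rw [h2, τf, e2]
      exact h1
    · have h1 := markov (m := m) (N := 2) (by norm_num) r L hr hL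
      have h2 : τ true (WP (e true) L * e true r) = Matrix.trace (WP (KK m 2) L * KK m 2 r) := by
        rw [τt]
        show Matrix.trace ((WP (e true) L).1 * KK m 2 r) = _
        rw [e1]
      rw [h2, τt, e1]
      exact_mod_cast h1
  have hone : ∀ j, τ j 1 = (dd j) ^ m := by
    intro j
    cases j
    · rw [τf]
      show tr d (2 * m) (F * 1) = d ^ m
      rw [mul_one, tr_FF2 hd]
    · rw [τt]
      show Matrix.trace (1 : Matrix (Fin m → Fin 2) (Fin m → Fin 2) ℂ) = 2 ^ m
      rw [Matrix.trace_one]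
      simp
  have hdd : ∀ j, dd j ≠ 0 := by
    intro j
    cases j
    · exact d_ne hd
    · show (2 : ℂ) ≠ 0
      norm_num
  obtain ⟨s, z, -, -, -, -, h6⟩ := annular (R := fun _ => (Matrix (Fin m → Fin 2) (Fin m → Fin 2) ℂ × C))
    he hdd τ hcyc hmk hone m le_rfl L hL
  have h7 := h6 true 1 le_rfl
  have h8 := h6 false 1 le_rfl
  rw [pow_one, τt, e1, trace_two L hL, Nat.sub_self, zero_add, one_mul] at h7
  rw [pow_one, τf, e2, Nat.sub_self, zero_add, one_mul] at h8
  have h9 : lam m L = s + z := by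
    have h2 : (2 : ℕ) ^ lam m L = 2 ^ (s + z) := by
      have : (2 : ℂ) ^ lam m L = 2 ^ (s + z) := h7
      exact_mod_cast this
    exact Nat.pow_right_injective le_rfl h2
  rw [h8, h9]
  rfl

end ann

end Pool.Agent.V8H83.WD
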