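import Pool.Agent.V8H83.WD.Ext

/-!
# The bracket of the diagrams with a doubled braid
-/

set_option autoImplicit false

namespace Pool.Agent.V8H83.WD

open Pool.Agent.H891R2.Jones Pool.Agent.W639.RB Pool.Agent.TH561 Pool.Agent.N569.TW Finset LaurentPolynomial

/-- the bracket of the diagram in which the box is filled with a cup and a cap instead of the two
vertical strands; `(T.push true 0).close` has one crossing in the box, its bracket is
`A * (two vertical strands) + A⁻¹ * (cup and cap)` -/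
noncomputable def cutBr (O : Outer 2) : ℤ[T;T⁻¹] :=
  LaurentPolynomial.T 1 * ((O.push true 0).close.bracket - LaurentPolynomial.T 1 * O.close.bracket)

section brk

variable {m : ℕ}

/-- the partition function as a linear functional of the matrix in the box -/
noncomputable def ZM (A : ℂ) (N : ℕ) (O : Outer m) : Matrix (Fin m → Fin N) (Fin m → Fin N) ℂ →ₗ[ℂ] ℂ where
  toFun Y := Zg A N O (fun x y => Y x y)
  map_add' X Y := by
    unfold Zg
    rw [← Finset.sum_add_distrib]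
    refine Finset.sum_congr rfl fun u _ => ?_
    exact mul_add _ _ _
  map_smul' c Y := by
    unfold Zg
    rw [RingHom.id_apply, smul_eq_mul, Finset.mul_sum]
    refine Finset.sum_congr rfl fun u _ => ?_
    exact mul_left_comm _ _ _

theorem ev_draw (hm : 0 < m) (O : Outer m) (W : List (Bool × ℕ)) (hW : ∀ x ∈ W, x.2 + 1 < m) (N : ℕ) (hN : 3 ≤ N) :
    (N : ℂ) * ev N hN (draw O W).close.bracket =
      ((terms W).map (fun t : ℤ × List ℕ => Ar N ^ t.1 * ZM (Ar N) N O (WP (KK m N) t.2))).sum := by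
  have : Nonempty (draw O W).P := ⟨(draw O W).lower ⟨0, hm⟩⟩
  rw [ev_bracket N hN, Z_close, Zg_draw _ _ hW]
  have h2 := rho_of (m := m) (N := N) (Ar N) W hW (fun x y => ind (x = y))
  rw [delta_eq, mul_one, MR_terms (Ar_ne N hN)] at h2
  have h3 : Zg (Ar N) N O (rho (Ar N) m N W (fun x y => ind (x = y))) =
      ZM (Ar N) N O (Matrix.of (rho (Ar N) m N W (fun x y => ind (x = y)))) := rfl
  rw [h3, h2]
  have h4 := map_lsum (ZM (Ar N) N O).toAddMonoidHom
    (fun t : ℤ × List ℕ => Ar N ^ t.1 • WP (KK m N) t.2) (terms W)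
  refine h4.trans ?_
  congr 1
  apply List.map_congr_left
  intro t _
  show ZM (Ar N) N O _ = _
  rw [map_smul, smul_eq_mul]

theorem ev_close (hm : 0 < m) (O : Outer m) (N : ℕ) (hN : 3 ≤ N) :
    (N : ℂ) * ev N hN O.close.bracket = ZM (Ar N) N O 1 := by
  have := ev_draw hm O [] (by simp) N hN
  simp only [terms, List.map_cons, List.map_nil, List.sum_cons, List.sum_nil, zpow_zero, one_mul,
    add_zero, WP_nil] at this
  exact this

theorem ev_cutBr (O : Outer 2) (N : ℕ) (hN : 3 ≤ N) :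
    (N : ℂ) * ev N hN (cutBr O) = ZM (Ar N) N O (KK 2 N 0) := by
  have h1 := ev_draw (by norm_num) O [(true, 0)] (by simp) N hN
  have h2 := ev_close (by norm_num) O N hN
  have h3 : draw O [(true, 0)] = O.push true 0 := rfl
  rw [h3] at h1
  have h4 : terms [(true, 0)] = [(1, []), (-1, [0])] := by
    simp [terms, sgn]
  rw [h4] at h1
  simp only [List.map_cons, List.map_nil, List.sum_cons, List.sum_nil, add_zero, WP_nil] at h1
  have h5 : WP (KK 2 N) [0] = KK 2 N 0 := by simp [WP]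
  rw [h5] at h1
  have hA := Ar_ne N hN
  unfold cutBr
  rw [map_mul, map_sub, map_mul, ev_T]
  have h6 : (N : ℂ) * (Ar N ^ (1 : ℤ) * (ev N hN (O.push true 0).close.bracket -
      Ar N ^ (1 : ℤ) * ev N hN O.close.bracket)) = Ar N ^ (1 : ℤ) * ((N : ℂ) *
      ev N hN (O.push true 0).close.bracket - Ar N ^ (1 : ℤ) * ((N : ℂ) * ev N hN O.close.bracket)) := by
    ring
  rw [h6, h1, h2, zpow_one, zpow_neg, zpow_one]
  field_simp
  ring

open Classical in
/-- the number of closed curves which do not meet the box strands `0`, `1` -/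
noncomputable def kk (m : ℕ) (L : List ℕ) : ℕ :=
  if h : 0 < m ∧ ∀ i ∈ L, i + 1 < 2 * m then (Zg_word h.1 L h.2).choose else 0

open Classical in
/-- the connection of the box strands `0`, `1` -/
noncomputable def ee' (m : ℕ) (L : List ℕ) : Bool :=
  if h : 0 < m ∧ ∀ i ∈ L, i + 1 < 2 * m then (Zg_word h.1 L h.2).choose_spec.choose else false

theorem kk_spec (hm : 0 < m) (L : List ℕ) (hL : ∀ i ∈ L, i + 1 < 2 * m) :
    lam (2 * m) L = kk m L + (if ee' m L then 1 else 2) ∧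
      lam (2 * m) (L ++ [0]) = kk m L + (if ee' m L then 2 else 1) ∧
      ∀ (N : ℕ), N ≠ 0 → ∀ (A : ℂ) (T : Outer 2),
        ZM A N (ext m T) (WP (KK (2 * m) N) L) =
          (N : ℂ) ^ (kk m L) * ZM A N T (WP (KK 2 N) (ew (ee' m L))) := by
  unfold kk ee'
  rw [dif_pos ⟨hm, hL⟩, dif_pos ⟨hm, hL⟩]
  exact (Zg_word hm L hL).choose_spec.choose_spec

/-- the coefficient of the two vertical strands -/
noncomputable def XW (m : ℕ) (W : List (Bool × ℕ)) : ℤ[T;T⁻¹] :=
  ((terms W).map (fun t : ℤ × List ℕ => if ee' m t.2 then 0 else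
    (LaurentPolynomial.T t.1 * dl ^ kk m t.2 : ℤ[T;T⁻¹]))).sum

/-- the coefficient of the cup and cap -/
noncomputable def YW (m : ℕ) (W : List (Bool × ℕ)) : ℤ[T;T⁻¹] :=
  ((terms W).map (fun t : ℤ × List ℕ => if ee' m t.2 then
    (LaurentPolynomial.T t.1 * dl ^ kk m t.2 : ℤ[T;T⁻¹]) else 0)).sum

/-- the bracket of the extension with a word in the box -/
theorem bracket_ext (hm : 0 < m) (O : Outer 2) (W : List (Bool × ℕ)) (hW : ∀ x ∈ W, x.2 + 1 < 2 * m) :
    (draw (ext m O) W).close.bracket = XW m W * O.close.bracket + YW m W * cutBr O := by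
  apply eq_of_ev
  intro N hN
  have hN0 : N ≠ 0 := by omega
  have hN' : (N : ℂ) ≠ 0 := by exact_mod_cast hN0
  apply mul_left_cancel₀ hN'
  rw [ev_draw (by omega) (ext m O) W hW N hN, map_add, map_mul, map_mul]
  have e1 : (N : ℂ) * (ev N hN (XW m W) * ev N hN O.close.bracket + ev N hN (YW m W) * ev N hN (cutBr O)) =
      ev N hN (XW m W) * ZM (Ar N) N O 1 + ev N hN (YW m W) * ZM (Ar N) N O (KK 2 N 0) := by
    rw [← ev_close (by norm_num) O N hN, ← ev_cutBr O N hN]
    ring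
  rw [e1]
  unfold XW YW
  have key : ∀ l : List (ℤ × List ℕ), (∀ t ∈ l, ∀ i ∈ t.2, i + 1 < 2 * m) →
      (l.map (fun t : ℤ × List ℕ => Ar N ^ t.1 * ZM (Ar N) N (ext m O) (WP (KK (2 * m) N) t.2))).sum =
      ev N hN (l.map (fun t : ℤ × List ℕ => if ee' m t.2 then 0 else
        (LaurentPolynomial.T t.1 * dl ^ kk m t.2 : ℤ[T;T⁻¹]))).sum * ZM (Ar N) N O 1 +
      ev N hN (l.map (fun t : ℤ × List ℕ => if ee' m t.2 then
        (LaurentPolynomial.T t.1 * dl ^ kk m t.2 : ℤ[T;T⁻¹]) else 0)).sum * ZM (Ar N) N O (KK 2 N 0) := by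
    intro l
    induction l with
    | nil => intro _; simp
    | cons t l ih =>
      intro hl
      have hk := (kk_spec hm t.2 (hl t List.mem_cons_self)).2.2 N hN0 (Ar N) O
      rw [List.map_cons, List.sum_cons, ih (fun u hu => hl u (List.mem_cons_of_mem _ hu)), hk,
        List.map_cons, List.sum_cons, List.map_cons, List.sum_cons, map_add, map_add]
      cases hε : ee' m t.2
      · simp only [Bool.false_eq_true, if_false, map_zero, map_mul, map_pow, ev_T, ev_dl, ew, WP_nil]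
        ring
      · have h5 : WP (KK 2 N) [0] = KK 2 N 0 := by simp [WP]
        simp only [if_true, map_zero, map_mul, map_pow, ev_T, ev_dl, ew, h5]
        ring
  exact key _ (terms_mem W hW)

/-- two relations of the coefficients -/
theorem XY_rel (hm : 0 < m) (W : List (Bool × ℕ)) (hW : ∀ x ∈ W, x.2 + 1 < 2 * m) :
    dl ^ 2 * XW m W + dl * YW m W =
      ((terms W).map (fun t : ℤ × List ℕ => (LaurentPolynomial.T t.1 * dl ^ lam (2 * m) t.2 : ℤ[T;T⁻¹]))).sum ∧
    dl * XW m W + dl ^ 2 * YW m W =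
      ((terms W).map (fun t : ℤ × List ℕ =>
        (LaurentPolynomial.T t.1 * dl ^ lam (2 * m) (t.2 ++ [0]) : ℤ[T;T⁻¹]))).sum := by
  unfold XW YW
  have key : ∀ l : List (ℤ × List ℕ), (∀ t ∈ l, ∀ i ∈ t.2, i + 1 < 2 * m) →
      dl ^ 2 * (l.map (fun t : ℤ × List ℕ => if ee' m t.2 then 0 else
        (LaurentPolynomial.T t.1 * dl ^ kk m t.2 : ℤ[T;T⁻¹]))).sum +
      dl * (l.map (fun t : ℤ × List ℕ => if ee' m t.2 then
        (LaurentPolynomial.T t.1 * dl ^ kk m t.2 : ℤ[T;T⁻¹]) else 0)).sum =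
      (l.map (fun t : ℤ × List ℕ => (LaurentPolynomial.T t.1 * dl ^ lam (2 * m) t.2 : ℤ[T;T⁻¹]))).sum ∧
      dl * (l.map (fun t : ℤ × List ℕ => if ee' m t.2 then 0 else
        (LaurentPolynomial.T t.1 * dl ^ kk m t.2 : ℤ[T;T⁻¹]))).sum +
      dl ^ 2 * (l.map (fun t : ℤ × List ℕ => if ee' m t.2 then
        (LaurentPolynomial.T t.1 * dl ^ kk m t.2 : ℤ[T;T⁻¹]) else 0)).sum =
      (l.map (fun t : ℤ × List ℕ => (LaurentPolynomial.T t.1 * dl ^ lam (2 * m) (t.2 ++ [0]) : ℤ[T;T⁻¹]))).sum := by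
    intro l
    induction l with
    | nil => intro _; simp
    | cons t l ih =>
      intro hl
      obtain ⟨h1, h2, -⟩ := kk_spec hm t.2 (hl t List.mem_cons_self)
      obtain ⟨i1, i2⟩ := ih (fun u hu => hl u (List.mem_cons_of_mem _ hu))
      simp only [List.map_cons, List.sum_cons]
      rw [← i1, ← i2, h1, h2]
      cases hε : ee' m t.2
      · simp only [Bool.false_eq_true, if_false]
        constructor <;> ring
      · simp only [if_true]
        constructor <;> ring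
  exact key _ (terms_mem W hW)

end brk

/-! ### evaluation at a root of unity -/

section evz

variable {ζ d : ℂ} {m : ℕ}

/-- evaluation of a Laurent polynomial at a nonzero complex number -/
noncomputable def evz (z : ℂ) (hz : z ≠ 0) : ℤ[T;T⁻¹] →+* ℂ :=
  LaurentPolynomial.eval₂ (Int.castRingHom ℂ) (Units.mk0 z hz)

theorem evz_T (z : ℂ) (hz : z ≠ 0) (k : ℤ) : evz z hz (LaurentPolynomial.T k) = z ^ k := by
  unfold evz
  rw [LaurentPolynomial.eval₂_T]
  simp

theorem evz_dl (h0 : ζ ≠ 0) (hz : 1 + ζ + ζ ^ 2 + ζ ^ 3 + ζ ^ 4 = 0) (hd : d = -ζ ^ 2 - ζ ^ 3) :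
    evz ζ h0 dl = d := by
  unfold dl
  rw [map_sub, map_neg, evz_T, evz_T, hd]
  have h5 : ζ ^ 5 = 1 := by linear_combination (ζ - 1) * hz
  have : ζ ^ (-2 : ℤ) = ζ ^ 3 := by
    rw [zpow_neg]
    norm_cast
    exact inv_eq_of_mul_eq_one_right (by linear_combination h5)
  rw [this]
  norm_cast

theorem evz_sum (h0 : ζ ≠ 0) (hz : 1 + ζ + ζ ^ 2 + ζ ^ 3 + ζ ^ 4 = 0) (hd : d = -ζ ^ 2 - ζ ^ 3)
    (l : List (ℤ × List ℕ)) (f : List ℕ → ℕ) :
    evz ζ h0 (l.map (fun t : ℤ × List ℕ => (LaurentPolynomial.T t.1 * dl ^ f t.2 : ℤ[T;T⁻¹]))).sum =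
      (l.map (fun t : ℤ × List ℕ => ζ ^ t.1 * d ^ f t.2)).sum := by
  have h1 := map_lsum (evz ζ h0).toAddMonoidHom
    (fun t : ℤ × List ℕ => (LaurentPolynomial.T t.1 * dl ^ f t.2 : ℤ[T;T⁻¹])) l
  refine h1.trans ?_
  congr 1
  apply List.map_congr_left
  intro t _
  show evz ζ h0 _ = _
  rw [map_mul, map_pow, evz_T, evz_dl h0 hz hd]

theorem tr_MG (h0 : ζ ≠ 0) (M : ℕ) (W : List (Bool × ℕ)) (hW : ∀ x ∈ W, x.2 + 1 < M) :
    tr d M (MG ζ (er d M) W) = ((terms W).map (fun t : ℤ × List ℕ => ζ ^ t.1 * d ^ lam M t.2)).sum := by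
  rw [MG_terms h0]
  have h1 := map_lsum (tr d M).toAddMonoidHom
    (fun t : ℤ × List ℕ => ζ ^ t.1 • WP (er d M) t.2) (terms W)
  refine h1.trans ?_
  congr 1
  apply List.map_congr_left
  intro t ht
  show tr d M _ = _
  rw [map_smul, tr_WP d M t.2 (terms_mem W hW t ht), smul_eq_mul]

theorem tr_MG0 (h0 : ζ ≠ 0) (M : ℕ) (hM : 1 < M) (W : List (Bool × ℕ)) (hW : ∀ x ∈ W, x.2 + 1 < M) :
    tr d M (MG ζ (er d M) W * er d M 0) =
      ((terms W).map (fun t : ℤ × List ℕ => ζ ^ t.1 * d ^ lam M (t.2 ++ [0]))).sum := by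
  rw [MG_terms h0, ← List.sum_map_mul_right]
  have h1 := map_lsum (tr d M).toAddMonoidHom
    (fun t : ℤ × List ℕ => ζ ^ t.1 • WP (er d M) t.2 * er d M 0) (terms W)
  refine h1.trans ?_
  congr 1
  apply List.map_congr_left
  intro t ht
  show tr d M _ = _
  have e1 : ζ ^ t.1 • WP (er d M) t.2 * er d M 0 = ζ ^ t.1 • WP (er d M) (t.2 ++ [0]) := by
    rw [WP_append, smul_mul_assoc]
    simp [WP]
  rw [e1, map_smul, tr_WP d M (t.2 ++ [0]), smul_eq_mul]
  intro i hi
  rcases List.mem_append.1 hi with hi | hi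
  · exact terms_mem W hW t ht i hi
  · simp at hi; omega

end evz

end Pool.Agent.V8H83.WD
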