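import Pool.Agent.N569.TW.Lam
import Pool.Agent.TH561.PB.Mat2

/-!
# The Temperley-Lieb algebra at an arbitrary loop value modulo the radical of its trace

The trace of a word in the generators is `d ^ (number of closed curves)`; `RR d M` is the quotient of the
free algebra by the radical of this trace.
-/

set_option autoImplicit false

namespace Pool.Agent.V8H83.WD

open Pool.Agent.H891R2.Jones Pool.Agent.TH561 Pool.Agent.N569.TW

/-! ### the number of closed curves -/

section lam

variable {M : ℕ}

theorem trace_two (L : List ℕ) (h : ∀ i ∈ L, i + 1 < M) :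
    Matrix.trace (WP (KK M 2) L) = (2 : ℂ) ^ lam M L := by
  have := trace_lam L h (N := 2) (by norm_num)
  simpa using this

theorem lam_of_smul {L L' : List ℕ} (h : ∀ i ∈ L, i + 1 < M) (h' : ∀ i ∈ L', i + 1 < M) (a : ℕ)
    (ht : Matrix.trace (WP (KK M 2) L) = (2 : ℂ) ^ a * Matrix.trace (WP (KK M 2) L')) :
    lam M L = a + lam M L' := by
  rw [trace_two L h, trace_two L' h', ← pow_add] at ht
  have h2 : (2 : ℕ) ^ lam M L = 2 ^ (a + lam M L') := by exact_mod_cast ht
  exact Nat.pow_right_injective le_rfl h2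

theorem mem_app {a b c : List ℕ} (h : ∀ i ∈ a ++ b ++ c, i + 1 < M) :
    (∀ i ∈ a, i + 1 < M) ∧ (∀ i ∈ b, i + 1 < M) ∧ (∀ i ∈ c, i + 1 < M) :=
  ⟨fun i hi => h i (by simp [hi]), fun i hi => h i (by simp [hi]), fun i hi => h i (by simp [hi])⟩

theorem lam_ctx (a b : List ℕ) (P Q : List ℕ) (n : ℕ) (h : ∀ i ∈ a ++ P ++ b, i + 1 < M)
    (h' : ∀ i ∈ a ++ Q ++ b, i + 1 < M)
    (hPQ : WP (KK M 2) P = ((2 : ℂ) ^ n) • WP (KK M 2) Q) :
    lam M (a ++ P ++ b) = n + lam M (a ++ Q ++ b) := by
  apply lam_of_smul h h'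
  rw [WP_append, WP_append, hPQ, WP_append, WP_append, mul_smul_comm, smul_mul_assoc,
    Matrix.trace_smul, smul_eq_mul]

theorem lam_sq (a b : List ℕ) (i : ℕ) (hi : i + 1 < M) (h : ∀ k ∈ a ++ b, k + 1 < M) :
    lam M (a ++ [i, i] ++ b) = 1 + lam M (a ++ [i] ++ b) := by
  refine lam_ctx a b [i, i] [i] 1 ?_ ?_ ?_
  · intro k hk
    simp only [List.mem_append, List.mem_cons, List.not_mem_nil, or_false, or_self] at hk h
    rcases hk with (hk | rfl) | hk
    · exact h k (Or.inl hk)
    · exact hi
    · exact h k (Or.inr hk)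
  · intro k hk
    simp only [List.mem_append, List.mem_cons, List.not_mem_nil, or_false] at hk h
    rcases hk with (hk | rfl) | hk
    · exact h k (Or.inl hk)
    · exact hi
    · exact h k (Or.inr hk)
  · have := (isTL_KK M 2).sq i hi
    simp only [WP, List.map_cons, List.map_nil, List.prod_cons, List.prod_nil, mul_one, pow_one]
    simpa using this

theorem lam_ctx0 (a b : List ℕ) (P Q : List ℕ) (h : ∀ i ∈ a ++ b, i + 1 < M)
    (hP : ∀ i ∈ P, i + 1 < M) (hQ : ∀ i ∈ Q, i + 1 < M)
    (hPQ : WP (KK M 2) P = WP (KK M 2) Q) :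
    lam M (a ++ P ++ b) = lam M (a ++ Q ++ b) := by
  have := lam_ctx a b P Q 0 (M := M) ?_ ?_ (by rw [hPQ, pow_zero, one_smul])
  · omega
  · intro k hk
    simp only [List.mem_append] at hk h
    rcases hk with (hk | hk) | hk
    · exact h k (Or.inl hk)
    · exact hP k hk
    · exact h k (Or.inr hk)
  · intro k hk
    simp only [List.mem_append] at hk h
    rcases hk with (hk | hk) | hk
    · exact h k (Or.inl hk)
    · exact hQ k hk
    · exact h k (Or.inr hk)

theorem lam_markov (r : ℕ) (L : List ℕ) (hr : r + 1 < M) (hL : ∀ i ∈ L, i < r) :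
    lam M L = 1 + lam M (L ++ [r]) := by
  have h1 := markov (m := M) (N := 2) (by norm_num) r L hr hL
  apply lam_of_smul
  · intro i hi
    have := hL i hi
    omega
  · intro i hi
    rcases List.mem_append.1 hi with h | h
    · have := hL i h
      omega
    · rw [List.mem_singleton] at h
      omega
  · rw [← h1, WP_append]
    simp [WP]

theorem WP_loc {N : ℕ} (s : Fin M) (L : List ℕ) (hL : ∀ i ∈ L, i + 1 < M ∧ i ≠ s ∧ i + 1 ≠ s) :
    WP (KK M N) L ∈ Loc N s := by
  induction L with
  | nil => exact one_mem _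
  | cons i L ih =>
    rw [WP_cons]
    have hi := hL i List.mem_cons_self
    refine mul_mem (KK_loc s i hi.1 ?_ ?_) (ih (fun k hk => hL k (List.mem_cons_of_mem _ hk)))
    · intro h
      exact hi.2.1 (by rw [← h])
    · intro h
      exact hi.2.2 (by rw [← h])

/-- removing a generator whose second strand is not touched by the rest -/
theorem markov3 {N : ℕ} (hN : N ≠ 0) (k : ℕ) (hk : k + 1 < M)
    (Y : Matrix (Fin M → Fin N) (Fin M → Fin N) ℂ) (hY : Y ∈ Loc N (⟨k + 1, hk⟩ : Fin M)) :
    (N : ℂ) * Matrix.trace (Y * KK M N k) = Matrix.trace Y := by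
  obtain ⟨hY1, hY2⟩ := hY
  rw [Matrix.trace_mul_comm]
  unfold Matrix.trace
  have hrs : (⟨k, Nat.lt_of_succ_lt hk⟩ : Fin M) ≠ ⟨k+1, hk⟩ := by
    intro h; simp at h
  rw [← sum_place hN ⟨k+1, hk⟩ ⟨k, Nat.lt_of_succ_lt hk⟩ hrs (fun y => Y.diag y)]
  · congr 1
    refine Finset.sum_congr rfl fun y _ => ?_
    rw [Matrix.diag_apply, KK_mul_apply k hk]
    by_cases hy : y ⟨k, Nat.lt_of_succ_lt hk⟩ = y ⟨k+1, hk⟩
    · rw [if_pos hy, if_pos hy, Finset.sum_eq_single (y ⟨k+1, hk⟩)]
      · rw [Matrix.diag_apply]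
        have hx : upd y ⟨k, Nat.lt_of_succ_lt hk⟩ ⟨k+1, hk⟩ (y ⟨k+1, hk⟩) = y := by
          funext j
          simp only [upd]
          split_ifs with hj
          · rcases hj with rfl | rfl
            · exact hy.symm
            · rfl
          · rfl
        rw [hx]
      · intro c _ hc
        apply hY1
        rw [upd_right]
        exact hc
      · intro h; exact absurd (Finset.mem_univ _) h
    · rw [if_neg hy, if_neg hy]
  · intro σ x
    rw [Matrix.diag_apply, Matrix.diag_apply]
    exact hY2 σ x x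

theorem lam_append_eq (r : ℕ) (L : List ℕ) (hr : r + 1 < M) (hL : ∀ i ∈ L, i + 1 < M)
    (h1 : (2 : ℂ) * Matrix.trace (WP (KK M 2) L * KK M 2 r) = Matrix.trace (WP (KK M 2) L)) :
    lam M L = 1 + lam M (L ++ [r]) := by
  apply lam_of_smul hL
  · intro i hi
    rcases List.mem_append.1 hi with h | h
    · exact hL i h
    · rw [List.mem_singleton] at h
      omega
  · rw [← h1, WP_append]
    simp [WP]

theorem lam_markovR (r : ℕ) (L : List ℕ) (hr : r + 1 < M) (hL : ∀ i ∈ L, i + 1 < M ∧ i ≠ r ∧ i ≠ r + 1) :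
    lam M L = 1 + lam M (L ++ [r]) := by
  apply lam_append_eq r L hr (fun i hi => (hL i hi).1)
  have := markov3 (M := M) (N := 2) (by norm_num) r hr (WP (KK M 2) L) (WP_loc _ L (fun i hi => by
    have := hL i hi
    refine ⟨this.1, ?_, ?_⟩
    · simp only; omega
    · simp only; omega))
  simpa using this

theorem lam_markovL (r : ℕ) (L : List ℕ) (hr : r + 1 < M) (hL : ∀ i ∈ L, i + 1 < M ∧ i ≠ r ∧ i + 1 ≠ r) :
    lam M L = 1 + lam M (L ++ [r]) := by
  apply lam_append_eq r L hr (fun i hi => (hL i hi).1)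
  have := markov2 (m := M) (N := 2) (by norm_num) r hr (WP (KK M 2) L) (WP_loc _ L (fun i hi => by
    have := hL i hi
    refine ⟨this.1, ?_, ?_⟩
    · simp only; omega
    · simp only; omega))
  simpa using this

theorem lam_nil' : lam M [] = M := by
  have h := ess_nil M
  unfold lam
  rw [h.1, h.2, add_zero]

end lam

/-! ### the quotient -/

open Classical in
/-- the trace of a word (`0` if some letter is not allowed) -/
noncomputable def gw (d : ℂ) (M : ℕ) (L : List ℕ) : ℂ := if ∀ i ∈ L, i + 1 < M then d ^ lam M L else 0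

/-- the free algebra -/
abbrev FA : Type := MonoidAlgebra ℂ (FreeMonoid ℕ)

/-- the trace on the free algebra -/
noncomputable def t0 (d : ℂ) (M : ℕ) : FA →ₗ[ℂ] ℂ where
  toFun x := x.coeff.sum (fun w c => c * gw d M w.toList)
  map_add' x y := by
    rw [MonoidAlgebra.coeff_add, Finsupp.sum_add_index']
    · intro w; simp
    · intro w b c; ring
  map_smul' c x := by
    rw [MonoidAlgebra.coeff_smul, Finsupp.sum_smul_index']
    · simp only [smul_eq_mul, RingHom.id_apply, Finsupp.mul_sum, mul_assoc]
    · intro w; simp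

theorem t0_single (d : ℂ) (M : ℕ) (w : FreeMonoid ℕ) (c : ℂ) :
    t0 d M (MonoidAlgebra.single w c) = c * gw d M w.toList := by
  show (MonoidAlgebra.single w c).coeff.sum (fun w c => c * gw d M w.toList) = _
  rw [MonoidAlgebra.coeff_single, Finsupp.sum_single_index]
  simp

/-- the radical of the trace -/
noncomputable def cc (d : ℂ) (M : ℕ) : RingCon FA where
  r x y := ∀ a b : FA, t0 d M (a * x * b) = t0 d M (a * y * b)
  iseqv := ⟨fun _ _ _ => rfl, fun h a b => (h a b).symm, fun h h' a b => (h a b).trans (h' a b)⟩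
  mul' := by
    intro w x y z h h' a b
    calc t0 d M (a * (w * y) * b) = t0 d M (a * w * (y * b)) := by congr 1; simp only [mul_assoc]
      _ = t0 d M (a * x * (y * b)) := h a (y * b)
      _ = t0 d M ((a * x) * y * b) := by congr 1; simp only [mul_assoc]
      _ = t0 d M ((a * x) * z * b) := h' (a * x) b
      _ = _ := by congr 1; simp only [mul_assoc]
  add' := by
    intro w x y z h h' a b
    simp only [mul_add, add_mul, map_add, h a b, h' a b]

theorem cc_iff (d : ℂ) (M : ℕ) (x y : FA) :
    cc d M x y ↔ ∀ a b : FA, t0 d M (a * x * b) = t0 d M (a * y * b) := Iff.rfl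

/-- the Temperley-Lieb algebra modulo the radical of the trace -/
abbrev RR (d : ℂ) (M : ℕ) : Type := (cc d M).Quotient

/-- the generators -/
noncomputable def er (d : ℂ) (M : ℕ) (i : ℕ) : RR d M :=
  ((MonoidAlgebra.single (FreeMonoid.of i) (1 : ℂ) : FA) : RR d M)

/-- the trace -/
noncomputable def tr (d : ℂ) (M : ℕ) : RR d M →ₗ[ℂ] ℂ where
  toFun x := Quotient.liftOn' x (t0 d M) (fun a b h => by
    have := (cc_iff d M a b).1 h 1 1
    simpa using this)
  map_add' x y := by
    induction x using Quotient.inductionOn' with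
    | h x =>
      induction y using Quotient.inductionOn' with
      | h y => exact map_add (t0 d M) x y
  map_smul' c x := by
    induction x using Quotient.inductionOn' with
    | h x => exact map_smul (t0 d M) c x

theorem tr_mk (d : ℂ) (M : ℕ) (x : FA) : tr d M ((x : FA) : RR d M) = t0 d M x := rfl

theorem WP_er (d : ℂ) (M : ℕ) (L : List ℕ) :
    WP (er d M) L = ((MonoidAlgebra.single (FreeMonoid.ofList L) (1 : ℂ) : FA) : RR d M) := by
  induction L with
  | nil => rfl
  | cons i L ih =>
    rw [WP_cons, ih, er, ← RingCon.coe_mul, MonoidAlgebra.single_mul_single, one_mul]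
    rfl

theorem tr_WP (d : ℂ) (M : ℕ) (L : List ℕ) (hL : ∀ i ∈ L, i + 1 < M) :
    tr d M (WP (er d M) L) = d ^ lam M L := by
  rw [WP_er, tr_mk, t0_single, one_mul]
  exact if_pos hL

/-- linear induction -/
theorem lin_ext {f g : FA →ₗ[ℂ] ℂ} (h : ∀ w : FreeMonoid ℕ, f (MonoidAlgebra.single w 1) =
    g (MonoidAlgebra.single w 1)) (x : FA) : f x = g x := by
  induction x using MonoidAlgebra.induction_linear with
  | zero => simp
  | add x y hx hy => rw [map_add, map_add, hx, hy]
  | single w c =>
    have : (MonoidAlgebra.single w c : FA) = c • MonoidAlgebra.single w 1 := by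
      rw [MonoidAlgebra.smul_single, smul_eq_mul, mul_one]
    rw [this, map_smul, map_smul, h w]

/-- equality in the quotient from equality for words -/
theorem cc_of_words (d : ℂ) (M : ℕ) (x y : FA)
    (h : ∀ a b : List ℕ, t0 d M (MonoidAlgebra.single (FreeMonoid.ofList a) 1 * x *
      MonoidAlgebra.single (FreeMonoid.ofList b) 1) = t0 d M (MonoidAlgebra.single (FreeMonoid.ofList a) 1 * y *
      MonoidAlgebra.single (FreeMonoid.ofList b) 1)) : ((x : FA) : RR d M) = ((y : FA) : RR d M) := by
  apply ((cc d M).eq).2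
  rw [cc_iff]
  intro a b
  have h1 : ∀ a' : FreeMonoid ℕ, t0 d M (MonoidAlgebra.single a' 1 * x * b) =
      t0 d M (MonoidAlgebra.single a' 1 * y * b) := by
    intro a'
    exact lin_ext (f := (t0 d M) ∘ₗ (LinearMap.mulLeft ℂ (MonoidAlgebra.single a' 1 * x)))
      (g := (t0 d M) ∘ₗ (LinearMap.mulLeft ℂ (MonoidAlgebra.single a' 1 * y))) (fun w => h a' w) b
  have h2 := lin_ext (f := (t0 d M) ∘ₗ (LinearMap.mulRight ℂ (x * b)))
    (g := (t0 d M) ∘ₗ (LinearMap.mulRight ℂ (y * b))) (fun w => by
      have := h1 w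
      simp only [LinearMap.comp_apply, LinearMap.mulRight_apply]
      rw [← mul_assoc, ← mul_assoc]
      exact this) a
  simp only [LinearMap.comp_apply, LinearMap.mulRight_apply] at h2
  rw [mul_assoc, mul_assoc]
  exact h2

/-- relations between words hold in the quotient -/
theorem er_rel (d : ℂ) (M : ℕ) (P Q : List ℕ) (n : ℕ) (hP : ∀ i ∈ P, i + 1 < M) (hQ : ∀ i ∈ Q, i + 1 < M)
    (h : ∀ a b : List ℕ, (∀ i ∈ a ++ b, i + 1 < M) → lam M (a ++ P ++ b) = n + lam M (a ++ Q ++ b)) :
    WP (er d M) P = d ^ n • WP (er d M) Q := by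
  rw [WP_er, WP_er, ← RingCon.coe_smul]
  apply cc_of_words
  intro a b
  rw [mul_smul_comm, smul_mul_assoc, map_smul, MonoidAlgebra.single_mul_single,
    MonoidAlgebra.single_mul_single, MonoidAlgebra.single_mul_single, MonoidAlgebra.single_mul_single,
    t0_single, t0_single]
  simp only [one_mul, FreeMonoid.toList_mul, FreeMonoid.toList_ofList, smul_eq_mul]
  unfold gw
  by_cases hab : ∀ i ∈ a ++ b, i + 1 < M
  · rw [if_pos, if_pos, h a b hab, pow_add]
    · intro i hi
      simp only [List.mem_append] at hi hab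
      rcases hi with (hi | hi) | hi
      · exact hab i (Or.inl hi)
      · exact hQ i hi
      · exact hab i (Or.inr hi)
    · intro i hi
      simp only [List.mem_append] at hi hab
      rcases hi with (hi | hi) | hi
      · exact hab i (Or.inl hi)
      · exact hP i hi
      · exact hab i (Or.inr hi)
  · have h1 : ∀ X : List ℕ, ¬ ∀ i ∈ a ++ X ++ b, i + 1 < M := by
      intro X hX
      apply hab
      intro i hi
      rcases List.mem_append.1 hi with h | h
      · exact hX i (by simp [h])
      · exact hX i (by simp [h])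
    rw [if_neg (h1 P), if_neg (h1 Q), mul_zero]

theorem isTL_er (d : ℂ) (M : ℕ) : IsTL M d (er d M) where
  sq i hi := by
    have := er_rel d M [i, i] [i] 1 (by simp [hi]) (by simp [hi]) (fun a b hab => lam_sq a b i hi hab)
    simpa [WP] using this
  up i hi := by
    have := er_rel d M [i, i+1, i] [i] 0 (by simp; omega) (by simp; omega) (fun a b hab => by
      rw [zero_add]
      refine lam_ctx0 a b _ _ hab (by simp; omega) (by simp; omega) ?_
      have := (isTL_KK M 2).up i hi
      simpa [WP, mul_assoc] using this)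
    simpa [WP, mul_assoc] using this
  down i hi := by
    have := er_rel d M [i+1, i, i+1] [i+1] 0 (by simp; omega) (by simp; omega) (fun a b hab => by
      rw [zero_add]
      refine lam_ctx0 a b _ _ hab (by simp; omega) (by simp; omega) ?_
      have := (isTL_KK M 2).down i hi
      simpa [WP, mul_assoc] using this)
    simpa [WP, mul_assoc] using this
  far i j hj hij := by
    have := er_rel d M [i, j] [j, i] 0 (by simp; omega) (by simp; omega) (fun a b hab => by
      rw [zero_add]
      refine lam_ctx0 a b _ _ hab (by simp; omega) (by simp; omega) ?_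
      have := (isTL_KK M 2).far i j hj hij
      simpa [WP, mul_assoc] using this)
    simpa [WP, mul_assoc] using this

/-- letters which are not allowed are zero -/
theorem er_zero (d : ℂ) (M : ℕ) (i : ℕ) (hi : ¬ i + 1 < M) : er d M i = 0 := by
  have h0 : (0 : RR d M) = ((0 : FA) : RR d M) := rfl
  rw [h0, er]
  apply cc_of_words
  intro a b
  rw [mul_zero, zero_mul, map_zero, MonoidAlgebra.single_mul_single, MonoidAlgebra.single_mul_single,
    t0_single]
  unfold gw
  rw [if_neg, mul_zero]
  intro h
  exact hi (h i (by simp))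

theorem lin_ext_R {d : ℂ} {M : ℕ} {V : Type*} [AddCommGroup V] [Module ℂ V] {f g : RR d M →ₗ[ℂ] V}
    (h : ∀ L : List ℕ, (∀ i ∈ L, i + 1 < M) → f (WP (er d M) L) = g (WP (er d M) L)) (x : RR d M) :
    f x = g x := by
  classical
  have h' : ∀ L : List ℕ, f (WP (er d M) L) = g (WP (er d M) L) := by
    intro L
    by_cases hL : ∀ i ∈ L, i + 1 < M
    · exact h L hL
    · have : WP (er d M) L = 0 := by
        push Not at hL
        obtain ⟨i, hi, hi'⟩ := hL
        obtain ⟨L1, L2, rfl⟩ := List.append_of_mem hi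
        rw [WP_append, WP_cons, er_zero d M i (by omega), zero_mul, mul_zero]
      rw [this, map_zero, map_zero]
  induction x using Quotient.inductionOn' with
  | h x =>
    show f ((x : FA) : RR d M) = g ((x : FA) : RR d M)
    induction x using MonoidAlgebra.induction_linear with
    | zero =>
      have h0 : ((0 : FA) : RR d M) = 0 := rfl
      rw [h0, map_zero, map_zero]
    | add x y hx hy => rw [RingCon.coe_add, map_add, map_add, hx, hy]
    | single w c =>
      have h1 : (MonoidAlgebra.single w c : FA) = c • MonoidAlgebra.single w 1 := by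
        rw [MonoidAlgebra.smul_single, smul_eq_mul, mul_one]
      have h2 := h' w.toList
      rw [WP_er] at h2
      rw [h1, RingCon.coe_smul, map_smul, map_smul]
      congr 1

theorem tr_comm (d : ℂ) (M : ℕ) (x y : RR d M) : tr d M (x * y) = tr d M (y * x) := by
  have h1 : ∀ L : List ℕ, (∀ i ∈ L, i + 1 < M) → ∀ y : RR d M, tr d M (WP (er d M) L * y) =
      tr d M (y * WP (er d M) L) := by
    intro L hL y
    exact lin_ext_R (f := (tr d M) ∘ₗ (LinearMap.mulLeft ℂ (WP (er d M) L)))
      (g := (tr d M) ∘ₗ (LinearMap.mulRight ℂ (WP (er d M) L))) (fun L' hL' => by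
        simp only [LinearMap.comp_apply, LinearMap.mulLeft_apply, LinearMap.mulRight_apply]
        rw [← WP_append, ← WP_append, tr_WP, tr_WP, lam_comm L L' hL hL']
        · intro i hi
          rcases List.mem_append.1 hi with h | h
          · exact hL' i h
          · exact hL i h
        · intro i hi
          rcases List.mem_append.1 hi with h | h
          · exact hL i h
          · exact hL' i h) y
  exact lin_ext_R (f := (tr d M) ∘ₗ (LinearMap.mulRight ℂ y))
    (g := (tr d M) ∘ₗ (LinearMap.mulLeft ℂ y)) (fun L hL => by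
      simp only [LinearMap.comp_apply, LinearMap.mulLeft_apply, LinearMap.mulRight_apply]
      exact h1 L hL y) x

/-- the Markov property for words -/
theorem tr_markov (d : ℂ) (M : ℕ) (r : ℕ) (L : List ℕ) (hr : r + 1 < M) (hL : ∀ i ∈ L, i < r) :
    d * tr d M (WP (er d M) L * er d M r) = tr d M (WP (er d M) L) := by
  have h1 : WP (er d M) L * er d M r = WP (er d M) (L ++ [r]) := by rw [WP_append]; simp [WP]
  rw [h1, tr_WP, tr_WP, lam_markov r L hr hL, pow_add, pow_one]
  · intro i hi
    have := hL i hi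
    omega
  · intro i hi
    rcases List.mem_append.1 hi with h | h
    · have := hL i h
      omega
    · rw [List.mem_singleton] at h
      omega

theorem tr_one (d : ℂ) (M : ℕ) : tr d M 1 = d ^ M := by
  have := tr_WP d M [] (by simp)
  rw [WP_nil, lam_nil'] at this
  exact this

/-! ### the Markov property -/

/-- the subalgebra generated by the generators with the property `P` -/
noncomputable def SA (d : ℂ) (M : ℕ) (P : ℕ → Prop) : Subalgebra ℂ (RR d M) :=
  Algebra.adjoin ℂ {x | ∃ i, P i ∧ i + 1 < M ∧ x = er d M i}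

theorem er_mem_SA {d : ℂ} {M : ℕ} {P : ℕ → Prop} {i : ℕ} (h : P i) : er d M i ∈ SA d M P := by
  by_cases hi : i + 1 < M
  · exact Algebra.subset_adjoin ⟨i, h, hi, rfl⟩
  · rw [er_zero d M i hi]
    exact zero_mem _

theorem SA_mono {d : ℂ} {M : ℕ} {P Q : ℕ → Prop} (h : ∀ i, P i → Q i) : SA d M P ≤ SA d M Q :=
  Algebra.adjoin_mono (fun _ ⟨i, h1, h2, h3⟩ => ⟨i, h i h1, h2, h3⟩)

theorem SA_induction {d : ℂ} {M : ℕ} {P : ℕ → Prop} {f g : RR d M →ₗ[ℂ] ℂ}
    (h : ∀ L : List ℕ, (∀ i ∈ L, P i ∧ i + 1 < M) → f (WP (er d M) L) = g (WP (er d M) L))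
    (x : RR d M) (hx : x ∈ SA d M P) : f x = g x := by
  have h1 : x ∈ Submodule.span ℂ (Submonoid.closure {x | ∃ i, P i ∧ i + 1 < M ∧ x = er d M i} : Set (RR d M)) := by
    rw [← Algebra.adjoin_eq_span]
    exact hx
  clear hx
  induction h1 using Submodule.span_induction with
  | mem y hy =>
    have h2 : ∃ L : List ℕ, (∀ i ∈ L, P i ∧ i + 1 < M) ∧ y = WP (er d M) L := by
      induction hy using Submonoid.closure_induction with
      | mem z hz =>
        obtain ⟨i, h3, h4, rfl⟩ := hz
        exact ⟨[i], by simp [h3, h4], by simp [WP]⟩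
      | one => exact ⟨[], by simp, rfl⟩
      | mul a b _ _ ha hb =>
        obtain ⟨La, h3, rfl⟩ := ha
        obtain ⟨Lb, h5, rfl⟩ := hb
        refine ⟨La ++ Lb, ?_, (WP_append _ _ _).symm⟩
        intro i hi
        rcases List.mem_append.1 hi with h | h
        · exact h3 i h
        · exact h5 i h
    obtain ⟨L, h3, rfl⟩ := h2
    exact h L h3
  | zero => rw [map_zero, map_zero]
  | add a b _ _ ha hb => rw [map_add, map_add, ha, hb]
  | smul c a _ ha => rw [map_smul, map_smul, ha]

theorem tr_markovR (d : ℂ) (M : ℕ) (r : ℕ) (hr : r + 1 < M) (Y : RR d M)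
    (hY : Y ∈ SA d M (fun i => i ≠ r ∧ i ≠ r + 1)) : d * tr d M (Y * er d M r) = tr d M Y := by
  have := SA_induction (f := (d • (tr d M)) ∘ₗ (LinearMap.mulRight ℂ (er d M r))) (g := tr d M)
    (P := fun i => i ≠ r ∧ i ≠ r + 1) (fun L hL => by
      simp only [LinearMap.comp_apply, LinearMap.mulRight_apply, LinearMap.smul_apply, smul_eq_mul]
      have h1 : WP (er d M) L * er d M r = WP (er d M) (L ++ [r]) := by rw [WP_append]; simp [WP]
      rw [h1, tr_WP, tr_WP, lam_markovR r L hr, pow_add, pow_one]
      · intro i hi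
        exact ⟨(hL i hi).2, (hL i hi).1⟩
      · exact fun i hi => (hL i hi).2
      · intro i hi
        rcases List.mem_append.1 hi with h | h
        · exact (hL i h).2
        · rw [List.mem_singleton] at h
          omega) Y hY
  simpa using this

theorem tr_markovL (d : ℂ) (M : ℕ) (r : ℕ) (hr : r + 1 < M) (Y : RR d M)
    (hY : Y ∈ SA d M (fun i => i ≠ r ∧ i + 1 ≠ r)) : d * tr d M (Y * er d M r) = tr d M Y := by
  have := SA_induction (f := (d • (tr d M)) ∘ₗ (LinearMap.mulRight ℂ (er d M r))) (g := tr d M)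
    (P := fun i => i ≠ r ∧ i + 1 ≠ r) (fun L hL => by
      simp only [LinearMap.comp_apply, LinearMap.mulRight_apply, LinearMap.smul_apply, smul_eq_mul]
      have h1 : WP (er d M) L * er d M r = WP (er d M) (L ++ [r]) := by rw [WP_append]; simp [WP]
      rw [h1, tr_WP, tr_WP, lam_markovL r L hr, pow_add, pow_one]
      · intro i hi
        exact ⟨(hL i hi).2, (hL i hi).1⟩
      · exact fun i hi => (hL i hi).2
      · intro i hi
        rcases List.mem_append.1 hi with h | h
        · exact (hL i h).2
        · rw [List.mem_singleton] at h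
          omega) Y hY
  simpa using this

/-- an element is zero if its products with all words have trace zero -/
theorem zero_of_tr (d : ℂ) (M : ℕ) (z : RR d M)
    (h : ∀ L : List ℕ, (∀ i ∈ L, i + 1 < M) → tr d M (z * WP (er d M) L) = 0) : z = 0 := by
  have h1 : ∀ y : RR d M, tr d M (z * y) = 0 := by
    intro y
    have := lin_ext_R (f := (tr d M) ∘ₗ (LinearMap.mulLeft ℂ z)) (g := 0) (fun L hL => by
      simp only [LinearMap.comp_apply, LinearMap.mulLeft_apply, LinearMap.zero_apply]
      exact h L hL) y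
    simpa using this
  induction z using Quotient.inductionOn' with
  | h x =>
    show ((x : FA) : RR d M) = ((0 : FA) : RR d M)
    apply ((cc d M).eq).2
    rw [cc_iff]
    intro a b
    have h2 := h1 (((b : FA) : RR d M) * ((a : FA) : RR d M))
    have h3 : tr d M (((x : FA) : RR d M) * (((b : FA) : RR d M) * ((a : FA) : RR d M))) = 0 := h2
    rw [← mul_assoc, tr_comm, ← mul_assoc, ← RingCon.coe_mul, ← RingCon.coe_mul, tr_mk] at h3
    rw [h3, mul_zero, zero_mul, map_zero]

end Pool.Agent.V8H83.WD
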