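import Pool.Agent.V8H83.WD.T4
import Pool.Agent.V8H83.WD.Gns

/-!
# Doubled Temperley-Lieb generators
-/

set_option autoImplicit false

namespace Pool.Agent.V8H83.WD

open Pool.Agent.H891R2.Jones Pool.Agent.TH561

section prod

variable {R : Type*} [Ring R]

/-- the product of the elements `q 0, …, q (n - 1)` -/
def QP (q : ℕ → R) : ℕ → R
  | 0 => 1
  | (n+1) => QP q n * q n

variable {q : ℕ → R} {m : ℕ} (hc : ∀ j k, j < m → k < m → q j * q k = q k * q j)
  (hs : ∀ j, j < m → q j * q j = q j)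

include hc

theorem QP_comm (n : ℕ) (hn : n ≤ m) (k : ℕ) (hk : k < m) : QP q n * q k = q k * QP q n := by
  induction n with
  | zero => simp [QP]
  | succ n ih =>
    rw [QP, mul_assoc, hc n k (by omega) hk, ← mul_assoc, ih (by omega), mul_assoc]

include hs

theorem QP_absorb (n : ℕ) (hn : n ≤ m) (k : ℕ) (hk : k < n) : QP q n * q k = QP q n := by
  induction n with
  | zero => omega
  | succ n ih =>
    rcases Nat.lt_or_ge k n with h | h
    · rw [QP, mul_assoc, hc n k (by omega) (by omega), ← mul_assoc, ih (by omega) h]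
    · have : k = n := by omega
      subst this
      rw [QP, mul_assoc, hs k (by omega)]

theorem absorb_QP (n : ℕ) (hn : n ≤ m) (k : ℕ) (hk : k < n) : q k * QP q n = QP q n := by
  rw [← QP_comm hc n hn k (by omega), QP_absorb hc hs n hn k hk]

omit hc hs in
theorem QP_fix (n : ℕ) (z : R) (h : ∀ k, k < n → q k * z = z) : QP q n * z = z := by
  induction n with
  | zero => simp [QP]
  | succ n ih =>
    rw [QP, mul_assoc, h n (by omega), ih (fun k hk => h k (by omega))]

omit hc hs in
theorem QP_fix' (n : ℕ) (z : R) (h : ∀ k, k < n → z * q k = z) : z * QP q n = z := by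
  induction n with
  | zero => simp [QP]
  | succ n ih =>
    rw [QP, ← mul_assoc, ih (fun k hk => h k (by omega)), h n (by omega)]

theorem QP_sq : QP q m * QP q m = QP q m :=
  QP_fix' m _ (fun k hk => QP_absorb hc hs m le_rfl k hk)

end prod

section cab

variable {R : Type*} [Ring R] [Algebra ℂ R] {m : ℕ} {d : ℂ} {e : ℕ → R}

theorem t4_of (h : IsTL (2 * m) d e) (i : ℕ) (hi : i + 3 < 2 * m) : T4 d (e i) (e (i+1)) (e (i+2)) where
  aa := h.sq i (by omega)
  bb := h.sq (i+1) (by omega)
  cc := h.sq (i+2) (by omega)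
  aba := by rw [← mul_assoc]; exact h.up i (by omega)
  bab := by rw [← mul_assoc]; exact h.down i (by omega)
  bcb := by rw [← mul_assoc]; exact h.up (i+1) (by omega)
  cbc := by rw [← mul_assoc]; exact h.down (i+1) (by omega)
  ca := (h.far i (i+2) (by omega) (by omega)).symm

/-- the projector of the `j`-th doubled strand -/
def fb (d : ℂ) (e : ℕ → R) (j : ℕ) : R := 1 - (d - 1) • e (2 * j)

/-- the projector of all doubled strands -/
def FF2 (d : ℂ) (e : ℕ → R) (m : ℕ) : R := QP (fb d e) m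

/-- the doubled cup-cap -/
def Nb (e : ℕ → R) (j : ℕ) : R := NN (e (2 * j)) (e (2 * j + 1)) (e (2 * j + 2))

/-- the doubled crossing -/
def Xb (x y : ℂ) (e : ℕ → R) (j : ℕ) : R := XX x y (e (2 * j)) (e (2 * j + 1)) (e (2 * j + 2))

/-- the generators of the algebra of the doubled strands -/
def Ub (d : ℂ) (e : ℕ → R) (m : ℕ) (j : ℕ) : R := FF2 d e m * (Nb e j * FF2 d e m)

theorem F2_eq (j : ℕ) : F2 (d - 1) (e (2 * j)) (e (2 * j + 2)) = fb d e j * fb d e (j+1) := rfl

variable (h : IsTL (2 * m) d e) (hd : d ^ 2 = d + 1)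

include h

theorem fb_comm (j k : ℕ) (hj : j < m) (hk : k < m) : fb d e j * fb d e k = fb d e k * fb d e j := by
  have : e (2 * j) * e (2 * k) = e (2 * k) * e (2 * j) := by
    rcases lt_trichotomy j k with h1 | h1 | h1
    · exact h.far _ _ (by omega) (by omega)
    · rw [h1]
    · exact (h.far _ _ (by omega) (by omega)).symm
  have hc : Commute (e (2 * j)) (e (2 * k)) := this
  exact (Commute.one_left _).sub_left (((Commute.one_right _).sub_right (hc.smul_right _)).smul_left _)

/-- far generators commute -/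
theorem e_comm (i k : ℕ) (hi : i + 1 < 2 * m) (hk : k + 1 < 2 * m) (hik : i + 2 ≤ k ∨ k + 2 ≤ i) :
    e i * e k = e k * e i := by
  rcases hik with h1 | h1
  · exact h.far _ _ hk h1
  · exact (h.far _ _ hi h1).symm

theorem fb_e_comm (k i : ℕ) (hk : k < m) (hi : i + 1 < 2 * m) (hik : i + 2 ≤ 2 * k ∨ 2 * k + 2 ≤ i) :
    fb d e k * e i = e i * fb d e k := by
  unfold fb
  rw [sub_mul, mul_sub, smul_mul_assoc, mul_smul_comm, one_mul, mul_one,
    e_comm h (2 * k) i (by omega) hi (by omega)]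

theorem fb_Nb_comm (k j : ℕ) (hk : k < m) (hj : j + 1 < m) (h1 : k ≠ j) (h2 : k ≠ j + 1) :
    fb d e k * Nb e j = Nb e j * fb d e k := by
  have c : ∀ i, 2 * j ≤ i → i ≤ 2 * j + 2 → fb d e k * e i = e i * fb d e k := fun i h3 h4 =>
    fb_e_comm h k i hk (by omega) (by omega)
  unfold Nb NN
  rw [← mul_assoc, c _ (by omega) (by omega), mul_assoc, ← mul_assoc (fb d e k), c _ (by omega) (by omega),
    mul_assoc, ← mul_assoc (fb d e k), c _ (by omega) (by omega), mul_assoc, c _ (by omega) (by omega)]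
  simp only [mul_assoc]

theorem fb_Xb_comm (x y : ℂ) (k j : ℕ) (hk : k < m) (hj : j + 1 < m) (h1 : k ≠ j) (h2 : k ≠ j + 1) :
    fb d e k * Xb x y e j = Xb x y e j * fb d e k := by
  have c : ∀ i, 2 * j ≤ i → i ≤ 2 * j + 2 → Commute (fb d e k) (x • (1 : R) + y • e i) := fun i h3 h4 =>
    ((Commute.one_right _).smul_right x).add_right
      (Commute.smul_right (fb_e_comm h k i hk (by omega) (by omega)) y)
  unfold Xb XX
  exact (c _ (by omega) (by omega)).mul_right ((c _ (by omega) (by omega)).mul_right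
    ((c _ (by omega) (by omega)).mul_right (c _ (by omega) (by omega))))

theorem Nb_slide (j : ℕ) (hj : j + 1 < m) : Nb e j * fb d e j = Nb e j * fb d e (j+1) := by
  have := NN_a (t4_of h (2 * j) (by omega))
  unfold fb Nb
  rw [mul_sub, mul_sub, mul_smul_comm, mul_smul_comm, this]
  rfl

theorem slide_Nb (j : ℕ) (hj : j + 1 < m) : fb d e j * Nb e j = fb d e (j+1) * Nb e j := by
  have := a_NN (t4_of h (2 * j) (by omega))
  unfold fb Nb
  rw [sub_mul, sub_mul, smul_mul_assoc, smul_mul_assoc, this]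
  rfl

theorem Xb_slide {x y : ℂ} (hxy : x * y = 1) (hdx : d = -x ^ 2 - y ^ 2) (j : ℕ) (hj : j + 1 < m) :
    Xb x y e j * e (2 * j) = e (2 * (j + 1)) * Xb x y e j ∧
    Xb x y e j * e (2 * (j + 1)) = e (2 * j) * Xb x y e j ∧
    Xb x y e j * (e (2 * j) * e (2 * (j + 1))) = e (2 * j) * e (2 * (j + 1)) := by
  have t := t4_of h (2 * j) (by omega)
  exact ⟨X_a t hxy hdx, X_c t hxy hdx, X_ac t hxy hdx⟩

theorem Xb_fb {x y : ℂ} (hxy : x * y = 1) (hdx : d = -x ^ 2 - y ^ 2) (j : ℕ) (hj : j + 1 < m) :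
    Xb x y e j * fb d e j = fb d e (j + 1) * Xb x y e j ∧
    Xb x y e j * fb d e (j + 1) = fb d e j * Xb x y e j := by
  obtain ⟨h1, h2, _⟩ := Xb_slide h hxy hdx j hj
  unfold fb
  constructor
  · rw [mul_sub, sub_mul, mul_smul_comm, smul_mul_assoc, h1, mul_one, one_mul]
  · rw [mul_sub, sub_mul, mul_smul_comm, smul_mul_assoc, h2, mul_one, one_mul]

include hd

theorem fb_sq (j : ℕ) (hj : j < m) : fb d e j * fb d e j = fb d e j := by
  have h1 := h.sq (2 * j) (by omega)
  unfold fb
  simp only [mul_sub, sub_mul, mul_one, one_mul, smul_mul_assoc, mul_smul_comm, h1, smul_smul]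
  match_scalars
  · ring
  · linear_combination (d - 1) * hd

theorem FF2_fb (j : ℕ) (hj : j < m) : FF2 d e m * fb d e j = FF2 d e m :=
  QP_absorb (fun j k hj hk => fb_comm h j k hj hk) (fun j hj => fb_sq h hd j hj) m le_rfl j hj

theorem fb_FF2 (j : ℕ) (hj : j < m) : fb d e j * FF2 d e m = FF2 d e m :=
  absorb_QP (fun j k hj hk => fb_comm h j k hj hk) (fun j hj => fb_sq h hd j hj) m le_rfl j hj

theorem FF2_sq : FF2 d e m * FF2 d e m = FF2 d e m :=
  QP_sq (fun j k hj hk => fb_comm h j k hj hk) (fun j hj => fb_sq h hd j hj)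

theorem FF2_sq' (x : R) : FF2 d e m * (FF2 d e m * x) = FF2 d e m * x := by
  rw [← mul_assoc, FF2_sq h hd]

theorem Ub_FF2 (j : ℕ) : Ub d e m j * FF2 d e m = Ub d e m j := by
  unfold Ub
  rw [mul_assoc, mul_assoc, FF2_sq h hd]

theorem FF2_Ub (j : ℕ) : FF2 d e m * Ub d e m j = Ub d e m j := by
  unfold Ub
  rw [FF2_sq' h hd]

theorem FF2_F2 (j : ℕ) (hj : j + 1 < m) : FF2 d e m * F2 (d - 1) (e (2 * j)) (e (2 * j + 2)) = FF2 d e m := by
  rw [F2_eq, ← mul_assoc, FF2_fb h hd j (by omega), FF2_fb h hd (j+1) (by omega)]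

theorem F2_FF2 (j : ℕ) (hj : j + 1 < m) : F2 (d - 1) (e (2 * j)) (e (2 * j + 2)) * FF2 d e m = FF2 d e m := by
  rw [F2_eq, mul_assoc, fb_FF2 h hd (j+1) (by omega), fb_FF2 h hd j (by omega)]

/-- the projector in front of a doubled cup-cap -/
theorem FF2_Nb (j : ℕ) (hj : j + 1 < m) : FF2 d e m * (Nb e j * FF2 d e m) = fb d e j * (Nb e j * FF2 d e m) := by
  have hz : ∀ k, k < m → fb d e k * (fb d e j * (Nb e j * FF2 d e m)) = fb d e j * (Nb e j * FF2 d e m) := by
    intro k hk
    by_cases h1 : k = j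
    · subst h1
      rw [← mul_assoc, fb_sq h hd k hk]
    · by_cases h2 : k = j + 1
      · subst h2
        have e1 : fb d e j * (Nb e j * FF2 d e m) = fb d e (j+1) * (Nb e j * FF2 d e m) := by
          rw [← mul_assoc, slide_Nb h j hj, mul_assoc]
        rw [e1, ← mul_assoc, fb_sq h hd (j+1) hk]
      · rw [← mul_assoc, fb_comm h k j hk (by omega), mul_assoc, ← mul_assoc (fb d e k),
          fb_Nb_comm h k j hk hj h1 h2, mul_assoc, fb_FF2 h hd k hk]
  have e2 : FF2 d e m * (Nb e j * FF2 d e m) = FF2 d e m * (fb d e j * (Nb e j * FF2 d e m)) := by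
    rw [← mul_assoc (FF2 d e m) (fb d e j), FF2_fb h hd j (by omega)]
  rw [e2]
  exact QP_fix m _ hz

theorem Ub_eq (j : ℕ) (hj : j + 1 < m) : Ub d e m j = fb d e j * (Nb e j * FF2 d e m) := FF2_Nb h hd j hj

theorem Ub_eq' (j : ℕ) (hj : j + 1 < m) : Ub d e m j = fb d e (j+1) * (Nb e j * FF2 d e m) := by
  rw [Ub_eq h hd j hj, ← mul_assoc, slide_Nb h j hj, mul_assoc]

theorem isTL_Ub : IsTL m d (Ub d e m) where
  sq j hj := by
    have t := t4_of h (2 * j) (by omega)
    have h1 : Nb e j * Ub d e m j = d • (Nb e j * FF2 d e m) := by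
      have e1 : Ub d e m j = F2 (d - 1) (e (2 * j)) (e (2 * j + 2)) * (Nb e j * FF2 d e m) := by
        rw [F2_eq, mul_assoc, ← Ub_eq' h hd j hj, Ub_eq h hd j hj, ← mul_assoc (fb d e j) (fb d e j),
          fb_sq h hd j (by omega)]
      rw [e1, ← mul_assoc, ← mul_assoc, mul_assoc (Nb e j)]
      have := NFN t hd
      unfold Nb
      rw [this, smul_mul_assoc]
    have e3 : Ub d e m j * Ub d e m j = FF2 d e m * (Nb e j * (FF2 d e m * Ub d e m j)) := by
      conv_lhs => rw [show Ub d e m j * Ub d e m j = (FF2 d e m * (Nb e j * FF2 d e m)) * Ub d e m j from rfl]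
      simp only [mul_assoc]
    rw [e3, FF2_Ub h hd, h1, mul_smul_comm]
    rfl
  up j hj := by
    have t := t4_of h (2 * j) (by omega)
    have t' := t4_of h (2 * (j + 1)) (by omega)
    -- the product of the three doubled cup-caps
    have hN : Nb e j * (Nb e (j+1) * Nb e j) = Nb e j := by
      unfold Nb
      exact NNN t t' (e_comm h _ _ (by omega) (by omega) (by omega))
        (e_comm h _ _ (by omega) (by omega) (by omega)) (e_comm h _ _ (by omega) (by omega) (by omega))
    have s1 : Nb e (j+1) * Ub d e m j = Nb e (j+1) * (Nb e j * FF2 d e m) := by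
      rw [Ub_eq' h hd j (by omega), ← mul_assoc (Nb e (j+1)), Nb_slide h (j+1) hj, mul_assoc,
        ← mul_assoc (fb d e (j+1+1)), fb_Nb_comm h (j+1+1) j (by omega) (by omega) (by omega) (by omega),
        mul_assoc, fb_FF2 h hd _ (by omega)]
    set y := Nb e (j+1) * (Nb e j * FF2 d e m) with hy
    have hyf : ∀ k, k < m → k ≠ j → k ≠ j + 1 → k ≠ j + 2 → fb d e k * y = y := by
      intro k hk h1 h2 h3
      rw [hy, ← mul_assoc, fb_Nb_comm h k (j+1) hk hj h2 h3, mul_assoc, ← mul_assoc (fb d e k),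
        fb_Nb_comm h k j hk (by omega) h1 h2, mul_assoc, fb_FF2 h hd k hk]
    have hy2 : fb d e (j+2) * y = fb d e (j+1) * y := by
      rw [hy, ← mul_assoc, ← slide_Nb h (j+1) hj, mul_assoc]
    have hz : FF2 d e m * y = fb d e j * (fb d e (j+1) * y) := by
      have e2 : FF2 d e m * y = FF2 d e m * (fb d e j * (fb d e (j+1) * y)) := by
        rw [← mul_assoc (FF2 d e m) (fb d e j), FF2_fb h hd j (by omega),
          ← mul_assoc (FF2 d e m) (fb d e (j+1)), FF2_fb h hd (j+1) (by omega)]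
      rw [e2]
      refine QP_fix m _ (fun k hk => ?_)
      by_cases h1 : k = j
      · subst h1
        rw [← mul_assoc, fb_sq h hd k hk]
      by_cases h2 : k = j + 1
      · subst h2
        rw [← mul_assoc, fb_comm h _ _ hk (by omega), mul_assoc, ← mul_assoc (fb d e (j+1)),
          fb_sq h hd _ hk]
      rw [← mul_assoc, fb_comm h _ _ hk (by omega), mul_assoc, ← mul_assoc (fb d e k),
        fb_comm h k (j+1) hk (by omega), mul_assoc]
      by_cases h3 : k = j + 2
      · subst h3
        rw [hy2, ← mul_assoc (fb d e (j+1)), fb_sq h hd _ (by omega)]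
      · rw [hyf k hk h1 h2 h3]
    have s2 : Nb e j * (FF2 d e m * y) = fb d e (j+2) * (Nb e j * y) := by
      rw [hz, ← mul_assoc, Nb_slide h j (by omega), mul_assoc, ← mul_assoc (fb d e (j+1)),
        fb_sq h hd _ (by omega), ← hy2, ← mul_assoc, ← fb_Nb_comm h (j+2) j (by omega) (by omega)
        (by omega) (by omega), mul_assoc]
    have e3 : Ub d e m j * Ub d e m (j+1) * Ub d e m j =
        FF2 d e m * (Nb e j * (FF2 d e m * (Nb e (j+1) * (FF2 d e m * Ub d e m j)))) := by
      have e4 : Ub d e m j * Ub d e m (j+1) * Ub d e m j = (FF2 d e m * (Nb e j * FF2 d e m)) *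
        (FF2 d e m * (Nb e (j+1) * FF2 d e m)) * Ub d e m j := rfl
      rw [e4]
      simp only [mul_assoc]
      rw [FF2_sq' h hd]
    rw [e3, FF2_Ub h hd, s1, s2, ← mul_assoc (FF2 d e m), FF2_fb h hd _ (by omega), hy, ← mul_assoc (Nb e (j+1)),
      ← mul_assoc (Nb e j), hN]
    rfl
  down j hj := by
    have t := t4_of h (2 * j) (by omega)
    have t' := t4_of h (2 * (j + 1)) (by omega)
    have hN : Nb e (j+1) * (Nb e j * Nb e (j+1)) = Nb e (j+1) := by
      have := NNN t'.symm t.symm (e_comm h _ _ (by omega) (by omega) (by omega))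
        (e_comm h _ _ (by omega) (by omega) (by omega)) (e_comm h _ _ (by omega) (by omega) (by omega))
      have s1 : NN (e (2 * (j+1) + 2)) (e (2 * (j+1) + 1)) (e (2 * (j+1))) = Nb e (j+1) := by
        unfold Nb NN
        rw [← mul_assoc (e (2 * (j+1) + 2)), e_comm h (2 * (j+1) + 2) (2 * (j+1)) (by omega) (by omega)
          (by omega), mul_assoc]
      have s2 : NN (e (2 * j + 2)) (e (2 * j + 1)) (e (2 * j)) = Nb e j := by
        unfold Nb NN
        rw [← mul_assoc (e (2 * j + 2)), e_comm h (2 * j + 2) (2 * j) (by omega) (by omega)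
          (by omega), mul_assoc]
      have s3 : e (2 * (j + 1)) = e (2 * j + 2) := rfl
      rw [s3] at s1 this
      rw [s1, s2] at this
      exact this
    have s1 : Nb e j * Ub d e m (j+1) = Nb e j * (Nb e (j+1) * FF2 d e m) := by
      rw [Ub_eq h hd (j+1) (by omega), ← mul_assoc (Nb e j), ← Nb_slide h j (by omega), mul_assoc,
        ← mul_assoc (fb d e j), fb_Nb_comm h j (j+1) (by omega) (by omega) (by omega) (by omega),
        mul_assoc, fb_FF2 h hd _ (by omega)]
    set y := Nb e j * (Nb e (j+1) * FF2 d e m) with hy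
    have hyf : ∀ k, k < m → k ≠ j → k ≠ j + 1 → k ≠ j + 2 → fb d e k * y = y := by
      intro k hk h1 h2 h3
      rw [hy, ← mul_assoc, fb_Nb_comm h k j hk (by omega) h1 h2, mul_assoc, ← mul_assoc (fb d e k),
        fb_Nb_comm h k (j+1) hk (by omega) h2 h3, mul_assoc, fb_FF2 h hd k hk]
    have hy2 : fb d e (j+1) * y = fb d e j * y := by
      rw [hy, ← mul_assoc, ← slide_Nb h j (by omega), mul_assoc]
    have hz : FF2 d e m * y = fb d e (j+2) * (fb d e (j+1) * y) := by
      have e2 : FF2 d e m * y = FF2 d e m * (fb d e (j+2) * (fb d e (j+1) * y)) := by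
        rw [← mul_assoc (FF2 d e m) (fb d e (j+2)), FF2_fb h hd (j+2) (by omega),
          ← mul_assoc (FF2 d e m) (fb d e (j+1)), FF2_fb h hd (j+1) (by omega)]
      rw [e2]
      refine QP_fix m _ (fun k hk => ?_)
      by_cases h3 : k = j + 2
      · subst h3
        rw [← mul_assoc, fb_sq h hd _ hk]
      by_cases h2 : k = j + 1
      · subst h2
        rw [← mul_assoc, fb_comm h _ _ hk (by omega), mul_assoc, ← mul_assoc (fb d e (j+1)),
          fb_sq h hd _ hk]
      rw [← mul_assoc, fb_comm h _ _ hk (by omega), mul_assoc, ← mul_assoc (fb d e k),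
        fb_comm h k (j+1) hk (by omega), mul_assoc]
      by_cases h1 : k = j
      · subst h1
        rw [← hy2, ← mul_assoc (fb d e (k+1)), fb_sq h hd _ (by omega)]
      · rw [hyf k hk h1 h2 h3]
    have s2 : Nb e (j+1) * (FF2 d e m * y) = fb d e j * (Nb e (j+1) * y) := by
      rw [hz, ← mul_assoc, ← Nb_slide h (j+1) (by omega), mul_assoc, ← mul_assoc (fb d e (j+1)),
        fb_sq h hd _ (by omega), hy2, ← mul_assoc, ← fb_Nb_comm h j (j+1) (by omega) (by omega)
        (by omega) (by omega), mul_assoc]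
    have e3 : Ub d e m (j+1) * Ub d e m j * Ub d e m (j+1) =
        FF2 d e m * (Nb e (j+1) * (FF2 d e m * (Nb e j * (FF2 d e m * Ub d e m (j+1))))) := by
      have e4 : Ub d e m (j+1) * Ub d e m j * Ub d e m (j+1) = (FF2 d e m * (Nb e (j+1) * FF2 d e m)) *
        (FF2 d e m * (Nb e j * FF2 d e m)) * Ub d e m (j+1) := rfl
      rw [e4]
      simp only [mul_assoc]
      rw [FF2_sq' h hd]
    rw [e3, FF2_Ub h hd, s1, s2, ← mul_assoc (FF2 d e m), FF2_fb h hd _ (by omega), hy, ← mul_assoc (Nb e j),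
      ← mul_assoc (Nb e (j+1)), hN]
    rfl
  far i j hj hij := by
    have c : Nb e i * Nb e j = Nb e j * Nb e i := by
      have c1 : ∀ k, 2 * j ≤ k → k ≤ 2 * j + 2 → Commute (Nb e i) (e k) := by
        intro k h1 h2
        have c2 : ∀ l, 2 * i ≤ l → l ≤ 2 * i + 2 → Commute (e l) (e k) := fun l h3 h4 =>
          e_comm h l k (by omega) (by omega) (by omega)
        unfold Nb NN
        exact (c2 _ (by omega) (by omega)).mul_left ((c2 _ (by omega) (by omega)).mul_left
          ((c2 _ (by omega) (by omega)).mul_left (c2 _ (by omega) (by omega))))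
      have : Commute (Nb e i) (Nb e j) := by
        have e1 : Nb e j = e (2 * j + 1) * (e (2 * j) * (e (2 * j + 2) * e (2 * j + 1))) := rfl
        rw [e1]
        exact (c1 _ (by omega) (by omega)).mul_right ((c1 _ (by omega) (by omega)).mul_right
          ((c1 _ (by omega) (by omega)).mul_right (c1 _ (by omega) (by omega))))
      exact this
    have s1 : Ub d e m i * Ub d e m j = FF2 d e m * (Nb e i * (Nb e j * FF2 d e m)) := by
      have e4 : Ub d e m i * Ub d e m j = (FF2 d e m * (Nb e i * FF2 d e m)) * Ub d e m j := rfl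
      rw [e4]
      simp only [mul_assoc]
      rw [FF2_Ub h hd, Ub_eq h hd j hj, ← mul_assoc (Nb e i), ← fb_Nb_comm h j i (by omega) (by omega)
        (by omega) (by omega), mul_assoc, ← mul_assoc (FF2 d e m), FF2_fb h hd _ (by omega)]
    have s2 : Ub d e m j * Ub d e m i = FF2 d e m * (Nb e j * (Nb e i * FF2 d e m)) := by
      have e4 : Ub d e m j * Ub d e m i = (FF2 d e m * (Nb e j * FF2 d e m)) * Ub d e m i := rfl
      rw [e4]
      simp only [mul_assoc]
      rw [FF2_Ub h hd, Ub_eq h hd i (by omega), ← mul_assoc (Nb e j), ← fb_Nb_comm h i j (by omega) (by omega)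
        (by omega) (by omega), mul_assoc, ← mul_assoc (FF2 d e m), FF2_fb h hd _ (by omega)]
    rw [s1, s2, ← mul_assoc (Nb e i), c, mul_assoc]

end cab

end Pool.Agent.V8H83.WD
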