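import Pool.Agent.V8H83.WD.Clo

/-!
# The clasp
-/

set_option autoImplicit false

namespace Pool.Agent.V8H83.WD

open Pool.Agent.H891R2.Jones Pool.Agent.W639.RB Pool.Agent.TH561 Pool.Agent.N569.TW Finset LaurentPolynomial

/-- The pattern of the Whitehead double: the two strands of the box are connected outside of the box by a
clasp with two crossings.  Marked points: `a 0`, `a 1` are the upper and `b 0`, `b 1` the lower ends of the
two strands of the box; the arc of the clasp which joins `a 0` with `a 1` has the marked point `p`, the arc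
which joins `b 0` with `b 1` has the marked point `q`.  The crossings of the clasp are positive for
`ε = true` and negative for `ε = false`. -/
def clasp (ε : Bool) : Outer 2 where
  P := Fin 2 ⊕ Fin 2 ⊕ Fin 2
  arcs := []
  crossings :=
    let a : Fin 2 → Fin 2 ⊕ Fin 2 ⊕ Fin 2 := fun j => .inr (.inl j)
    let b : Fin 2 → Fin 2 ⊕ Fin 2 ⊕ Fin 2 := fun j => .inl j
    let p : Fin 2 ⊕ Fin 2 ⊕ Fin 2 := .inr (.inr 0)
    let q : Fin 2 ⊕ Fin 2 ⊕ Fin 2 := .inr (.inr 1)
    if ε then [⟨q, p, b 0, a 0, true, false⟩, ⟨a 1, b 1, p, q, false, true⟩]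
    else [⟨a 0, q, p, b 0, true, true⟩, ⟨q, a 1, b 1, p, false, false⟩]
  lower := fun j => .inl j
  upper := fun j => .inr (.inl j)
  up := fun j => j = 0

section clasp

variable {N : ℕ}

/-- the sum over the colourings of six marked points -/
theorem sum_six (F : (Fin 2 ⊕ Fin 2 ⊕ Fin 2 → Fin N) → ℂ) :
    ∑ col, F col = ∑ x : Fin 2 → Fin N, ∑ y : Fin 2 → Fin N, ∑ s : Fin N, ∑ t : Fin N,
      F (Sum.elim x (Sum.elim y ![s, t])) := by
  rw [← Equiv.sum_comp (Equiv.sumArrowEquivProdArrow (Fin 2) (Fin 2 ⊕ Fin 2) (Fin N)).symm,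
    Fintype.sum_prod_type]
  refine Finset.sum_congr rfl fun x _ => ?_
  rw [← Equiv.sum_comp (Equiv.sumArrowEquivProdArrow (Fin 2) (Fin 2) (Fin N)).symm,
    Fintype.sum_prod_type]
  refine Finset.sum_congr rfl fun y _ => ?_
  rw [← Equiv.sum_comp (finTwoArrowEquiv (Fin N)).symm, Fintype.sum_prod_type]
  rfl

theorem sum_ind {N : ℕ} (c : Fin N) (f : Fin N → ℂ) : ∑ s, ind (s = c) * f s = f c := by
  rw [Finset.sum_eq_single c]
  · rw [ind_pos rfl, one_mul]
  · intro s _ hs
    rw [ind_neg hs, zero_mul]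
  · intro h; exact absurd (Finset.mem_univ _) h

theorem ind_and (p q : Prop) : ind (p ∧ q) = ind p * ind q := ind_mul.symm

theorem ind_sq (p : Prop) : ind p * ind p = ind p := by
  rw [ind_mul]
  exact ind_congr (and_self_iff)

/-- the inner sum of the clasp -/
theorem clasp_sum (A B : ℂ) (a0 a1 b0 b1 : Fin N) :
    ∑ p : Fin N, ∑ q : Fin N, (A * ind (q = p ∧ b0 = a0) + B * ind (p = b0 ∧ a0 = q)) *
      (A * ind (a1 = b1 ∧ p = q) + B * ind (b1 = p ∧ q = a1)) =
      (N * A ^ 2 + 2 * A * B) * (ind (b0 = a0) * ind (b1 = a1)) + B ^ 2 * (ind (b0 = b1) * ind (a0 = a1)) := by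
  have h : ∀ p q : Fin N, (A * ind (q = p ∧ b0 = a0) + B * ind (p = b0 ∧ a0 = q)) *
      (A * ind (a1 = b1 ∧ p = q) + B * ind (b1 = p ∧ q = a1)) =
      A ^ 2 * (ind (b0 = a0) * ind (b1 = a1)) * ind (q = p) +
      A * B * ind (b0 = a0) * (ind (q = p) * ind (p = b1) * ind (p = a1)) +
      A * B * ind (b1 = a1) * (ind (q = p) * ind (p = b0) * ind (p = a0)) +
      B ^ 2 * (ind (q = a1) * (ind (q = a0)) * (ind (p = b0) * ind (p = b1))) := by
    intro p q
    have e1 : ind (a1 = b1) = ind (b1 = a1) := ind_congr eq_comm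
    have e2 : ind (p = q) = ind (q = p) := ind_congr eq_comm
    have e3 : ind (b1 = p) = ind (p = b1) := ind_congr eq_comm
    have e4 : ind (a0 = q) = ind (q = a0) := ind_congr eq_comm
    simp only [ind_and, e1, e2, e3, e4]
    by_cases hqp : q = p
    · subst hqp
      rw [ind_pos rfl]
      ring_nf
    · rw [ind_neg hqp]
      ring_nf
  simp only [h, Finset.sum_add_distrib, ← Finset.mul_sum]
  have s1 : ∀ p : Fin N, ∑ q : Fin N, ind (q = p) = 1 := by
    intro p
    have := sum_ind p (fun _ => 1)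
    simpa using this
  have s2 : ∀ c c' : Fin N, ∑ p : Fin N, ∑ q : Fin N, ind (q = p) * ind (p = c) * ind (p = c') =
      ind (c = c') := by
    intro c c'
    have : ∀ p : Fin N, ∑ q : Fin N, ind (q = p) * ind (p = c) * ind (p = c') = ind (p = c) * ind (p = c') := by
      intro p
      rw [← Finset.sum_mul, ← Finset.sum_mul, s1, one_mul]
    rw [Finset.sum_congr rfl (fun p _ => this p), sum_ind c (fun p => ind (p = c'))]
  have s3 : ∑ p : Fin N, ∑ q : Fin N, ind (q = a1) * ind (q = a0) * (ind (p = b0) * ind (p = b1)) =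
      ind (b0 = b1) * ind (a0 = a1) := by
    have : ∀ p : Fin N, ∑ q : Fin N, ind (q = a1) * ind (q = a0) * (ind (p = b0) * ind (p = b1)) =
        ind (a1 = a0) * (ind (p = b0) * ind (p = b1)) := by
      intro p
      rw [← Finset.sum_mul, sum_ind a1 (fun q => ind (q = a0))]
    rw [Finset.sum_congr rfl (fun p _ => this p), ← Finset.mul_sum, sum_ind b0 (fun p => ind (p = b1))]
    rw [mul_comm, show ind (a1 = a0) = ind (a0 = a1) from ind_congr eq_comm]
  rw [s3, s2, s2, Finset.sum_congr rfl (fun p _ => s1 p), Finset.sum_const, Finset.card_univ, Fintype.card_fin,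
    nsmul_eq_mul, mul_one]
  have e5 : ind (b0 = a0) * ind (b1 = a1) = ind (b0 = a0) * ind (b1 = a1) := rfl
  ring

theorem ww_clasp (A : ℂ) (ε : Bool) (x y : Fin 2 → Fin N) (s t : Fin N) :
    WW A (clasp ε).arcs (clasp ε).crossings (Sum.elim x (Sum.elim y ![s, t])) =
      ((if ε then A else A⁻¹) * ind (t = s ∧ x 0 = y 0) + (if ε then A⁻¹ else A) * ind (s = x 0 ∧ y 0 = t)) *
      ((if ε then A else A⁻¹) * ind (y 1 = x 1 ∧ s = t) + (if ε then A⁻¹ else A) * ind (x 1 = s ∧ t = y 1)) := by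
  cases ε
  · have e1 : WW A (clasp false).arcs (clasp false).crossings (Sum.elim x (Sum.elim y ![s, t])) =
      1 * ((A * ind (y 0 = t ∧ s = x 0) + A⁻¹ * ind (t = s ∧ x 0 = y 0)) *
        ((A * ind (t = y 1 ∧ x 1 = s) + A⁻¹ * ind (y 1 = x 1 ∧ s = t)) * 1)) := rfl
    rw [e1, one_mul, mul_one, show ind (y 0 = t ∧ s = x 0) = ind (s = x 0 ∧ y 0 = t) from ind_congr and_comm,
      show ind (t = y 1 ∧ x 1 = s) = ind (x 1 = s ∧ t = y 1) from ind_congr and_comm]
    simp only [Bool.false_eq_true, if_false]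
    ring
  · have e1 : WW A (clasp true).arcs (clasp true).crossings (Sum.elim x (Sum.elim y ![s, t])) =
      1 * ((A * ind (t = s ∧ x 0 = y 0) + A⁻¹ * ind (s = x 0 ∧ y 0 = t)) *
        ((A * ind (y 1 = x 1 ∧ s = t) + A⁻¹ * ind (x 1 = s ∧ t = y 1)) * 1)) := rfl
    rw [e1, one_mul, mul_one]
    simp only [if_true]

theorem Zg_clasp (A : ℂ) (hA : A ≠ 0) (ε : Bool) (g : (Fin 2 → Fin N) → ((Fin 2 → Fin N) → ℂ)) :
    Zg A N (clasp ε) g = ∑ x : Fin 2 → Fin N, ∑ y : Fin 2 → Fin N,
      ((N * (if ε then A else A⁻¹) ^ 2 + 2) * (ind (x 0 = y 0) * ind (x 1 = y 1)) +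
        (if ε then A⁻¹ else A) ^ 2 * (ind (x 0 = x 1) * ind (y 0 = y 1))) * g x y := by
  unfold Zg
  refine (sum_six (fun col => WW A (clasp ε).arcs (clasp ε).crossings col *
    g (col ∘ (clasp ε).lower) (col ∘ (clasp ε).upper))).trans ?_
  refine Finset.sum_congr rfl fun x _ => Finset.sum_congr rfl fun y _ => ?_
  have h1 : ∀ s t : Fin N, WW A (clasp ε).arcs (clasp ε).crossings (Sum.elim x (Sum.elim y ![s, t])) *
      g ((Sum.elim x (Sum.elim y ![s, t])) ∘ (clasp ε).lower) ((Sum.elim x (Sum.elim y ![s, t])) ∘ (clasp ε).upper) =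
      (((if ε then A else A⁻¹) * ind (t = s ∧ x 0 = y 0) + (if ε then A⁻¹ else A) * ind (s = x 0 ∧ y 0 = t)) *
      ((if ε then A else A⁻¹) * ind (y 1 = x 1 ∧ s = t) + (if ε then A⁻¹ else A) * ind (x 1 = s ∧ t = y 1))) *
      g x y := by
    intro s t
    rw [ww_clasp A]
    rfl
  rw [Finset.sum_congr rfl (fun s _ => Finset.sum_congr rfl (fun t _ => h1 s t))]
  simp only [← Finset.sum_mul]
  congr 1
  have h2 := clasp_sum (N := N) (if ε then A else A⁻¹) (if ε then A⁻¹ else A) (y 0) (y 1) (x 0) (x 1)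
  rw [h2]
  have h3 : (if ε then A else A⁻¹) * (if ε then A⁻¹ else A) = 1 := by
    cases ε
    · simp [hA]
    · simp [hA]
  rw [mul_assoc 2, h3, mul_one]

theorem sum_eq_ind (f : (Fin 2 → Fin N) → (Fin 2 → Fin N) → ℂ) :
    ∑ x : Fin 2 → Fin N, ∑ y : Fin 2 → Fin N, ind (x 0 = y 0) * ind (x 1 = y 1) * f x y =
      ∑ x : Fin 2 → Fin N, f x x := by
  refine Finset.sum_congr rfl fun x _ => ?_
  rw [Finset.sum_eq_single x]
  · rw [ind_pos rfl, ind_pos rfl, one_mul, one_mul]
  · intro y _ hy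
    rw [ind_mul, ind_neg, zero_mul]
    rintro ⟨h1, h2⟩
    apply hy
    funext j
    fin_cases j
    · exact h1.symm
    · exact h2.symm
  · intro h; exact absurd (Finset.mem_univ _) h

theorem sum_const_ind : ∑ x : Fin 2 → Fin N, ind (x 0 = x 1) = (N : ℂ) := by
  rw [← Equiv.sum_comp (finTwoArrowEquiv (Fin N)).symm, Fintype.sum_prod_type]
  have : ∀ s : Fin N, ∑ t : Fin N, ind (((finTwoArrowEquiv (Fin N)).symm (s, t)) 0 =
      ((finTwoArrowEquiv (Fin N)).symm (s, t)) 1) = 1 := by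
    intro s
    have h := sum_ind s (fun _ => (1 : ℂ))
    simp only [mul_one] at h
    rw [← h]
    refine Finset.sum_congr rfl fun t _ => ?_
    show ind (s = t) = ind (t = s)
    exact ind_congr eq_comm
  rw [Finset.sum_congr rfl (fun s _ => this s), Finset.sum_const, Finset.card_univ, Fintype.card_fin,
    nsmul_eq_mul, mul_one]

theorem KK2 (x y : Fin 2 → Fin N) : KK 2 N 0 x y = ind (x 0 = x 1) * ind (y 0 = y 1) := by
  rw [KK_apply 0 (by norm_num)]
  have e0 : (⟨0, by norm_num⟩ : Fin 2) = 0 := rfl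
  have e1 : (⟨0 + 1, by norm_num⟩ : Fin 2) = 1 := rfl
  rw [e0, e1]
  by_cases hx : x 0 = x 1
  · rw [if_pos hx, ind_pos hx, one_mul]
    have h1 : ∀ c : Fin N, ind (upd x 0 1 c = y) = ind (c = y 0) * ind (c = y 1) := by
      intro c
      rw [ind_mul]
      apply ind_congr
      constructor
      · rintro rfl
        simp [upd]
      · rintro ⟨h1, h2⟩
        funext j
        fin_cases j
        · simpa [upd] using h1
        · simpa [upd] using h2
    rw [Finset.sum_congr rfl (fun c _ => h1 c), sum_ind (y 0) (fun c => ind (c = y 1))]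
  · rw [if_neg hx, ind_neg hx, zero_mul]

theorem ZM_clasp (A : ℂ) (hA : A ≠ 0) (ε : Bool) (Y : Matrix (Fin 2 → Fin N) (Fin 2 → Fin N) ℂ) :
    ZM A N (clasp ε) Y = (N * (if ε then A else A⁻¹) ^ 2 + 2) * Matrix.trace Y +
      (if ε then A⁻¹ else A) ^ 2 * Matrix.trace (Y * KK 2 N 0) := by
  have h : ZM A N (clasp ε) Y = Zg A N (clasp ε) (fun x y => Y x y) := rfl
  rw [h, Zg_clasp A hA]
  generalize (N * (if ε then A else A⁻¹) ^ 2 + 2 : ℂ) = c1
  generalize (if ε then A⁻¹ else A) ^ 2 = c2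
  have e : ∀ x y : Fin 2 → Fin N, (c1 * (ind (x 0 = y 0) * ind (x 1 = y 1)) +
      c2 * (ind (x 0 = x 1) * ind (y 0 = y 1))) * Y x y =
      c1 * (ind (x 0 = y 0) * ind (x 1 = y 1) * Y x y) + c2 * (Y x y * (ind (y 0 = y 1) * ind (x 0 = x 1))) := by
    intro x y
    ring
  rw [Finset.sum_congr rfl (fun x _ => Finset.sum_congr rfl (fun y _ => e x y))]
  simp only [Finset.sum_add_distrib, ← Finset.mul_sum]
  rw [sum_eq_ind (fun x y => Y x y)]
  unfold Matrix.trace
  simp only [Matrix.diag_apply, Matrix.mul_apply, KK2]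

theorem trace_one2 : Matrix.trace (1 : Matrix (Fin 2 → Fin N) (Fin 2 → Fin N) ℂ) = (N : ℂ) ^ 2 := by
  rw [Matrix.trace_one, Fintype.card_fun, Fintype.card_fin, Fintype.card_fin]
  push_cast
  rfl

theorem trace_KK2 : Matrix.trace (KK 2 N 0) = (N : ℂ) := by
  unfold Matrix.trace
  simp only [Matrix.diag_apply, KK2]
  rw [← sum_const_ind]
  refine Finset.sum_congr rfl fun x _ => ind_sq _

/-- the bracket of the closure of the clasp -/
theorem clasp_bracket (ε : Bool) :
    (clasp ε).close.bracket = LaurentPolynomial.T (if ε then 6 else -6) := by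
  apply eq_of_ev
  intro N hN
  have hA := Ar_ne N hN
  have hN' : (N : ℂ) ≠ 0 := by
    have : N ≠ 0 := by omega
    exact_mod_cast this
  have hd := Ar_d N hN
  apply mul_left_cancel₀ hN'
  rw [ev_close (by norm_num) (clasp ε) N hN, ZM_clasp _ hA, one_mul, trace_one2, trace_KK2, ev_T]
  generalize Ar N = A at hA hd ⊢
  cases ε
  · simp only [Bool.false_eq_true, if_false]
    rw [show A ^ (-6 : ℤ) = (A⁻¹) ^ 6 by rw [zpow_neg, inv_pow]; norm_cast]
    rw [hd]
    field_simp
    ring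
  · simp only [if_true]
    rw [show A ^ (6 : ℤ) = A ^ 6 by norm_cast]
    rw [hd]
    field_simp
    ring

/-- the bracket of the clasp with a cup and a cap in the box -/
theorem clasp_cut (ε : Bool) :
    cutBr (clasp ε) = -LaurentPolynomial.T 4 - LaurentPolynomial.T (-4) := by
  apply eq_of_ev
  intro N hN
  have hA := Ar_ne N hN
  have hN' : (N : ℂ) ≠ 0 := by
    have : N ≠ 0 := by omega
    exact_mod_cast this
  have hd := Ar_d N hN
  apply mul_left_cancel₀ hN'
  have hsq : KK 2 N 0 * KK 2 N 0 = (N : ℂ) • KK 2 N 0 := (isTL_KK 2 N).sq 0 (by norm_num)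
  rw [ev_cutBr, ZM_clasp _ hA, hsq, Matrix.trace_smul, trace_KK2, smul_eq_mul, map_sub, map_neg, ev_T, ev_T]
  generalize Ar N = A at hA hd ⊢
  have e1 : A ^ (4 : ℤ) = A ^ 4 := by norm_cast
  have e2 : A ^ (-4 : ℤ) = (A⁻¹) ^ 4 := by rw [zpow_neg, inv_pow]; norm_cast
  rw [e1, e2]
  cases ε
  · simp only [Bool.false_eq_true, if_false]
    rw [hd]
    field_simp
    ring
  · simp only [if_true]
    rw [hd]
    field_simp
    ring

theorem clasp_writhe (ε : Bool) : (clasp ε).close.writhe = if ε then 2 else -2 := by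
  cases ε <;> rfl

theorem clasp_closed (ε : Bool) : (clasp ε).close.IsClosed := by
  intro p
  revert p
  cases ε
  · unfold Diagram.starts Diagram.ends
    decide
  · unfold Diagram.starts Diagram.ends
    decide

end clasp

end Pool.Agent.V8H83.WD
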