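import Pool.Agent.V8H83.WD.Brk

/-!
# The diagrams are closed; their writhe
-/

set_option autoImplicit false

namespace Pool.Agent.V8H83.WD

open Pool.Agent.H891R2.Jones Pool.Agent.W639.RB Pool.Agent.TH561 Finset

/-- full twists on the strands `0` and `1` which make the framing of the 2-cable zero -/
def twl (w : List (Bool × ℕ)) : List (Bool × ℕ) := tws (decide (expo w < 0)) (2 * (expo w).natAbs)

/-- the 2-cable of a braid word with framing zero -/
def dbl (w : List (Bool × ℕ)) : List (Bool × ℕ) := cab w ++ twl w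

section clo

variable {m : ℕ}

theorem cab_mem (w : List (Bool × ℕ)) (hw : ∀ x ∈ w, x.2 + 1 < m) : ∀ x ∈ cab w, x.2 + 1 < 2 * m := by
  intro x hx
  unfold cab at hx
  rw [List.mem_flatMap] at hx
  obtain ⟨y, hy, hx⟩ := hx
  have := hw y hy
  unfold cabL at hx
  simp only [List.mem_cons, List.not_mem_nil, or_false] at hx
  rcases hx with rfl | rfl | rfl | rfl <;> simp only <;> omega

theorem tws_mem (hm : 0 < m) (b : Bool) (n : ℕ) : ∀ x ∈ tws b n, x.2 + 1 < 2 * m := by
  intro x hx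
  have := List.eq_of_mem_replicate hx
  subst this
  show 0 + 1 < 2 * m
  omega

theorem dbl_mem (hm : 0 < m) (w : List (Bool × ℕ)) (hw : ∀ x ∈ w, x.2 + 1 < m) :
    ∀ x ∈ dbl w, x.2 + 1 < 2 * m := by
  intro x hx
  rcases List.mem_append.1 hx with h | h
  · exact cab_mem w hw x h
  · exact tws_mem hm _ _ x h

theorem draw_append {M : ℕ} (O : Outer M) (W W' : List (Bool × ℕ)) : draw O (W ++ W') = draw (draw O W) W' := by
  simp [draw]

theorem draw_cons {M : ℕ} (O : Outer M) (x : Bool × ℕ) (W : List (Bool × ℕ)) :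
    draw O (x :: W) = draw (O.push x.1 x.2) W := rfl

theorem sgn_if (x : Bool × ℕ) : (if x.1 then (1 : ℤ) else -1) = sgn x := rfl

theorem sw_l (k : ℕ) : Equiv.swap k (k+1) k = k + 1 := Equiv.swap_apply_left _ _

theorem sw_r (k : ℕ) : Equiv.swap k (k+1) (k+1) = k := Equiv.swap_apply_right _ _

theorem sw_o (k j : ℕ) (h1 : j ≠ k) (h2 : j ≠ k + 1) : Equiv.swap k (k+1) j = j :=
  Equiv.swap_apply_of_ne_of_ne h1 h2

/-- the four transpositions of a doubled crossing -/
theorem sw_all (k : ℕ) :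
    (Equiv.swap (k+1) (k+1+1) k = k ∧ Equiv.swap (k+1) (k+1+1) (k+1) = k+2 ∧
      Equiv.swap (k+1) (k+1+1) (k+2) = k+1 ∧ Equiv.swap (k+1) (k+1+1) (k+3) = k+3) ∧
    (Equiv.swap k (k+1) k = k+1 ∧ Equiv.swap k (k+1) (k+1) = k ∧
      Equiv.swap k (k+1) (k+2) = k+2 ∧ Equiv.swap k (k+1) (k+3) = k+3) ∧
    (Equiv.swap (k+2) (k+2+1) k = k ∧ Equiv.swap (k+2) (k+2+1) (k+1) = k+1 ∧
      Equiv.swap (k+2) (k+2+1) (k+2) = k+3 ∧ Equiv.swap (k+2) (k+2+1) (k+3) = k+2) :=
  ⟨⟨sw_o _ _ (by omega) (by omega), sw_l _, sw_r (k+1), sw_o _ _ (by omega) (by omega)⟩,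
    ⟨sw_l _, sw_r _, sw_o _ _ (by omega) (by omega), sw_o _ _ (by omega) (by omega)⟩,
    ⟨sw_o _ _ (by omega) (by omega), sw_o _ _ (by omega) (by omega), sw_l (k+2), sw_r (k+2)⟩⟩

theorem pat_cab (U : ℕ → ℤ) (k : ℕ) (h0 : U k = U (k+2)) (h1 : U (k+1) = U (k+3)) :
    (((U ∘ Equiv.swap (k+1) (k+1+1)) ∘ Equiv.swap k (k+1)) ∘ Equiv.swap (k+2) (k+2+1)) ∘
      Equiv.swap (k+1) (k+1+1) = U := by
  obtain ⟨⟨a0, a1, a2, a3⟩, ⟨b0, b1, b2, b3⟩, ⟨c0, c1, c2, c3⟩⟩ := sw_all k
  funext j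
  simp only [Function.comp_apply]
  by_cases j0 : j = k
  · subst j0; rw [a0, c0, b0, a1, h0]
  by_cases j1 : j = k + 1
  · subst j1; rw [a1, c2, b3, a3, h1]
  by_cases j2 : j = k + 2
  · subst j2; rw [a2, c1, b1, a0, h0]
  by_cases j3 : j = k + 3
  · subst j3; rw [a3, c3, b2, a2, h1]
  rw [sw_o (k+1) j (by omega) (by omega), sw_o (k+2) j (by omega) (by omega), sw_o k j (by omega) (by omega),
    sw_o (k+1) j (by omega) (by omega)]

theorem draw_cabL (O : Outer (2 * m)) (x : Bool × ℕ) (hx : x.2 + 1 < m) (p0 p1 : ℤ) (h0 : p0 * p0 = 1)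
    (h1 : p1 * p1 = 1) (hU : ∀ i, i < m → pat O.up (2 * i) = p0 ∧ pat O.up (2 * i + 1) = p1) :
    owr (draw O (cabL x)) = owr O + sgn x * (2 + 2 * (p0 * p1)) ∧ pat (draw O (cabL x)).up = pat O.up := by
  obtain ⟨b, i⟩ := x
  simp only at hx
  obtain ⟨u0, u1⟩ := hU i (by omega)
  obtain ⟨u2, u3⟩ := hU (i + 1) hx
  have e2 : 2 * (i + 1) = 2 * i + 2 := by ring
  rw [e2] at u2 u3
  have hi : 2 * i + 3 < 2 * m := by omega
  unfold cabL
  simp only
  generalize 2 * i = k at *
  have u3' : pat O.up (k + 3) = p1 := u3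
  obtain ⟨a1, b1⟩ := push_writhe O b (k + 1) (by omega)
  obtain ⟨a2, b2⟩ := push_writhe (O.push b (k + 1)) b k (by omega)
  obtain ⟨a3, b3⟩ := push_writhe ((O.push b (k + 1)).push b k) b (k + 2) (by omega)
  obtain ⟨a4, b4⟩ := push_writhe (((O.push b (k + 1)).push b k).push b (k + 2)) b (k + 1) (by omega)
  show owr ((((O.push b (k + 1)).push b k).push b (k + 2)).push b (k + 1)) = _ ∧
    pat ((((O.push b (k + 1)).push b k).push b (k + 2)).push b (k + 1)).up = _
  rw [a4, b4, a3, b3, a2, b2, a1, b1]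
  constructor
  · obtain ⟨⟨c0, c1, c2, c3⟩, ⟨d0, d1, d2, d3⟩, ⟨f0, f1, f2, f3⟩⟩ := sw_all k
    have g1 : k + 1 + 1 = k + 2 := rfl
    have g2 : k + 2 + 1 = k + 3 := rfl
    rw [g1] at c0 c1 c2 c3
    rw [g2] at f0 f1 f2 f3
    simp only [Function.comp_apply, g1, g2, c0, c1, c2, c3, d1, d2, d3, f1, f2, u0, u1, u2, u3']
    cases b <;> simp only [sgn, if_true, Bool.false_eq_true, if_false, h0, h1] <;> ring
  · exact pat_cab _ _ (by rw [u0, u2]) (by rw [u1, u3'])

theorem draw_cab (w : List (Bool × ℕ)) (p0 p1 : ℤ) (h0 : p0 * p0 = 1) (h1 : p1 * p1 = 1) :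
    ∀ O : Outer (2 * m), (∀ x ∈ w, x.2 + 1 < m) →
    (∀ i, i < m → pat O.up (2 * i) = p0 ∧ pat O.up (2 * i + 1) = p1) →
    owr (draw O (cab w)) = owr O + expo w * (2 + 2 * (p0 * p1)) ∧ pat (draw O (cab w)).up = pat O.up := by
  induction w with
  | nil => intro O _ _; simp [cab, draw, expo]
  | cons x w ih =>
    intro O hw hU
    have e1 : cab (x :: w) = cabL x ++ cab w := rfl
    obtain ⟨a1, b1⟩ := draw_cabL O x (hw x List.mem_cons_self) p0 p1 h0 h1 hU
    obtain ⟨a2, b2⟩ := ih (draw O (cabL x)) (fun y hy => hw y (List.mem_cons_of_mem _ hy)) (by rw [b1]; exact hU)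
    rw [e1, draw_append, a2, b2, a1, b1, expo_cons]
    exact ⟨by ring, rfl⟩

theorem draw_tws (hm : 0 < m) (b : Bool) (p0 p1 : ℤ) : ∀ (n : ℕ) (O : Outer (2 * m)),
    pat O.up 0 = p0 → pat O.up 1 = p1 →
    owr (draw O (tws b (2 * n))) = owr O + sgn (b, 0) * (2 * n) * (p0 * p1) ∧
      pat (draw O (tws b (2 * n))).up = pat O.up := by
  intro n
  induction n with
  | zero => intro O _ _; simp [tws, draw]
  | succ n ih =>
    intro O h0 h1
    obtain ⟨a1, b1⟩ := push_writhe O b 0 (by omega)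
    obtain ⟨a2, b2⟩ := push_writhe (O.push b 0) b 0 (by omega)
    have hb : pat ((O.push b 0).push b 0).up = pat O.up := by
      rw [b2, b1]
      funext j
      simp only [Function.comp_apply, Equiv.swap_apply_self]
    obtain ⟨a3, b3⟩ := ih ((O.push b 0).push b 0) (by rw [hb, h0]) (by rw [hb, h1])
    have e1 : tws b (2 * (n + 1)) = (b, 0) :: (b, 0) :: tws b (2 * n) := by
      unfold tws
      have : 2 * (n + 1) = 2 * n + 1 + 1 := by ring
      rw [this, List.replicate_succ, List.replicate_succ]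
    rw [e1, draw_cons, draw_cons]
    simp only
    rw [a3, b3, hb, a2, a1, b1]
    refine ⟨?_, rfl⟩
    have s0 : (pat O.up ∘ Equiv.swap 0 (0 + 1)) 0 = p1 := by
      rw [Function.comp_apply, sw_l]
      exact h1
    have s1 : (pat O.up ∘ Equiv.swap 0 (0 + 1)) (0 + 1) = p0 := by
      rw [Function.comp_apply, sw_r]
      exact h0
    rw [s0, s1, h0, show pat O.up (0 + 1) = p1 from h1]
    have : (if b = true then (1 : ℤ) else -1) = sgn (b, 0) := rfl
    rw [this]
    push_cast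
    ring

theorem pat_ext (T : Outer 2) (i : ℕ) (hi : i < m) :
    pat (ext m T).up (2 * i) = pat T.up 0 ∧ pat (ext m T).up (2 * i + 1) = pat T.up 1 := by
  have h0 : (2 * i) % 2 = 0 := by omega
  have h1 : (2 * i + 1) % 2 = 1 := by omega
  unfold pat
  constructor
  · rw [dif_pos (show 2 * i < 2 * m by omega), dif_pos (show 0 < 2 by norm_num)]
    simp only [ext, h0]
  · rw [dif_pos (show 2 * i + 1 < 2 * m by omega), dif_pos (show 1 < 2 by norm_num)]
    simp only [ext, h1]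

theorem pat_sq {M : ℕ} (u : Fin M → Bool) (j : ℕ) (hj : j < M) : pat u j * pat u j = 1 := by
  unfold pat
  rw [dif_pos hj]
  split_ifs <;> norm_num

theorem sgn_twl (w : List (Bool × ℕ)) :
    sgn (decide (expo w < 0), 0) * (2 * ((expo w).natAbs : ℤ)) = -2 * expo w := by
  unfold sgn
  by_cases h : expo w < 0
  · have : ((expo w).natAbs : ℤ) = -expo w := by
      rw [Int.natCast_natAbs, abs_of_neg h]
    simp only [h, decide_true, if_true, this]
    ring
  · have : ((expo w).natAbs : ℤ) = expo w := by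
      rw [Int.natCast_natAbs, abs_of_nonneg (not_lt.1 h)]
    simp only [h, decide_false, Bool.false_eq_true, if_false, this]
    ring

/-- writhe and orientations of the satellite -/
theorem draw_dbl (hm : 0 < m) (T : Outer 2) (w : List (Bool × ℕ)) (hw : ∀ x ∈ w, x.2 + 1 < m) :
    owr (draw (ext m T) (dbl w)) = owr T + 2 * expo w ∧
      pat (draw (ext m T) (dbl w)).up = pat (ext m T).up := by
  have h0 := pat_sq T.up 0 (by norm_num)
  have h1 := pat_sq T.up 1 (by norm_num)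
  obtain ⟨a1, b1⟩ := draw_cab w (pat T.up 0) (pat T.up 1) h0 h1 (ext m T) hw (fun i hi => pat_ext T i hi)
  have g := pat_ext T 0 hm
  obtain ⟨a2, b2⟩ := draw_tws hm (decide (expo w < 0)) (pat T.up 0) (pat T.up 1) (expo w).natAbs
    (draw (ext m T) (cab w)) (by rw [b1]; exact g.1) (by rw [b1]; exact g.2)
  have e1 : draw (ext m T) (dbl w) = draw (draw (ext m T) (cab w))
    (tws (decide (expo w < 0)) (2 * (expo w).natAbs)) := by rw [← draw_append]; rfl
  rw [e1, a2, b2, a1, b1, sgn_twl]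
  have e2 : owr (ext m T) = owr T := by
    unfold owr ext
    simp only [List.map_map]
    rfl
  rw [e2]
  exact ⟨by ring, rfl⟩

theorem ext_rev (T : Outer 2) : (ext m T).rev = ext m T.rev := by
  unfold Outer.rev ext
  simp only [List.map_map]
  congr 1

theorem sum_two (k : ℕ) (f : Fin (2 * (k + 1)) → ℕ) : ∑ j, f j = f ⟨0, by omega⟩ + f ⟨1, by omega⟩ +
    ∑ j : Fin (2 * (k + 1) - 2), f ⟨j + 2, by omega⟩ := by
  have e1 : ∑ j, f j = f ⟨0, by omega⟩ + ∑ j : Fin (2 * k + 1), f ⟨j + 1, by omega⟩ :=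
    Fin.sum_univ_succ (n := 2 * k + 1) f
  have e2 : ∑ j : Fin (2 * k + 1), f ⟨j + 1, by omega⟩ = f ⟨1, by omega⟩ +
      ∑ j : Fin (2 * k), f ⟨j + 2, by omega⟩ :=
    Fin.sum_univ_succ (n := 2 * k) (fun j : Fin (2 * k + 1) => f ⟨j + 1, by omega⟩)
  rw [e1, e2, add_assoc]
  rfl

theorem sum_lower (k : ℕ) (T : Outer 2) (u : Bool → Prop) [DecidablePred u] (g : Fin 2 → T.P) (x : T.P) :
    (∑ j : Fin (2 * (k + 1)), if u ((ext (k + 1) T).up j) ∧
      (if h : (j : ℕ) < 2 then (Sum.inl (g ⟨j, h⟩) : T.P ⊕ Fin (2 * (k + 1) - 2)) else .inr ⟨j - 2, by omega⟩) =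
        Sum.inl x then 1 else 0) = ∑ j : Fin 2, if u (T.up j) ∧ g j = x then 1 else 0 := by
  rw [sum_two, Fin.sum_univ_two]
  have e3 : ∑ j : Fin (2 * (k + 1) - 2), (if u ((ext (k + 1) T).up ⟨j + 2, by omega⟩) ∧
      (if h : ((⟨j + 2, by omega⟩ : Fin (2 * (k + 1))) : ℕ) < 2 then
        (Sum.inl (g ⟨((⟨j + 2, by omega⟩ : Fin (2 * (k + 1))) : ℕ), h⟩) : T.P ⊕ Fin (2 * (k + 1) - 2)) else
        .inr ⟨((⟨j + 2, by omega⟩ : Fin (2 * (k + 1))) : ℕ) - 2, by omega⟩) =
        Sum.inl x then 1 else 0) = 0 := by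
    apply Finset.sum_eq_zero
    intro j _
    rw [dif_neg (by simp), if_neg]
    rintro ⟨_, h⟩
    exact absurd h (by simp)
  rw [e3, add_zero]
  congr 1
  · simp [ext]
  · simp [ext]

theorem sum_other (k : ℕ) (T : Outer 2) (u : Bool → Prop) [DecidablePred u] (g : Fin 2 → T.P)
    (q : Fin (2 * (k + 1) - 2)) :
    (∑ j : Fin (2 * (k + 1)), if u ((ext (k + 1) T).up j) ∧
      (if h : (j : ℕ) < 2 then (Sum.inl (g ⟨j, h⟩) : T.P ⊕ Fin (2 * (k + 1) - 2)) else .inr ⟨j - 2, by omega⟩) =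
        Sum.inr q then 1 else 0) = if u ((ext (k + 1) T).up ⟨q + 2, by omega⟩) then 1 else 0 := by
  rw [sum_two]
  have e1 : ∀ j : Fin (2 * (k + 1)), (j : ℕ) < 2 → (if u ((ext (k + 1) T).up j) ∧
      (if h : (j : ℕ) < 2 then (Sum.inl (g ⟨j, h⟩) : T.P ⊕ Fin (2 * (k + 1) - 2)) else .inr ⟨j - 2, by omega⟩) =
        Sum.inr q then 1 else 0) = 0 := by
    intro j hj
    rw [dif_pos hj, if_neg]
    rintro ⟨_, h⟩
    exact absurd h (by simp)
  rw [e1 ⟨0, by omega⟩ (by simp), e1 ⟨1, by omega⟩ (by simp), zero_add, zero_add,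
    Finset.sum_eq_single q]
  · rw [dif_neg (by simp)]
    simp
  · intro j _ hj
    rw [dif_neg (by simp), if_neg]
    rintro ⟨_, h⟩
    apply hj
    have := Sum.inr.inj h
    rw [Fin.ext_iff] at this ⊢
    simpa using this
  · intro h; exact absurd (Finset.mem_univ _) h

theorem ext_Sst (hm : 0 < m) (T : Outer 2) (h : ∀ x, Sst T T.up x = 1) : ∀ x, Sst (ext m T) (ext m T).up x = 1 := by
  obtain ⟨k, rfl⟩ : ∃ k, m = k + 1 := ⟨m - 1, by omega⟩
  rintro (x | q)
  · have hx := h x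
    unfold Sst at hx ⊢
    have e1 : ((ext (k + 1) T).arcs.map (fun z => if z.1 = (Sum.inl x : T.P ⊕ Fin (2 * (k + 1) - 2)) then 1 else 0)).sum =
        (T.arcs.map (fun z => if z.1 = x then 1 else 0)).sum := by
      unfold ext
      simp only [List.map_map]
      congr 2
      funext z
      simp
    have e2 : ((ext (k + 1) T).crossings.map (cst (Sum.inl x : T.P ⊕ Fin (2 * (k + 1) - 2)))).sum =
        (T.crossings.map (cst x)).sum := by
      unfold ext
      simp only [List.map_map]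
      congr 2
      funext c
      simp only [Function.comp_apply, cst, Crossing.map]
      congr 1
      · split_ifs <;> simp_all
      · split_ifs <;> simp_all
    let X : (ext (k + 1) T).P := (Sum.inl x : T.P ⊕ Fin (2 * (k + 1) - 2))
    have e3 : (∑ j, if (ext (k + 1) T).up j = true ∧ (ext (k + 1) T).lower j = X then 1 else 0) =
        ∑ j, if T.up j = true ∧ T.lower j = x then 1 else 0 := by
      rw [← sum_lower k T (fun b => b = true) T.lower x]
      exact Finset.sum_congr rfl fun j _ => if_congr Iff.rfl rfl rfl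
    have e4 : (∑ j, if ¬ (ext (k + 1) T).up j = true ∧ (ext (k + 1) T).upper j = X then 1 else 0) =
        ∑ j, if ¬ T.up j = true ∧ T.upper j = x then 1 else 0 := by
      rw [← sum_lower k T (fun b => ¬ b = true) T.upper x]
      exact Finset.sum_congr rfl fun j _ => if_congr Iff.rfl rfl rfl
    exact Eq.trans (congrArg₂ (· + ·) (congrArg₂ (· + ·) (congrArg₂ (· + ·) e1 e2) e3) e4) hx
  · unfold Sst
    have e1 : ((ext (k + 1) T).arcs.map (fun z => if z.1 = (Sum.inr q : T.P ⊕ Fin (2 * (k + 1) - 2)) then 1 else 0)).sum =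
        0 := by
      unfold ext
      simp only [List.map_map]
      apply List.sum_eq_zero
      intro a ha
      rw [List.mem_map] at ha
      obtain ⟨z, _, rfl⟩ := ha
      simp
    have e2 : ((ext (k + 1) T).crossings.map (cst (Sum.inr q : T.P ⊕ Fin (2 * (k + 1) - 2)))).sum = 0 := by
      unfold ext
      simp only [List.map_map]
      apply List.sum_eq_zero
      intro a ha
      rw [List.mem_map] at ha
      obtain ⟨z, _, rfl⟩ := ha
      have g : ∀ (b : Bool) (p p' : T.P),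
          (if b = true then (Sum.inl p : T.P ⊕ Fin (2 * (k + 1) - 2)) else Sum.inl p') ≠ Sum.inr q := by
        intro b p p'
        split_ifs <;> simp
      exact congrArg₂ (· + ·) (if_neg (g z.underFwd z.a z.c)) (if_neg (g z.overFwd z.b z.d))
    let X : (ext (k + 1) T).P := (Sum.inr q : T.P ⊕ Fin (2 * (k + 1) - 2))
    have e3 : (∑ j, if (ext (k + 1) T).up j = true ∧ (ext (k + 1) T).lower j = X then 1 else 0) =
        if (ext (k + 1) T).up ⟨q + 2, by omega⟩ = true then 1 else 0 := by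
      rw [← sum_other k T (fun b => b = true) T.lower q]
      exact Finset.sum_congr rfl fun j _ => if_congr Iff.rfl rfl rfl
    have e4 : (∑ j, if ¬ (ext (k + 1) T).up j = true ∧ (ext (k + 1) T).upper j = X then 1 else 0) =
        if ¬ (ext (k + 1) T).up ⟨q + 2, by omega⟩ = true then 1 else 0 := by
      rw [← sum_other k T (fun b => ¬ b = true) T.upper q]
      exact Finset.sum_congr rfl fun j _ => if_congr Iff.rfl rfl rfl
    have e5 : 0 + 0 + (if (ext (k + 1) T).up ⟨q + 2, by omega⟩ = true then 1 else 0) +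
        (if ¬ (ext (k + 1) T).up ⟨q + 2, by omega⟩ = true then 1 else 0) = 1 := by
      split_ifs <;> rfl
    exact Eq.trans (congrArg₂ (· + ·) (congrArg₂ (· + ·) (congrArg₂ (· + ·) e1 e2) e3) e4) e5

theorem Good_ext (hm : 0 < m) (T : Outer 2) (h : Good T T.up) : Good (ext m T) (ext m T).up := by
  refine ⟨ext_Sst hm T h.1, ?_⟩
  rw [ext_rev]
  exact ext_Sst hm T.rev h.2

theorem pat_inj' {M : ℕ} {u v : Fin M → Bool} (h : pat u = pat v) : u = v := by
  funext j
  have := congrFun h j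
  simp only [pat, Fin.is_lt, dif_pos] at this
  revert this
  cases u j <;> cases v j <;> simp

/-- the satellite diagram is closed -/
theorem dbl_closed (hm : 0 < m) (T : Outer 2) (w : List (Bool × ℕ)) (hw : ∀ x ∈ w, x.2 + 1 < m)
    (h : T.close.IsClosed) : (draw (ext m T) (dbl w)).close.IsClosed := by
  rw [closed_iff] at h ⊢
  have h1 := pat_inj' (draw_dbl hm T w hw).2
  rw [h1]
  exact good_draw _ _ _ (Good_ext hm T h)

end clo

end Pool.Agent.V8H83.WD
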