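import Pool.Agent.V8H83.WD.Red

/-!
# Adding closed strands to the outside of a box with two strands
-/

set_option autoImplicit false

namespace Pool.Agent.V8H83.WD

open Pool.Agent.H891R2.Jones Pool.Agent.W639.RB Pool.Agent.TH561 Pool.Agent.N569.TW Finset LaurentPolynomial

/-- the outside of a box with `2 * m` strands: the strands `0` and `1` are connected outside of the box as
in `T`, the upper end of every other strand is joined to its lower end; the orientations of the strands
`2 * i` and `2 * i + 1` are those of the strands `0` and `1` of `T`. -/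
def ext (m : ℕ) (T : Outer 2) : Outer (2 * m) where
  P := T.P ⊕ Fin (2 * m - 2)
  arcs := T.arcs.map (Prod.map .inl .inl)
  crossings := T.crossings.map (Crossing.map .inl)
  lower j := if h : (j : ℕ) < 2 then .inl (T.lower ⟨j, h⟩) else .inr ⟨j - 2, by omega⟩
  upper j := if h : (j : ℕ) < 2 then .inl (T.upper ⟨j, h⟩) else .inr ⟨j - 2, by omega⟩
  up j := T.up ⟨j % 2, Nat.mod_lt _ (by norm_num)⟩

section ext

variable {m N : ℕ}

/-- colours at the first two strands and at the others -/
def glue (m : ℕ) {N : ℕ} (x : Fin 2 → Fin N) (v : Fin (2 * m - 2) → Fin N) (j : Fin (2 * m)) : Fin N :=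
  if h : (j : ℕ) < 2 then x ⟨j, h⟩ else v ⟨j - 2, by omega⟩

theorem Zg_ext (A : ℂ) (T : Outer 2) (g : (Fin (2 * m) → Fin N) → ((Fin (2 * m) → Fin N) → ℂ)) :
    Zg A N (ext m T) g = ∑ v : Fin (2 * m - 2) → Fin N,
      Zg A N T (fun x y => g (glue m x v) (glue m y v)) := by
  unfold Zg
  rw [Finset.sum_comm]
  have h1 : ∀ F : (T.P ⊕ Fin (2 * m - 2) → Fin N) → ℂ, ∑ col, F col =
      ∑ c1 : T.P → Fin N, ∑ v : Fin (2 * m - 2) → Fin N, F (Sum.elim c1 v) := by
    intro F
    rw [← Fintype.sum_prod_type', ← Equiv.sum_comp (Equiv.sumArrowEquivProdArrow T.P (Fin (2 * m - 2)) (Fin N)).symm]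
    rfl
  refine (h1 (fun col => WW A (ext m T).arcs (ext m T).crossings col *
    g (col ∘ (ext m T).lower) (col ∘ (ext m T).upper))).trans ?_
  refine Finset.sum_congr rfl fun c1 _ => Finset.sum_congr rfl fun v _ => ?_
  congr 1
  · unfold WW ext
    simp only [List.map_map]
    rfl
  · congr 1
    · congr 1
      funext j
      simp only [Function.comp_apply, ext, glue]
      split_ifs <;> rfl
    · funext j
      simp only [Function.comp_apply, ext, glue]
      split_ifs <;> rfl

theorem glue_inj (hm : 0 < m) {x y : Fin 2 → Fin N} {v : Fin (2 * m - 2) → Fin N} :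
    glue m x v = glue m y v ↔ x = y := by
  constructor
  · intro h
    funext j
    have := congrFun h ⟨j, by omega⟩
    simp only [glue] at this
    rw [dif_pos j.2, dif_pos j.2] at this
    exact this
  · rintro rfl; rfl

/-- the matrix of the outside -/
noncomputable def Th (A : ℂ) (N m : ℕ) (T : Outer 2) :
    Matrix (Fin (2 * m) → Fin N) (Fin (2 * m) → Fin N) ℂ :=
  Matrix.of (fun Y X => ∑ v : Fin (2 * m - 2) → Fin N,
    Zg A N T (fun x y => ind (X = glue m x v) * ind (Y = glue m y v)))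

theorem Zg_linear_sum {ι : Type*} (s : Finset ι) (A : ℂ) (T : Outer 2)
    (g : ι → (Fin 2 → Fin N) → (Fin 2 → Fin N) → ℂ) (c : ι → ℂ) :
    Zg A N T (fun x y => ∑ i ∈ s, c i * g i x y) = ∑ i ∈ s, c i * Zg A N T (g i) := by
  unfold Zg
  simp only [Finset.mul_sum]
  rw [Finset.sum_comm]
  refine Finset.sum_congr rfl fun i _ => Finset.sum_congr rfl fun u _ => ?_
  ring

theorem trace_Th (A : ℂ) (T : Outer 2) (g : (Fin (2 * m) → Fin N) → ((Fin (2 * m) → Fin N) → ℂ)) :
    Matrix.trace (Matrix.of g * Th A N m T) = Zg A N (ext m T) g := by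
  classical
  rw [Zg_ext]
  unfold Matrix.trace Th
  simp only [Matrix.diag_apply, Matrix.mul_apply, Matrix.of_apply, Finset.mul_sum]
  have h1 : ∀ v : Fin (2 * m - 2) → Fin N, Zg A N T (fun x y => g (glue m x v) (glue m y v)) =
      ∑ X : Fin (2 * m) → Fin N, ∑ Y : Fin (2 * m) → Fin N,
        g X Y * Zg A N T (fun x y => ind (X = glue m x v) * ind (Y = glue m y v)) := by
    intro v
    have e1 : (fun x y => g (glue m x v) (glue m y v)) = fun (x y : Fin 2 → Fin N) =>
        ∑ z : (Fin (2 * m) → Fin N) × (Fin (2 * m) → Fin N), g z.1 z.2 *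
          (ind (z.1 = glue m x v) * ind (z.2 = glue m y v)) := by
      funext x y
      rw [Finset.sum_eq_single (glue m x v, glue m y v)]
      · rw [ind_pos rfl, ind_pos rfl, mul_one, mul_one]
      · intro z _ hz
        by_cases h2 : z.1 = glue m x v
        · rw [ind_neg (p := z.2 = glue m y v) (fun h3 => hz (Prod.ext h2 h3)), mul_zero, mul_zero]
        · rw [ind_neg h2, zero_mul, mul_zero]
      · intro h; exact absurd (Finset.mem_univ _) h
    rw [e1, Zg_linear_sum Finset.univ A T
      (fun (z : (Fin (2 * m) → Fin N) × (Fin (2 * m) → Fin N)) x y =>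
        (ind (z.1 = glue m x v) * ind (z.2 = glue m y v))) (fun z => g z.1 z.2),
      Fintype.sum_prod_type]
  rw [Finset.sum_congr rfl (fun v _ => h1 v)]
  symm
  rw [Finset.sum_comm]
  refine Finset.sum_congr rfl fun X _ => ?_
  rw [Finset.sum_comm]

theorem Th_loc (A : ℂ) (T : Outer 2) (s : Fin (2 * m)) (hs : 2 ≤ (s : ℕ)) : Th A N m T ∈ Loc N s := by
  refine ⟨fun Y X hYX => ?_, fun σ Y X => ?_⟩
  · unfold Th
    rw [Matrix.of_apply]
    apply Finset.sum_eq_zero
    intro v _
    unfold Zg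
    apply Finset.sum_eq_zero
    intro u _
    have : ind (X = glue m (u ∘ T.lower) v) * ind (Y = glue m (u ∘ T.upper) v) = 0 := by
      rw [ind_mul]
      apply ind_neg
      rintro ⟨h1, h2⟩
      apply hYX
      rw [h1, h2]
      unfold glue
      rw [dif_neg (by omega), dif_neg (by omega)]
    exact mul_eq_zero_of_right _ this
  · unfold Th
    rw [Matrix.of_apply, Matrix.of_apply]
    have hs2 : (s : ℕ) - 2 < 2 * m - 2 := by omega
    have hg : ∀ (x : Fin 2 → Fin N) (v : Fin (2 * m - 2) → Fin N),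
        glue m x (permAt ⟨(s : ℕ) - 2, hs2⟩ σ v) = permAt s σ (glue m x v) := by
      intro x v
      funext j
      by_cases hj : j = s
      · subst hj
        rw [permAt_self]
        unfold glue
        rw [dif_neg (by omega), dif_neg (by omega), permAt_self]
      · rw [permAt_other s σ _ hj]
        unfold glue
        split_ifs with h
        · rfl
        · rw [permAt_other]
          intro h2
          apply hj
          simp only [Fin.mk.injEq] at h2
          exact Fin.ext (by omega)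
    rw [← Equiv.sum_comp (permAt (⟨(s : ℕ) - 2, hs2⟩ : Fin (2 * m - 2)) σ)]
    refine Finset.sum_congr rfl fun v _ => ?_
    congr 1
    funext x y
    rw [hg, hg]
    congr 1
    · exact ind_congr ((permAt s σ).injective.eq_iff)
    · exact ind_congr ((permAt s σ).injective.eq_iff)

theorem KK_apply {M : ℕ} (i : ℕ) (h : i + 1 < M) (x z : Fin M → Fin N) :
    KK M N i x z = if x ⟨i, Nat.lt_of_succ_lt h⟩ = x ⟨i+1, h⟩ then
      ∑ c, ind (upd x ⟨i, Nat.lt_of_succ_lt h⟩ ⟨i+1, h⟩ c = z) else 0 := by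
  have := KK_mul_apply i h (1 : Matrix (Fin M → Fin N) (Fin M → Fin N) ℂ) x z
  rw [mul_one] at this
  rw [this]
  split_ifs
  · refine Finset.sum_congr rfl fun c _ => ?_
    rw [Matrix.one_apply]
    unfold ind
    split_ifs <;> rfl
  · rfl

theorem KK_glue (hm : 0 < m) (x y : Fin 2 → Fin N) (v : Fin (2 * m - 2) → Fin N) :
    KK (2 * m) N 0 (glue m x v) (glue m y v) = KK 2 N 0 x y := by
  rw [KK_apply 0 (by omega), KK_apply 0 (by omega)]
  have h0 : glue m x v ⟨0, by omega⟩ = x ⟨0, by omega⟩ := by simp [glue]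
  have h1 : glue m x v ⟨0 + 1, by omega⟩ = x ⟨0 + 1, by omega⟩ := by simp [glue]
  rw [h0, h1]
  have h2 : ∀ c, upd (glue m x v) ⟨0, by omega⟩ ⟨0 + 1, by omega⟩ c =
      glue m (upd x ⟨0, by omega⟩ ⟨0 + 1, by omega⟩ c) v := by
    intro c
    funext j
    simp only [upd, glue, Fin.ext_iff]
    by_cases hj : (j : ℕ) < 2
    · rw [dif_pos hj, dif_pos hj]
    · rw [dif_neg hj, dif_neg hj, if_neg (by omega)]
  split_ifs
  · refine Finset.sum_congr rfl fun c _ => ?_
    rw [h2]
    exact ind_congr (glue_inj hm)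
  · rfl

theorem Zg_ext_ew (hm : 0 < m) (A : ℂ) (T : Outer 2) (ε : Bool) :
    Zg A N (ext m T) (fun x y => WP (KK (2 * m) N) (ew ε) x y) =
      (N : ℂ) ^ (2 * m - 2) * Zg A N T (fun x y => WP (KK 2 N) (ew ε) x y) := by
  rw [Zg_ext]
  have h : ∀ v : Fin (2 * m - 2) → Fin N, (fun x y => WP (KK (2 * m) N) (ew ε) (glue m x v) (glue m y v)) =
      fun x y => WP (KK 2 N) (ew ε) x y := by
    intro v
    funext x y
    cases ε
    · simp only [ew]
      show (1 : Matrix (Fin (2 * m) → Fin N) (Fin (2 * m) → Fin N) ℂ) (glue m x v) (glue m y v) =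
        (1 : Matrix (Fin 2 → Fin N) (Fin 2 → Fin N) ℂ) x y
      rw [Matrix.one_apply, Matrix.one_apply]
      by_cases hxy : x = y
      · rw [if_pos hxy, if_pos ((glue_inj hm).2 hxy)]
      · rw [if_neg hxy, if_neg (fun h => hxy ((glue_inj hm).1 h))]
    · have e1 : WP (KK (2 * m) N) (ew true) = KK (2 * m) N 0 := by simp [ew, WP]
      have e2 : WP (KK 2 N) (ew true) = KK 2 N 0 := by simp [ew, WP]
      rw [e1, e2, KK_glue hm]
  rw [Finset.sum_congr rfl (fun v _ => by rw [h v])]
  rw [Finset.sum_const, Finset.card_univ, Fintype.card_fun, Fintype.card_fin, Fintype.card_fin, nsmul_eq_mul]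
  push_cast
  rfl

/-- the value of a word in the box of the extension -/
theorem Zg_word (hm : 0 < m) (L : List ℕ) (hL : ∀ i ∈ L, i + 1 < 2 * m) :
    ∃ (k : ℕ) (ε : Bool), lam (2 * m) L = k + (if ε then 1 else 2) ∧
      lam (2 * m) (L ++ [0]) = k + (if ε then 2 else 1) ∧
      ∀ (N : ℕ), N ≠ 0 → ∀ (A : ℂ) (T : Outer 2),
        Zg A N (ext m T) (fun x y => WP (KK (2 * m) N) L x y) =
          (N : ℂ) ^ k * Zg A N T (fun x y => WP (KK 2 N) (ew ε) x y) := by
  obtain ⟨k, ε, h1, h2, h3⟩ := exists_red (M := 2 * m) (by omega) L hL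
  refine ⟨k, ε, h1, h2, fun N hN A T => ?_⟩
  have hN' : (N : ℂ) ≠ 0 := by exact_mod_cast hN
  have h4 := h3 N hN (Th A N m T) (fun s hs => Th_loc A T s hs)
  have h5 : ∀ L : List ℕ, Matrix.trace (WP (KK (2 * m) N) L * Th A N m T) =
      Zg A N (ext m T) (fun x y => WP (KK (2 * m) N) L x y) := fun L => trace_Th A T _
  rw [h5, h5, Zg_ext_ew hm] at h4
  apply mul_left_cancel₀ (pow_ne_zero (2 * m - 2) hN')
  rw [h4]
  ring

end ext

end Pool.Agent.V8H83.WD
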