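import Pool.Agent.V8H83.WD.Sat

/-!
# Whitehead doubles
-/

set_option autoImplicit false

namespace Pool.Agent.V8H83.WD

open Pool.Agent.H891R2.Jones Pool.Agent.W639.RB Pool.Agent.TH561 Pool.Agent.N569.TW Finset LaurentPolynomial

section final

variable {ζ : ℂ} {m : ℕ}

theorem clasp_fPoly (ε : Bool) : (clasp ε).close.fPoly = 1 := by
  unfold Diagram.fPoly
  rw [clasp_writhe, clasp_bracket]
  cases ε
  · simp only [Bool.false_eq_true, if_false]
    rw [if_pos (by decide), one_mul, ← T_add]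
    simp
  · simp only [if_true]
    rw [if_pos (by decide), one_mul, ← T_add]
    simp

/-- the factor of the Whitehead doubles -/
noncomputable def gam (ζ : ℂ) (ε : Bool) : ℂ := if ε then ζ⁻¹ - ζ⁻¹ ^ 2 else ζ - ζ ^ 2

theorem gam_eq (h0 : ζ ≠ 0) (hz : 1 + ζ + ζ ^ 2 + ζ ^ 3 + ζ ^ 4 = 0) (ε : Bool) :
    1 - evz ζ h0 (cutF (clasp ε)) / (-ζ ^ 2 - ζ ^ 3) = gam ζ ε := by
  obtain ⟨k1, k2, k3⟩ := y_inv hz rfl
  have hd0 := d_ne k3
  have h5 : ζ ^ 5 = 1 := by linear_combination (ζ - 1) * hz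
  have hi : ζ⁻¹ = ζ ^ 4 := inv_eq_of_mul_eq_one_right (by linear_combination h5)
  rw [sub_eq_iff_eq_add, ← sub_eq_iff_eq_add', eq_div_iff hd0]
  unfold cutF
  rw [clasp_writhe, clasp_cut]
  cases ε
  · simp only [Bool.false_eq_true, if_false, gam]
    rw [if_pos (by decide), map_mul, map_mul, map_sub, map_neg, map_one, evz_T, evz_T, evz_T, one_mul]
    have e1 : ζ ^ (-3 * -2 : ℤ) = ζ ^ 6 := by norm_cast
    have e2 : ζ ^ (4 : ℤ) = ζ ^ 4 := by norm_cast
    have e3 : ζ ^ (-4 : ℤ) = ζ := by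
      rw [zpow_neg, e2]
      exact inv_eq_of_mul_eq_one_right (by linear_combination h5)
    rw [e1, e2, e3]
    linear_combination (ζ ^ 2 + ζ ^ 5) * h5
  · simp only [if_true, gam]
    rw [if_pos (by decide), map_mul, map_mul, map_sub, map_neg, map_one, evz_T, evz_T, evz_T, one_mul]
    have e2 : ζ ^ (4 : ℤ) = ζ ^ 4 := by norm_cast
    have e3 : ζ ^ (-4 : ℤ) = ζ := by
      rw [zpow_neg, e2]
      exact inv_eq_of_mul_eq_one_right (by linear_combination h5)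
    have e1 : ζ ^ (-3 * 2 : ℤ) = ζ ^ 4 := by
      have : ζ ^ (-3 * 2 : ℤ) = (ζ ^ 6)⁻¹ := by
        rw [← zpow_natCast, ← zpow_neg]
        norm_num
      rw [this]
      exact inv_eq_of_mul_eq_one_right (by linear_combination (ζ ^ 5 + 1) * h5)
    rw [e1, e2, e3, hi]
    linear_combination (ζ ^ 2 + ζ ^ 3 - ζ ^ 6 - ζ ^ 5) * h5

theorem norm_root (hz : 1 + ζ + ζ ^ 2 + ζ ^ 3 + ζ ^ 4 = 0) : ‖ζ‖ = 1 := by
  have h5 : ζ ^ 5 = 1 := by linear_combination (ζ - 1) * hz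
  exact Complex.norm_eq_one_of_pow_eq_one h5 (by norm_num)

theorem norm_gam (h0 : ζ ≠ 0) (hz : 1 + ζ + ζ ^ 2 + ζ ^ 3 + ζ ^ 4 = 0) (ε : Bool) : ‖gam ζ ε‖ = ‖1 - ζ‖ := by
  have h1 := norm_root hz
  cases ε
  · have : gam ζ false = ζ * (1 - ζ) := by simp only [gam, Bool.false_eq_true, if_false]; ring
    rw [this, norm_mul, h1, one_mul]
  · have : gam ζ true = -(ζ⁻¹ ^ 2 * (1 - ζ)) := by
      simp only [gam, if_true]
      field_simp
      ring
    rw [this, norm_neg, norm_mul, norm_pow, norm_inv, h1, inv_one, one_pow, one_mul]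

/-- `1 - ζ` has absolute value larger than one -/
theorem one_lt_norm (hz : 1 + ζ + ζ ^ 2 + ζ ^ 3 + ζ ^ 4 = 0) : 1 < ‖1 - ζ‖ := by
  have h5 : ζ ^ 5 = 1 := by linear_combination (ζ - 1) * hz
  have h1 := norm_root hz
  have hi : ζ⁻¹ = ζ ^ 4 := inv_eq_of_mul_eq_one_right (by linear_combination h5)
  have hc : (starRingEnd ℂ) ζ = ζ ^ 4 := by rw [← hi, Complex.inv_eq_conj h1]
  have h2 : ζ + ζ ^ 4 = ((2 * ζ.re : ℝ) : ℂ) := by rw [← hc, Complex.add_conj]
  have h3 : (2 * ζ.re) ^ 2 + 2 * ζ.re - 1 = 0 := by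
    have : (((2 * ζ.re) ^ 2 + 2 * ζ.re - 1 : ℝ) : ℂ) = 0 := by
      push_cast
      have h2' : (2 : ℂ) * (ζ.re : ℂ) = ζ + ζ ^ 4 := by rw [h2]; push_cast; ring
      rw [h2']
      linear_combination (2 + ζ ^ 3) * h5 + hz
    exact_mod_cast this
  have h4 : 2 * ζ.re < 1 := by nlinarith
  have h6 : ζ.re * ζ.re + ζ.im * ζ.im = 1 := by
    have := Complex.normSq_eq_norm_sq ζ
    rw [h1, Complex.normSq_apply] at this
    simpa using this
  have h7 : ‖1 - ζ‖ ^ 2 = 2 - 2 * ζ.re := by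
    rw [← Complex.normSq_eq_norm_sq, Complex.normSq_apply]
    simp only [Complex.sub_re, Complex.sub_im, Complex.one_re, Complex.one_im]
    nlinarith
  nlinarith [norm_nonneg (1 - ζ)]

/-- the diagram of the satellite of the closure of the braid word `w` on `m` strands with the pattern `O` -/
noncomputable abbrev sat (m : ℕ) (w : List (Bool × ℕ)) (O : Outer 2) : Diagram (draw (ext m O) (dbl w)).P :=
  (draw (ext m O) (dbl w)).close

/-- the diagram of the closure of the braid word `w` on `m` strands -/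
noncomputable abbrev clos (m : ℕ) (w : List (Bool × ℕ)) : Diagram (draw (braidClosure m) w).P :=
  (draw (braidClosure m) w).close

/-- the closure of the braid word `w` on `m` strands is a knot -/
def KnotWord (m : ℕ) (w : List (Bool × ℕ)) : Prop :=
  0 < m ∧ (∀ x ∈ w, x.2 + 1 < m) ∧ ∀ k, k < m → ∃ i : ℕ, (pm w)^[i] 0 = k

theorem white (h0 : ζ ≠ 0) (hz : 1 + ζ + ζ ^ 2 + ζ ^ 3 + ζ ^ 4 = 0) (w : List (Bool × ℕ)) (hw : KnotWord m w)
    (ε : Bool) : evz ζ h0 (sat m w (clasp ε)).fPoly - 1 = gam ζ ε * (evz ζ h0 (clos m w).fPoly - 1) := by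
  have h1 := sat_main hw.1 h0 hz rfl (clasp ε) w hw.2.1 hw.2.2
  have h2 := gam_eq h0 hz ε
  rw [clasp_fPoly, map_one, mul_one] at h1
  rw [h1, ← h2]
  ring

/-! ### the torus knots `T(2, n)` -/

theorem torus_word (n : ℕ) (hn : n % 2 = 1) : KnotWord 2 (List.replicate n (true, 0)) := by
  refine ⟨by norm_num, ?_, ?_⟩
  · intro x hx
    rw [List.eq_of_mem_replicate hx]
    norm_num
  · intro k hk
    have h1 : pm (List.replicate n (true, 0)) = Equiv.swap 0 1 := by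
      unfold pm
      rw [List.map_replicate, List.prod_replicate]
      obtain ⟨r, rfl⟩ : ∃ r, n = 2 * r + 1 := ⟨n / 2, by omega⟩
      rw [pow_succ, pow_mul, pow_two, Equiv.swap_mul_self, one_pow, one_mul]
    obtain h | h : k = 0 ∨ k = 1 := by omega
    · exact ⟨0, by rw [h]; rfl⟩
    · refine ⟨1, ?_⟩
      rw [h1, h, Function.iterate_one, Equiv.swap_apply_left]

theorem torus_value (h0 : ζ ≠ 0) (hz : 1 + ζ + ζ ^ 2 + ζ ^ 3 + ζ ^ 4 = 0) (n : ℕ) (hn : n % 2 = 1) :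
    (-ζ ^ 2 - ζ ^ 3) * evz ζ h0 (clos 2 (List.replicate n (true, 0))).fPoly =
      (ζ ^ n) ^ 4 - (-ζ ^ 2 - ζ ^ 3) * (ζ ^ n) ^ 3 := by
  obtain ⟨-, hw, -⟩ := torus_word n hn
  have h5 : ζ ^ 5 = 1 := by linear_combination (ζ - 1) * hz
  set d := -ζ ^ 2 - ζ ^ 3 with hd
  set y := ζ ^ n with hy
  have hy5 : y ^ 5 = 1 := by rw [hy, ← pow_mul, mul_comm, pow_mul, h5, one_pow]
  have hy0 : y ≠ 0 := pow_ne_zero _ h0
  -- the bracket
  set b := evz ζ h0 (clos 2 (List.replicate n (true, 0))).bracket with hb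
  have hSm : Sm ζ d 2 (List.replicate n (true, 0)) = d * b := by
    have h1 := congrArg (evz ζ h0) (bracket_terms (by norm_num) (List.replicate n (true, 0)) hw)
    rw [map_mul, evz_dl h0 hz hd, evz_sum h0 hz hd (terms (List.replicate n (true, 0))) (fun L => lam 2 L)] at h1
    exact h1.symm
  obtain ⟨t0, -⟩ := tr_full (m := 1) (by norm_num) hz hd [] (by simp) (fun k hk => ⟨0, by
    have : k = 0 := by omega
    rw [this]; rfl⟩) true n
  have e0 : cab [] ++ tws true n = List.replicate n (true, 0) := rfl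
  have e1 : Sm ζ d 1 [] = d := by
    have h := lam_nil' (M := 1)
    simp [Sm, terms, h]
  have e2 : sgn (true, 0) = 1 := rfl
  rw [e0, e1, e2, tr_MG h0 (2 * 1) _ (by
    intro x hx
    rw [List.eq_of_mem_replicate hx]
    norm_num)] at t0
  have e3 : Sm ζ d 2 (List.replicate n (true, 0)) = (-ζ ^ (-3 * (1 : ℤ))) ^ n + (ζ ^ (1 : ℤ)) ^ n * d := by
    have : Sm ζ d 2 (List.replicate n (true, 0)) = (-ζ ^ (-3 * (1 : ℤ))) ^ n + (ζ ^ (1 : ℤ)) ^ n * ((-1) ^
      ([] : List (Bool × ℕ)).length * d) := t0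
    rw [this]
    simp
  have hodd : Odd n := Nat.odd_iff.2 hn
  have e4 : (-ζ ^ (-3 * (1 : ℤ))) ^ n = -y ^ 2 := by
    have e5 : ζ ^ (-3 * (1 : ℤ)) = ζ ^ 2 := by
      have : ζ ^ (-3 * (1 : ℤ)) = (ζ ^ 3)⁻¹ := by
        rw [← zpow_natCast, ← zpow_neg]
        norm_num
      rw [this]
      exact inv_eq_of_mul_eq_one_right (by linear_combination h5)
    rw [e5, hodd.neg_pow, hy, ← pow_mul, ← pow_mul, mul_comm]
  rw [e4, zpow_one, hSm] at e3
  have hexp : expo (List.replicate n (true, 0)) = n := by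
    unfold expo
    rw [List.map_replicate, List.sum_replicate]
    simp
  have hf : evz ζ h0 (clos 2 (List.replicate n (true, 0))).fPoly = -(y ^ 2 * b) := by
    unfold Diagram.fPoly
    rw [writhe_eq _ hw, hexp, if_neg, map_mul, map_mul, map_neg, map_one, evz_T]
    · have : ζ ^ (-3 * (n : ℤ)) = y ^ 2 := by
        have : ζ ^ (-3 * (n : ℤ)) = (y ^ 3)⁻¹ := by
          rw [hy, mul_comm, zpow_mul, zpow_neg, zpow_natCast]
          norm_cast
        rw [this]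
        exact inv_eq_of_mul_eq_one_right (by linear_combination hy5)
      rw [this]
      ring
    · intro h
      have : Even n := by exact_mod_cast h
      exact (Nat.not_even_iff_odd.2 hodd) this
  rw [hf]
  linear_combination (-y ^ 2) * e3

theorem torus_ne (h0 : ζ ≠ 0) (hz : 1 + ζ + ζ ^ 2 + ζ ^ 3 + ζ ^ 4 = 0) (n : ℕ) (hn : n % 2 = 1)
    (h1 : n % 5 ≠ 1) (h4 : n % 5 ≠ 4) : evz ζ h0 (clos 2 (List.replicate n (true, 0))).fPoly ≠ 1 := by
  intro h
  have hv := torus_value h0 hz n hn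
  have h5 : ζ ^ 5 = 1 := by linear_combination (ζ - 1) * hz
  obtain ⟨k1, k2, k3⟩ := y_inv hz rfl
  rw [h, mul_one] at hv
  set y := ζ ^ n with hy
  have hy5 : y ^ 5 = 1 := by rw [hy, ← pow_mul, mul_comm, pow_mul, h5, one_pow]
  have hne : ζ ≠ 1 := by
    intro h'
    rw [h'] at hz
    norm_num at hz
  have hord : orderOf ζ = 5 := by
    have : Fact (Nat.Prime 5) := ⟨by norm_num⟩
    exact orderOf_eq_prime h5 hne
  have hprod : (y - ζ) * (y - ζ ^ 4) = 0 := by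
    have hd0 := d_ne k3
    apply mul_left_cancel₀ hd0
    linear_combination y ^ 2 * hv + (y - (-ζ ^ 2 - ζ ^ 3)) * hy5 + y * hz + y * (ζ + ζ ^ 2) * h5 +
      (-ζ ^ 2 - ζ ^ 3) * h5
  have hprim : IsPrimitiveRoot ζ 5 := hord ▸ IsPrimitiveRoot.orderOf ζ
  have hmod : ζ ^ n = ζ ^ (n % 5) := by
    have := pow_mod_orderOf ζ n
    rw [hord] at this
    exact this.symm
  rcases mul_eq_zero.1 hprod with h6 | h6
  · have h7 : ζ ^ (n % 5) = ζ ^ 1 := by rw [pow_one, ← hmod]; exact sub_eq_zero.1 h6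
    exact h1 (hprim.pow_inj (Nat.mod_lt _ (by norm_num)) (by norm_num) h7)
  · have h7 : ζ ^ (n % 5) = ζ ^ 4 := by rw [← hmod]; exact sub_eq_zero.1 h6
    exact h4 (hprim.pow_inj (Nat.mod_lt _ (by norm_num)) (by norm_num) h7)

/-- iterated Whitehead doubles -/
theorem iter (h0 : ζ ≠ 0) (hz : 1 + ζ + ζ ^ 2 + ζ ^ 3 + ζ ^ 4 = 0) (M : ℕ → ℕ)
    (W : ℕ → List (Bool × ℕ)) (ε : ℕ → Bool) (n : ℕ) (hk : ∀ i, i ≤ n → KnotWord (M i) (W i))
    (hs : ∀ i, i < n → (clos (M (i+1)) (W (i+1))).fPoly = (sat (M i) (W i) (clasp (ε i))).fPoly) :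
    ‖evz ζ h0 (clos (M n) (W n)).fPoly - 1‖ = ‖1 - ζ‖ ^ n * ‖evz ζ h0 (clos (M 0) (W 0)).fPoly - 1‖ := by
  induction n with
  | zero => simp
  | succ n ih =>
    rw [hs n (by omega), white h0 hz (W n) (hk n (by omega)) (ε n), norm_mul, norm_gam h0 hz,
      ih (fun i hi => hk i (by omega)) (fun i hi => hs i (by omega)), pow_succ]
    ring

end final

end Pool.Agent.V8H83.WD
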