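import Pool.Agent.V8H83.WD.Cab

/-!
# The Jones-Wenzl projector of four strands is in the radical of the trace at the fifth roots of unity
-/

set_option autoImplicit false

namespace Pool.Agent.V8H83.WD

open Pool.Agent.H891R2.Jones Pool.Agent.TH561

section neg

variable {M : ℕ} {d : ℂ}

theorem d_ne (hd : d ^ 2 = d + 1) : d ≠ 0 := by
  rintro rfl
  norm_num at hd

theorem inv_d (hd : d ^ 2 = d + 1) : d * (d - 1) = 1 := by linear_combination hd

/-- removing a generator at the right -/
theorem trR (hd : d ^ 2 = d + 1) (r : ℕ) (hr : r + 1 < M) (Y : RR d M)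
    (hY : Y ∈ SA d M (fun i => i ≠ r ∧ i ≠ r + 1)) : tr d M (Y * er d M r) = (d - 1) * tr d M Y := by
  rw [← tr_markovR d M r hr Y hY, ← mul_assoc, mul_comm (d - 1), inv_d hd, one_mul]

theorem trL (hd : d ^ 2 = d + 1) (r : ℕ) (hr : r + 1 < M) (Y : RR d M)
    (hY : Y ∈ SA d M (fun i => i ≠ r ∧ i + 1 ≠ r)) : tr d M (Y * er d M r) = (d - 1) * tr d M Y := by
  rw [← tr_markovL d M r hr Y hY, ← mul_assoc, mul_comm (d - 1), inv_d hd, one_mul]

theorem SAe {P : ℕ → Prop} (i : ℕ) (h : P i) : er d M i ∈ SA d M P := er_mem_SA h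

theorem F2_mem {P : ℕ → Prop} (u : ℂ) {a c : RR d M} (ha : a ∈ SA d M P) (hc : c ∈ SA d M P) :
    F2 u a c ∈ SA d M P := by
  unfold F2
  exact mul_mem (sub_mem (one_mem _) (Subalgebra.smul_mem _ ha _))
    (sub_mem (one_mem _) (Subalgebra.smul_mem _ hc _))

theorem NN_mem {P : ℕ → Prop} {a b c : RR d M} (ha : a ∈ SA d M P) (hb : b ∈ SA d M P)
    (hc : c ∈ SA d M P) : NN a b c ∈ SA d M P := by
  unfold NN
  exact mul_mem hb (mul_mem ha (mul_mem hc hb))

theorem ZZ_mem {P : ℕ → Prop} (u : ℂ) {a b c : RR d M} (ha : a ∈ SA d M P) (hb : b ∈ SA d M P)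
    (hc : c ∈ SA d M P) : ZZ u a b c ∈ SA d M P := by
  unfold ZZ
  have hF := F2_mem u ha hc
  exact sub_mem (sub_mem (mul_mem (mul_mem hF hb) hF) (Subalgebra.smul_mem _ hF _))
    (Subalgebra.smul_mem _ (mul_mem (mul_mem hF (NN_mem ha hb hc)) hF) _)

theorem WP_mem {P : ℕ → Prop} (L : List ℕ) (hL : ∀ i ∈ L, P i) : WP (er d M) L ∈ SA d M P := by
  induction L with
  | nil => exact one_mem _
  | cons i L ih =>
    rw [WP_cons]
    exact mul_mem (SAe i (hL i List.mem_cons_self)) (ih (fun k hk => hL k (List.mem_cons_of_mem _ hk)))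

theorem t4_er (i : ℕ) (hi : i + 3 < M) : T4 d (er d M i) (er d M (i+1)) (er d M (i+2)) where
  aa := (isTL_er d M).sq i (by omega)
  bb := (isTL_er d M).sq (i+1) (by omega)
  cc := (isTL_er d M).sq (i+2) (by omega)
  aba := by rw [← mul_assoc]; exact (isTL_er d M).up i (by omega)
  bab := by rw [← mul_assoc]; exact (isTL_er d M).down i (by omega)
  bcb := by rw [← mul_assoc]; exact (isTL_er d M).up (i+1) (by omega)
  cbc := by rw [← mul_assoc]; exact (isTL_er d M).down (i+1) (by omega)
  ca := ((isTL_er d M).far i (i+2) (by omega) (by omega)).symm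

/-- the trace of the element `ZZ` -/
theorem tr_ZZ (hd : d ^ 2 = d + 1) (i : ℕ) (hi : i + 3 < M) :
    tr d M (ZZ (d - 1) (er d M i) (er d M (i+1)) (er d M (i+2))) = 0 := by
  have t := t4_er (d := d) i hi
  set a := er d M i with ha
  set b := er d M (i+1) with hb
  set c := er d M (i+2) with hc
  set u := d - 1 with hu
  set D := tr d M 1 with hD
  have t1 : ∀ k, k + 1 < M → tr d M (er d M k) = u * D := by
    intro k hk
    have := trR (M := M) hd k hk (1 : RR d M) (one_mem _)
    rwa [one_mul] at this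
  have ta : tr d M a = u * D := t1 i (by omega)
  have tb : tr d M b = u * D := t1 (i+1) (by omega)
  have tc : tr d M c = u * D := t1 (i+2) (by omega)
  have tac : tr d M (a * c) = u ^ 2 * D := by
    rw [trR hd (i+2) (by omega) a (SAe i (by omega)), ta]; ring
  have tab : tr d M (a * b) = u ^ 2 * D := by
    rw [trR hd (i+1) (by omega) a (SAe i (by omega)), ta]; ring
  have tba : tr d M (b * a) = u ^ 2 * D := by
    rw [tr_comm, tab]
  have tcb : tr d M (c * b) = u ^ 2 * D := by
    rw [tr_comm, trR hd (i+2) (by omega) b (SAe (i+1) (by omega)), tb]; ring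
  have tacb : tr d M (a * (c * b)) = u ^ 3 * D := by
    rw [← mul_assoc, tr_comm, ← mul_assoc, trR hd (i+2) (by omega) (b * a)
      (mul_mem (SAe (i+1) (by omega)) (SAe i (by omega))), tba]; ring
  have tN : tr d M (NN a b c) = u ^ 2 * D := by
    unfold NN
    rw [tr_comm, mul_assoc, mul_assoc, t.bb, mul_smul_comm, mul_smul_comm, map_smul, tacb, smul_eq_mul]
    linear_combination u ^ 2 * D * inv_d hd
  have taN : tr d M (a * NN a b c) = u ^ 3 * D := by
    have : a * NN a b c = a * (c * b) := by unfold NN; rw [t.aba']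
    rw [this, tacb]
  have tcN : tr d M (c * NN a b c) = u ^ 3 * D := by
    rw [← a_NN t, taN]
  have tacN : tr d M (a * (c * NN a b c)) = u ^ 2 * D := by
    have : a * (c * NN a b c) = d • (a * (c * b)) := by
      unfold NN
      rw [t.cbac', ← mul_assoc a a, t.aa, smul_mul_assoc]
    rw [this, map_smul, tacb, smul_eq_mul]
    linear_combination u ^ 2 * D * inv_d hd
  have f1 : tr d M (F2 u a c * b * F2 u a c) = tr d M (F2 u a c * b) := by
    rw [tr_comm, ← mul_assoc, F2_F2 t hd]
  have f2 : tr d M (F2 u a c * NN a b c * F2 u a c) = tr d M (F2 u a c * NN a b c) := by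
    rw [tr_comm, ← mul_assoc, F2_F2 t hd]
  have f3 : tr d M (F2 u a c) = (1 - u ^ 2) ^ 2 * D := by
    have : F2 u a c = 1 - u • a - u • c + (u ^ 2) • (a * c) := by
      unfold F2
      simp only [mul_sub, sub_mul, mul_one, one_mul, smul_mul_assoc, mul_smul_comm]
      module
    rw [this]
    simp only [map_add, map_sub, map_smul, smul_eq_mul, ta, tc, tac]
    ring
  have f4 : tr d M (F2 u a c * b) = (u - 2 * u ^ 3 + u ^ 5) * D := by
    have : F2 u a c * b = b - u • (a * b) - u • (c * b) + (u ^ 2) • (a * (c * b)) := by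
      unfold F2
      simp only [mul_sub, sub_mul, mul_one, one_mul, smul_mul_assoc, mul_smul_comm, mul_assoc]
      module
    rw [this]
    simp only [map_add, map_sub, map_smul, smul_eq_mul, tb, tab, tcb, tacb]
    ring
  have f5 : tr d M (F2 u a c * NN a b c) = (u ^ 2 - 2 * u ^ 4 + u ^ 4) * D := by
    have : F2 u a c * NN a b c = NN a b c - u • (a * NN a b c) - u • (c * NN a b c) +
        (u ^ 2) • (a * (c * NN a b c)) := by
      unfold F2
      simp only [mul_sub, sub_mul, mul_one, one_mul, smul_mul_assoc, mul_smul_comm, mul_assoc]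
      module
    rw [this]
    simp only [map_add, map_sub, map_smul, smul_eq_mul, tN, taN, tcN, tacN]
    ring
  unfold ZZ
  rw [map_sub, map_sub, map_smul, map_smul, f1, f2, f3, f4, f5, smul_eq_mul, smul_eq_mul]
  have hu2 : u ^ 2 = 1 - u := by rw [hu]; linear_combination hd
  have : u - 2 * u ^ 3 + u ^ 5 - u ^ 2 * (1 - u ^ 2) ^ 2 - u ^ 2 * (u ^ 2 - 2 * u ^ 4 + u ^ 4) = 0 := by
    linear_combination (u ^ 3 - u) * hu2
  linear_combination D * this

theorem isTL_mono {R : Type*} [Ring R] [Algebra ℂ R] {N N' : ℕ} {e : ℕ → R} (h : IsTL N d e) (hN : N' ≤ N) :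
    IsTL N' d e where
  sq i hi := h.sq i (by omega)
  up i hi := h.up i (by omega)
  down i hi := h.down i (by omega)
  far i j hj hij := h.far i j (by omega) hij

/-- the element `ZZ` at the place `i` -/
noncomputable def Zi (d : ℂ) (M : ℕ) (i : ℕ) : RR d M := ZZ (d - 1) (er d M i) (er d M (i+1)) (er d M (i+2))

theorem Zi_mem {P : ℕ → Prop} (i : ℕ) (h0 : P i) (h1 : P (i+1)) (h2 : P (i+2)) : Zi d M i ∈ SA d M P :=
  ZZ_mem _ (SAe i h0) (SAe (i+1) h1) (SAe (i+2) h2)

theorem Zi_word (hd : d ^ 2 = d + 1) (i : ℕ) (hi : i + 3 < M) (L : List ℕ)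
    (hL : ∀ j ∈ L, i ≤ j ∧ j ≤ i + 2) : tr d M (Zi d M i * WP (er d M) L) = 0 := by
  have t := t4_er (d := d) i hi
  rcases L with _ | ⟨k, L⟩
  · rw [WP_nil, mul_one]
    exact tr_ZZ hd i hi
  · have hk := hL k List.mem_cons_self
    have hz : Zi d M i * er d M k = 0 := by
      obtain h | h | h : k = i ∨ k = i + 1 ∨ k = i + 2 := by omega
      · rw [h]; exact Z_a t hd
      · rw [h]; exact Z_b t hd
      · rw [h]; exact Z_c t hd
    rw [WP_cons, ← mul_assoc, hz, zero_mul, map_zero]

theorem Zi_bottom (hd : d ^ 2 = d + 1) (i : ℕ) (hi : i + 3 < M) : ∀ n k, k + n = i → ∀ L : List ℕ,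
    (∀ j ∈ L, k ≤ j ∧ j ≤ i + 2) → tr d M (Zi d M i * WP (er d M) L) = 0 := by
  intro n
  induction n with
  | zero =>
    intro k hk L hL
    exact Zi_word hd i hi L (fun j hj => by have := hL j hj; omega)
  | succ n ih =>
    intro k hk L hL
    have hT : IsTL (i + 4) d (er d M) := isTL_mono (isTL_er d M) (by omega)
    rcases propCr (ι := Unit) (R := fun _ => RR d M) (d := fun _ => d) (e := fun _ => er d M)
      (fun _ => hT) k (by omega) L (fun j hj => by have := hL j hj; omega) with h | ⟨b, L1, L2, h1, h2, -, -, h3⟩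
    · exact ih (k+1) (by omega) L (fun j hj => by have := hL j hj; have := h j hj; omega)
    · rw [h3 (), mul_smul_comm, map_smul]
      have e1 : tr d M (Zi d M i * (WP (er d M) L1 * er d M k * WP (er d M) L2)) =
          (d - 1) * tr d M (Zi d M i * WP (er d M) (L1 ++ L2)) := by
        have e2 : Zi d M i * (WP (er d M) L1 * er d M k * WP (er d M) L2) =
            (Zi d M i * WP (er d M) L1 * er d M k) * WP (er d M) L2 := by simp only [mul_assoc]
        have e3 : WP (er d M) L2 * (Zi d M i * WP (er d M) L1 * er d M k) =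
          (WP (er d M) L2 * (Zi d M i * WP (er d M) L1)) * er d M k := by simp only [mul_assoc]
        rw [e2, tr_comm, e3, trL hd k (by omega), tr_comm, WP_append, mul_assoc]
        refine mul_mem (WP_mem L2 (fun j hj => ?_)) (mul_mem (Zi_mem i ?_ ?_ ?_) (WP_mem L1 (fun j hj => ?_)))
        · have := h2 j hj; omega
        · omega
        · omega
        · omega
        · have := h1 j hj; omega
      rw [e1, ih (k+1) (by omega) (L1 ++ L2), mul_zero, smul_zero]
      intro j hj
      rcases List.mem_append.1 hj with hj | hj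
      · have := h1 j hj; omega
      · have := h2 j hj; omega

theorem Zi_top (hd : d ^ 2 = d + 1) (i : ℕ) (hi : i + 3 < M) : ∀ n, ∀ L : List ℕ,
    (∀ j ∈ L, j < i + 3 + n ∧ j + 1 < M) → tr d M (Zi d M i * WP (er d M) L) = 0 := by
  intro n
  induction n with
  | zero =>
    intro L hL
    exact Zi_bottom hd i hi i 0 (by omega) L (fun j hj => by have := hL j hj; omega)
  | succ n ih =>
    intro L hL
    by_cases hM : i + 3 + n + 1 < M
    · rcases propC (ι := Unit) (R := fun _ => RR d M) (d := fun _ => d) (e := fun _ => er d M)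
        (fun _ => isTL_er d M) (i + 3 + n) hM L (fun j hj => by have := hL j hj; omega) with
        h | ⟨b, L1, L2, h1, h2, -, h3⟩
      · exact ih L (fun j hj => by have := hL j hj; have := h j hj; omega)
      · rw [h3 (), mul_smul_comm, map_smul]
        have e1 : tr d M (Zi d M i * (WP (er d M) L1 * er d M (i + 3 + n) * WP (er d M) L2)) =
            (d - 1) * tr d M (Zi d M i * WP (er d M) (L1 ++ L2)) := by
          have e2 : Zi d M i * (WP (er d M) L1 * er d M (i + 3 + n) * WP (er d M) L2) =
              (Zi d M i * WP (er d M) L1 * er d M (i + 3 + n)) * WP (er d M) L2 := by simp only [mul_assoc]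
          have e3 : WP (er d M) L2 * (Zi d M i * WP (er d M) L1 * er d M (i + 3 + n)) =
            (WP (er d M) L2 * (Zi d M i * WP (er d M) L1)) * er d M (i + 3 + n) := by simp only [mul_assoc]
          rw [e2, tr_comm, e3, trR hd (i + 3 + n) (by omega), tr_comm, WP_append, mul_assoc]
          refine mul_mem (WP_mem L2 (fun j hj => ?_)) (mul_mem (Zi_mem i ?_ ?_ ?_) (WP_mem L1 (fun j hj => ?_)))
          · have := h2 j hj; omega
          · omega
          · omega
          · omega
          · have := h1 j hj; omega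
        rw [e1, ih (L1 ++ L2), mul_zero, smul_zero]
        intro j hj
        rcases List.mem_append.1 hj with hj | hj
        · have := h1 j hj; omega
        · have := h2 j hj; omega
    · exact ih L (fun j hj => by have := hL j hj; omega)

/-- `ZZ = 0` modulo the radical of the trace -/
theorem Zi_zero (hd : d ^ 2 = d + 1) (i : ℕ) (hi : i + 3 < M) : Zi d M i = 0 := by
  apply zero_of_tr
  intro L hL
  exact Zi_top hd i hi M L (fun j hj => by have := hL j hj; omega)

end neg

end Pool.Agent.V8H83.WD
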