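import Pool.Agent.V8H83.WD.Word

/-!
# Closing all strands except the first two
-/

set_option autoImplicit false

namespace Pool.Agent.V8H83.WD

open Pool.Agent.H891R2.Jones Pool.Agent.W639.RB Pool.Agent.TH561 Pool.Agent.N569.TW Finset

section red

variable {M : ℕ}

/-- the word of the generators with at most one letter -/
def ew (ε : Bool) : List ℕ := if ε then [0] else []

theorem trace_step {I : Type*} [Fintype I] [DecidableEq I] {A B C D Θ : Matrix I I ℂ} {c : ℂ}
    (h : D = c • (A * B * C)) : Matrix.trace (D * Θ) = c * Matrix.trace (C * Θ * A * B) := by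
  rw [h, smul_mul_assoc, Matrix.trace_smul, smul_eq_mul]
  congr 1
  rw [mul_assoc (A * B), Matrix.trace_mul_comm, mul_assoc (C * Θ)]

theorem num_step {N x y z : ℂ} (hN : N ≠ 0) {a b k : ℕ} (h7 : N * x = y) (h6 : N ^ a * y = N ^ k * z)
    (hbk : 1 ≤ b + k) : N ^ a * (N ^ b * x) = N ^ (b + k - 1) * z := by
  apply mul_left_cancel₀ hN
  obtain ⟨c, hc⟩ : ∃ c, b + k = c + 1 := ⟨b + k - 1, by omega⟩
  have : N * (N ^ c * z) = N ^ b * (N ^ k * z) := by
    rw [← mul_assoc, ← mul_assoc, ← pow_succ', ← pow_add, hc]
  rw [hc, Nat.add_sub_cancel, this, ← h6, ← h7]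
  ring

theorem red (r : ℕ) : 1 ≤ r → r + 1 ≤ M → ∀ L : List ℕ, (∀ i ∈ L, i < r) →
    ∃ (k : ℕ) (ε : Bool), M ≤ k + 1 + r ∧ ∀ N : ℕ, N ≠ 0 →
      ∀ Θ : Matrix (Fin M → Fin N) (Fin M → Fin N) ℂ, (∀ s : Fin M, 2 ≤ (s : ℕ) → Θ ∈ Loc N s) →
      (N : ℂ) ^ (M - 2) * Matrix.trace (WP (KK M N) L * Θ) =
        (N : ℂ) ^ k * Matrix.trace (WP (KK M N) (ew ε) * Θ) := by
  induction r with
  | zero => intro h; omega
  | succ r ih =>
    intro _ hM L hL
    rcases Nat.eq_zero_or_pos r with h0 | h0
    · subst h0
      clear ih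
      induction L with
      | nil => exact ⟨M - 2, false, by omega, fun N hN Θ _ => rfl⟩
      | cons i L ih =>
        obtain ⟨k, ε, h1, h2⟩ := ih (fun j hj => hL j (List.mem_cons_of_mem _ hj))
        have hi : i = 0 := by have := hL i List.mem_cons_self; omega
        subst hi
        have hL0 : ∀ i ∈ L, i = 0 := fun j hj => by have := hL j (List.mem_cons_of_mem _ hj); omega
        have hrep : L = List.replicate L.length 0 := List.eq_replicate_iff.2 ⟨rfl, hL0⟩
        rcases hn : L.length with _ | n
        · have hnil : L = [] := List.length_eq_zero_iff.1 hn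
          subst hnil
          exact ⟨M - 2, true, by omega, fun N hN Θ _ => rfl⟩
        · refine ⟨M - 2 + (n + 1), true, by omega, fun N hN Θ _ => ?_⟩
          have hsq := (isTL_KK M N).sq 0 (by omega)
          have hw : ∀ n : ℕ, WP (KK M N) (List.replicate (n + 1) 0) = (N : ℂ) ^ n • KK M N 0 := by
            intro n
            induction n with
            | zero => simp [WP]
            | succ n ihn =>
              rw [List.replicate_succ, WP_cons, ihn, mul_smul_comm, hsq, smul_smul, pow_succ]
          have hL2 : WP (KK M N) (0 :: L) = (N : ℂ) ^ (n + 1) • KK M N 0 := by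
            rw [hrep, hn, ← List.replicate_succ, hw]
          have hew : WP (KK M N) (ew true) = KK M N 0 := by simp [ew, WP]
          rw [hL2, hew, smul_mul_assoc, Matrix.trace_smul, smul_eq_mul, pow_add (N : ℂ) (M - 2), mul_assoc]
    · have hC := propC (ι := ℕ) (R := fun N => Matrix (Fin M → Fin N) (Fin M → Fin N) ℂ)
        (d := fun N => (N : ℂ)) (e := fun N => KK M N) (fun N => isTL_KK M N) r (by omega) L
        (fun i hi => by have := hL i hi; omega)
      rcases hC with h1 | ⟨b, L1, L2, h1, h2, -, h3⟩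
      · obtain ⟨k, ε, h4, h5⟩ := ih h0 (by omega) L h1
        exact ⟨k, ε, by omega, h5⟩
      · obtain ⟨k, ε, h4, h5⟩ := ih h0 (by omega) (L1 ++ L2) (by
          intro i hi
          rcases List.mem_append.1 hi with hi | hi
          · exact h1 i hi
          · exact h2 i hi)
        refine ⟨b + k - 1, ε, by omega, fun N hN Θ hΘ => ?_⟩
        have hN' : (N : ℂ) ≠ 0 := by exact_mod_cast hN
        have h6 := h5 N hN Θ hΘ
        have hloc : WP (KK M N) L2 * Θ * WP (KK M N) L1 ∈ Loc N (⟨r + 1, by omega⟩ : Fin M) := by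
          refine mul_mem (mul_mem (WP_loc _ _ ?_) (hΘ _ (by show 2 ≤ r + 1; omega))) (WP_loc _ _ ?_)
          · intro i hi
            have := h2 i hi
            refine ⟨by omega, ?_, ?_⟩
            · show i ≠ r + 1
              omega
            · show i + 1 ≠ r + 1
              omega
          · intro i hi
            have := h1 i hi
            refine ⟨by omega, ?_, ?_⟩
            · show i ≠ r + 1
              omega
            · show i + 1 ≠ r + 1
              omega
        have h7 := markov3 (M := M) hN r (by omega) _ hloc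
        have e1 : Matrix.trace (WP (KK M N) L * Θ) =
            (N : ℂ) ^ b * Matrix.trace (WP (KK M N) L2 * Θ * WP (KK M N) L1 * KK M N r) :=
          trace_step (h3 N)
        have e2 : Matrix.trace (WP (KK M N) L2 * Θ * WP (KK M N) L1) =
            Matrix.trace (WP (KK M N) (L1 ++ L2) * Θ) := by
          rw [Matrix.trace_mul_comm, WP_append, mul_assoc]
        rw [e2] at h7
        rw [e1]
        exact num_step hN' h7 h6 (by omega)

theorem exists_red (hM : 2 ≤ M) (L : List ℕ) (hL : ∀ i ∈ L, i + 1 < M) :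
    ∃ (k : ℕ) (ε : Bool), lam M L = k + (if ε then 1 else 2) ∧ lam M (L ++ [0]) = k + (if ε then 2 else 1) ∧
      ∀ N : ℕ, N ≠ 0 →
      ∀ Θ : Matrix (Fin M → Fin N) (Fin M → Fin N) ℂ, (∀ s : Fin M, 2 ≤ (s : ℕ) → Θ ∈ Loc N s) →
      (N : ℂ) ^ (M - 2) * Matrix.trace (WP (KK M N) L * Θ) =
        (N : ℂ) ^ k * Matrix.trace (WP (KK M N) (ew ε) * Θ) := by
  obtain ⟨k, ε, -, h1⟩ := red (M := M) (M - 1) (by omega) (by omega) L (fun i hi => by
    have := hL i hi; omega)
  refine ⟨k, ε, ?_, ?_, h1⟩
  · have h2 := h1 2 (by norm_num) 1 (fun s _ => one_mem _)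
    have hew : ∀ i ∈ ew ε, i + 1 < M := by
      intro i hi
      cases ε
      · simp [ew] at hi
      · simp [ew] at hi
        omega
    rw [mul_one, mul_one] at h2
    have t2 := trace_two L hL
    have t3 := trace_two (ew ε) hew
    have h2' : (2 : ℂ) ^ (M - 2) * (2 : ℂ) ^ lam M L = (2 : ℂ) ^ k * (2 : ℂ) ^ lam M (ew ε) := by
      rw [← t2, ← t3]
      exact_mod_cast h2
    rw [← pow_add, ← pow_add] at h2'
    have h3 : (2 : ℕ) ^ (M - 2 + lam M L) = 2 ^ (k + lam M (ew ε)) := by exact_mod_cast h2'
    have h4 := Nat.pow_right_injective le_rfl h3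
    have h5 : lam M (ew ε) + (if ε then 1 else 0) = M := by
      cases ε
      · simp only [ew]
        simpa using lam_nil' (M := M)
      · have := lam_markov (M := M) 0 [] (by omega) (by simp)
        rw [lam_nil'] at this
        simp only [ew, if_true]
        have e : ([] : List ℕ) ++ [0] = [0] := rfl
        rw [e] at this
        omega
    cases ε <;> simp at h5 ⊢ <;> omega
  · have h2 := h1 2 (by norm_num) (KK M 2 0) (fun s hs => KK_loc s 0 (by omega)
      (fun h => by rw [← h] at hs; simp at hs) (fun h => by rw [← h] at hs; simp at hs))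
    have hew : ∀ i ∈ ew ε ++ [0], i + 1 < M := by
      intro i hi
      cases ε
      · simp [ew] at hi
        omega
      · simp [ew] at hi
        omega
    have hL' : ∀ i ∈ L ++ [0], i + 1 < M := by
      intro i hi
      rcases List.mem_append.1 hi with hi | hi
      · exact hL i hi
      · simp at hi; omega
    have t2 := trace_two (L ++ [0]) hL'
    have t3 := trace_two (ew ε ++ [0]) hew
    rw [WP_append] at t2 t3
    have w0 : WP (KK M 2) [0] = KK M 2 0 := by simp [WP]
    rw [w0] at t2 t3
    have h2' : (2 : ℂ) ^ (M - 2) * (2 : ℂ) ^ lam M (L ++ [0]) = (2 : ℂ) ^ k * (2 : ℂ) ^ lam M (ew ε ++ [0]) := by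
      rw [← t2, ← t3]
      exact_mod_cast h2
    rw [← pow_add, ← pow_add] at h2'
    have h3 : (2 : ℕ) ^ (M - 2 + lam M (L ++ [0])) = 2 ^ (k + lam M (ew ε ++ [0])) := by exact_mod_cast h2'
    have h4 := Nat.pow_right_injective le_rfl h3
    have h6 : M = 1 + lam M [0] := by
      have := lam_markov (M := M) 0 [] (by omega) (by simp)
      rw [lam_nil'] at this
      exact this
    have h5 : lam M (ew ε ++ [0]) + 1 = M + (if ε then 1 else 0) := by
      cases ε
      · simp only [ew]
        have e : (if false = true then [0] else []) ++ [0] = ([0] : List ℕ) := rfl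
        rw [e]
        simp
        omega
      · have h7 := lam_sq (M := M) [] [] 0 (by omega) (by simp)
        have e : ew true ++ [0] = [] ++ [0, 0] ++ [] := rfl
        rw [e, h7]
        have e2 : ([] : List ℕ) ++ [0] ++ [] = [0] := rfl
        rw [e2]
        simp
        omega
    cases ε <;> simp at h5 ⊢ <;> omega

end red

end Pool.Agent.V8H83.WD
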