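import Pool.Agent.V8H83.WD.Clasp
import Pool.Agent.N569.TW.Final

/-!
# The value of the normalised bracket of a satellite at a fifth root of unity
-/

set_option autoImplicit false

namespace Pool.Agent.V8H83.WD

open Pool.Agent.H891R2.Jones Pool.Agent.W639.RB Pool.Agent.TH561 Pool.Agent.N569.TW Finset LaurentPolynomial

/-- the normalised bracket of the diagram in which the box is filled with a cup and a cap -/
noncomputable def cutF (O : Outer 2) : ℤ[T;T⁻¹] :=
  (if Even O.close.writhe then 1 else -1) * LaurentPolynomial.T (-3 * O.close.writhe) * cutBr O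

section sat

variable {ζ d : ℂ} {m : ℕ}

theorem len_parity (w : List (Bool × ℕ)) : Even (expo w) ↔ Even w.length := by
  induction w with
  | nil => simp [expo]
  | cons x w ih =>
    rw [expo_cons, List.length_cons]
    rcases sgn_cases x with h | h <;> rw [h] <;> simp only [Int.even_add, Nat.even_add_one, ih]
    · simp
    · simp

theorem neg_one_len (w : List (Bool × ℕ)) : (-1 : ℂ) ^ w.length = if Even (expo w) then 1 else -1 := by
  by_cases h : Even w.length
  · rw [h.neg_one_pow, if_pos ((len_parity w).2 h)]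
  · rw [(Nat.not_even_iff_odd.1 h).neg_one_pow, if_neg (fun h' => h ((len_parity w).1 h'))]

theorem solve2 {x y q f d : ℂ} (hd : d ^ 2 = d + 1) (h0 : d ≠ 0) (h1 : d ^ 2 * x + d * y = q * (1 + d * f))
    (h2 : d * x + d ^ 2 * y = q * d) : x = q * f ∧ d * y = q * (1 - f) := by
  constructor
  · apply mul_left_cancel₀ (pow_ne_zero 2 h0)
    linear_combination d * h1 - h2 + (-d * x - x + x * d) * hd + x * hd * (1 - d) + 0 * hd
  · apply mul_left_cancel₀ h0
    linear_combination d * h2 - h1 + (-d * y) * hd + q * hd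

theorem even_add_two (a b : ℤ) : Even (a + 2 * b) ↔ Even a := by
  rw [Int.even_add]
  simp

/-- the value of the state sum with twists -/
theorem values (hm : 0 < m) (h0 : ζ ≠ 0) (hz : 1 + ζ + ζ ^ 2 + ζ ^ 3 + ζ ^ 4 = 0) (hd : d = -ζ ^ 2 - ζ ^ 3)
    (w : List (Bool × ℕ)) (hw : ∀ x ∈ w, x.2 + 1 < m) (hcyc : ∀ k, k < m → ∃ i : ℕ, (pm w)^[i] 0 = k) :
    evz ζ h0 (XW m (dbl w)) = ζ ^ (expo w) * evz ζ h0 (draw (braidClosure m) w).close.fPoly ∧
    d * evz ζ h0 (YW m (dbl w)) = ζ ^ (expo w) * (1 - evz ζ h0 (draw (braidClosure m) w).close.fPoly) := by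
  obtain ⟨k1, k2, k3⟩ := y_inv hz hd
  have h5 : ζ ^ 5 = 1 := by linear_combination (ζ - 1) * hz
  have hW := dbl_mem hm w hw
  set e := expo w with he
  set q := ζ ^ e with hq
  have hq0 : q ≠ 0 := zpow_ne_zero _ h0
  have hq5 : q ^ 5 = 1 := by
    rw [hq, ← zpow_natCast, ← zpow_mul, mul_comm, zpow_mul]
    have : ζ ^ ((5 : ℕ) : ℤ) = 1 := by rw [zpow_natCast]; exact h5
    rw [this, one_zpow]
  -- the bracket of the knot
  set b := evz ζ h0 (draw (braidClosure m) w).close.bracket with hb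
  have hSm : Sm ζ d m w = d * b := by
    have h1 := congrArg (evz ζ h0) (bracket_terms hm w hw)
    rw [map_mul, evz_dl h0 hz hd, evz_sum h0 hz hd (terms w) (fun L => lam m L)] at h1
    exact h1.symm
  set s : ℂ := if Even e then 1 else -1 with hs
  have hss : s * s = 1 := by rw [hs]; split_ifs <;> norm_num
  set f := evz ζ h0 (draw (braidClosure m) w).close.fPoly with hf
  have hfb : f = s * q ^ 2 * b := by
    rw [hf]
    unfold Diagram.fPoly
    rw [writhe_eq w hw, map_mul, map_mul, evz_T, ← hb, ← he]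
    have e1 : ζ ^ (-3 * e) = q ^ 2 := by
      have : ζ ^ (-3 * e) = (q ^ 3)⁻¹ := by
        rw [mul_comm, zpow_mul, ← hq, zpow_neg]
        norm_cast
      rw [this]
      exact inv_eq_of_mul_eq_one_right (by linear_combination hq5)
    rw [e1]
    congr 2
    rw [hs]
    split_ifs
    · rw [map_one]
    · rw [map_neg, map_one]
  -- the two traces
  obtain ⟨t0, t1⟩ := tr_full hm hz hd w hw hcyc (decide (e < 0)) (2 * e.natAbs)
  have hsg := sgn_twl w
  rw [← he] at hsg
  set g := sgn (decide (e < 0), 0) with hg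
  have hg1 : (ζ ^ g) ^ (2 * e.natAbs) = q ^ 3 := by
    rw [← zpow_natCast, ← zpow_mul, Nat.cast_mul, Nat.cast_ofNat]
    rw [hsg, mul_comm, zpow_mul, ← hq, zpow_neg]
    have : q ^ (2 : ℤ) = q ^ 2 := by norm_cast
    rw [this]
    exact inv_eq_of_mul_eq_one_right (by linear_combination hq5)
  have hg2 : (-ζ ^ (-3 * g)) ^ (2 * e.natAbs) = q := by
    rw [(even_two_mul _).neg_pow, ← zpow_natCast, ← zpow_mul, Nat.cast_mul, Nat.cast_ofNat]
    have e2 : -3 * g * (2 * (e.natAbs : ℤ)) = e * 6 := by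
      have : -3 * g * (2 * (e.natAbs : ℤ)) = -3 * (g * (2 * (e.natAbs : ℤ))) := by ring
      rw [this, hsg]
      ring
    rw [e2, zpow_mul, ← hq]
    have : q ^ (6 : ℤ) = q ^ 6 := by norm_cast
    rw [this]
    linear_combination q * hq5
  have hdbl : cab w ++ tws (decide (e < 0)) (2 * e.natAbs) = dbl w := rfl
  rw [hdbl, hg1, hg2, neg_one_len, ← he, ← hs, hSm] at t0
  rw [hdbl, hg2] at t1
  rw [tr_MG h0 (2 * m) (dbl w) hW] at t0
  rw [tr_MG0 h0 (2 * m) (by omega) (dbl w) hW] at t1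
  obtain ⟨r1, r2⟩ := XY_rel hm (dbl w) hW
  have r1' := congrArg (evz ζ h0) r1
  have r2' := congrArg (evz ζ h0) r2
  rw [map_add, map_mul, map_mul, map_pow, evz_dl h0 hz hd, evz_sum h0 hz hd (terms (dbl w)) (fun L => lam (2 * m) L),
    t0] at r1'
  rw [map_add, map_mul, map_mul, map_pow, evz_dl h0 hz hd,
    evz_sum h0 hz hd (terms (dbl w)) (fun L => lam (2 * m) (L ++ [0])), t1] at r2'
  refine solve2 k3 (d_ne k3) ?_ r2'
  rw [r1']
  have hb' : s * b = q ^ 3 * f := by
    rw [hfb]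
    linear_combination (-s * b) * hq5
  linear_combination (d * q ^ 3) * hb' + (d * q * f) * hq5

/-- **The value of the normalised bracket of a satellite of wrapping number two.** -/
theorem sat_main (hm : 0 < m) (h0 : ζ ≠ 0) (hz : 1 + ζ + ζ ^ 2 + ζ ^ 3 + ζ ^ 4 = 0) (hd : d = -ζ ^ 2 - ζ ^ 3)
    (O : Outer 2) (w : List (Bool × ℕ)) (hw : ∀ x ∈ w, x.2 + 1 < m)
    (hcyc : ∀ k, k < m → ∃ i : ℕ, (pm w)^[i] 0 = k) :
    evz ζ h0 (draw (ext m O) (dbl w)).close.fPoly =
      evz ζ h0 (draw (braidClosure m) w).close.fPoly * evz ζ h0 O.close.fPoly +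
      (1 - evz ζ h0 (draw (braidClosure m) w).close.fPoly) * (evz ζ h0 (cutF O) / d) := by
  obtain ⟨v1, v2⟩ := values hm h0 hz hd w hw hcyc
  obtain ⟨k1, k2, k3⟩ := y_inv hz hd
  have hd0 := d_ne k3
  have h5 : ζ ^ 5 = 1 := by linear_combination (ζ - 1) * hz
  have hwr : (draw (ext m O) (dbl w)).close.writhe = O.close.writhe + 2 * expo w := by
    rw [close_writhe, close_writhe, (draw_dbl hm O w hw).1]
  set f := evz ζ h0 (draw (braidClosure m) w).close.fPoly with hf
  set q := ζ ^ expo w with hq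
  have hq0 : q ≠ 0 := zpow_ne_zero _ h0
  have hq5 : q ^ 5 = 1 := by
    rw [hq, ← zpow_natCast, ← zpow_mul, mul_comm, zpow_mul]
    have : ζ ^ ((5 : ℕ) : ℤ) = 1 := by rw [zpow_natCast]; exact h5
    rw [this, one_zpow]
  have e1 : ζ ^ (-3 * (O.close.writhe + 2 * expo w)) = ζ ^ (-3 * O.close.writhe) * q ^ 4 := by
    rw [mul_add, zpow_add₀ h0]
    congr 1
    have : -3 * (2 * expo w) = expo w * (-6) := by ring
    rw [this, zpow_mul, ← hq, zpow_neg]
    have h6 : q ^ (6 : ℤ) = q := by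
      have : q ^ (6 : ℤ) = q ^ 6 := by norm_cast
      rw [this]
      linear_combination q * hq5
    rw [h6]
    exact inv_eq_of_mul_eq_one_right (by linear_combination hq5)
  have e2 : evz ζ h0 ((if Even (O.close.writhe + 2 * expo w) then 1 else -1 : ℤ[T;T⁻¹])) =
      evz ζ h0 ((if Even O.close.writhe then 1 else -1 : ℤ[T;T⁻¹])) := by
    simp only [even_add_two]
  unfold Diagram.fPoly cutF
  rw [hwr, map_mul, map_mul, map_mul, map_mul, map_mul, map_mul, evz_T, evz_T, e1, e2,
    bracket_ext hm O (dbl w) (dbl_mem hm w hw), map_add, map_mul, map_mul, v1]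
  generalize evz ζ h0 ((if Even O.close.writhe then 1 else -1 : ℤ[T;T⁻¹])) = s
  generalize ζ ^ (-3 * O.close.writhe) = r
  generalize evz ζ h0 O.close.bracket = t
  generalize evz ζ h0 (cutBr O) = c
  generalize evz ζ h0 (YW m (dbl w)) = y at v2 ⊢
  field_simp
  linear_combination (s * r * q ^ 4 * c) * v2 + (s * r * f * t * d + s * r * c * (1 - f)) * hq5

end sat

end Pool.Agent.V8H83.WD
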