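import Mathlib

/-!
# Computations with three consecutive Temperley-Lieb generators at the fifth roots of unity
-/

set_option autoImplicit false

namespace Pool.Agent.V8H83.WD

/-- three consecutive Temperley-Lieb generators -/
structure T4 {R : Type*} [Ring R] [Algebra ℂ R] (d : ℂ) (a b c : R) : Prop where
  aa : a * a = d • a
  bb : b * b = d • b
  cc : c * c = d • c
  aba : a * (b * a) = a
  bab : b * (a * b) = b
  bcb : b * (c * b) = b
  cbc : c * (b * c) = c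
  ca : c * a = a * c

namespace T4

variable {R : Type*} [Ring R] [Algebra ℂ R] {d : ℂ} {a b c : R}

theorem aa' (h : T4 d a b c) (x : R) : a * (a * x) = d • (a * x) := by
  rw [← mul_assoc, h.aa, smul_mul_assoc]
theorem bb' (h : T4 d a b c) (x : R) : b * (b * x) = d • (b * x) := by
  rw [← mul_assoc, h.bb, smul_mul_assoc]
theorem cc' (h : T4 d a b c) (x : R) : c * (c * x) = d • (c * x) := by
  rw [← mul_assoc, h.cc, smul_mul_assoc]
theorem ca' (h : T4 d a b c) (x : R) : c * (a * x) = a * (c * x) := by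
  rw [← mul_assoc, h.ca, mul_assoc]
theorem aba' (h : T4 d a b c) (x : R) : a * (b * (a * x)) = a * x := by
  have := congrArg (· * x) h.aba
  simpa [mul_assoc] using this
theorem bab' (h : T4 d a b c) (x : R) : b * (a * (b * x)) = b * x := by
  have := congrArg (· * x) h.bab
  simpa [mul_assoc] using this
theorem bcb' (h : T4 d a b c) (x : R) : b * (c * (b * x)) = b * x := by
  have := congrArg (· * x) h.bcb
  simpa [mul_assoc] using this
theorem cbc' (h : T4 d a b c) (x : R) : c * (b * (c * x)) = c * x := by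
  have := congrArg (· * x) h.cbc
  simpa [mul_assoc] using this
theorem acba (h : T4 d a b c) : a * (c * (b * a)) = a * c := by
  rw [← h.ca', h.aba, h.ca]
theorem acba' (h : T4 d a b c) (x : R) : a * (c * (b * (a * x))) = a * (c * x) := by
  rw [← h.ca', h.aba', h.ca']
theorem cbac (h : T4 d a b c) : c * (b * (a * c)) = a * c := by
  rw [← h.ca, ← mul_assoc b, ← mul_assoc c, h.cbc, h.ca]
theorem cbac' (h : T4 d a b c) (x : R) : c * (b * (a * (c * x))) = a * (c * x) := by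
  rw [← h.ca', h.cbc', h.ca']

end T4

section main

variable {R : Type*} [Ring R] [Algebra ℂ R] {d u : ℂ} {a b c : R}

/-- the cup-cap of two doubled strands -/
def NN (a b c : R) : R := b * (a * (c * b))

/-- the projector of two doubled strands -/
def F2 (u : ℂ) (a c : R) : R := (1 - u • a) * (1 - u • c)

/-- the doubled crossing -/
def XX (x y : ℂ) (a b c : R) : R :=
  (x • (1 : R) + y • b) * ((x • (1 : R) + y • a) * ((x • (1 : R) + y • c) * (x • (1 : R) + y • b)))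

/-- the element which is zero modulo the radical -/
def ZZ (u : ℂ) (a b c : R) : R :=
  F2 u a c * b * F2 u a c - (u ^ 2) • F2 u a c - (u ^ 2) • (F2 u a c * NN a b c * F2 u a c)

theorem dpow (hd : d ^ 2 = d + 1) : d ^ 3 = 2 * d + 1 ∧ d ^ 4 = 3 * d + 2 ∧ d ^ 5 = 5 * d + 3 ∧
    d ^ 6 = 8 * d + 5 ∧ d ^ 7 = 13 * d + 8 ∧ d ^ 8 = 21 * d + 13 ∧ d ^ 9 = 34 * d + 21 ∧ d ^ 10 = 55 * d + 34 := by
  have h3 : d ^ 3 = 2 * d + 1 := by linear_combination (d + 1) * hd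
  have h4 : d ^ 4 = 3 * d + 2 := by linear_combination d * h3 + 2 * hd
  have h5 : d ^ 5 = 5 * d + 3 := by linear_combination d * h4 + 3 * hd
  have h6 : d ^ 6 = 8 * d + 5 := by linear_combination d * h5 + 5 * hd
  have h7 : d ^ 7 = 13 * d + 8 := by linear_combination d * h6 + 8 * hd
  have h8 : d ^ 8 = 21 * d + 13 := by linear_combination d * h7 + 13 * hd
  have h9 : d ^ 9 = 34 * d + 21 := by linear_combination d * h8 + 21 * hd
  have h10 : d ^ 10 = 55 * d + 34 := by linear_combination d * h9 + 34 * hd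
  exact ⟨h3, h4, h5, h6, h7, h8, h9, h10⟩

theorem F2_a (h : T4 d a b c) (hd : d ^ 2 = d + 1) : F2 (d - 1) a c * a = 0 := by
  unfold F2
  simp only [mul_assoc, add_mul, mul_add, sub_mul, mul_sub,
    smul_mul_assoc, mul_smul_comm, smul_add, smul_sub, smul_smul, one_mul, mul_one,
    h.aa, h.bb, h.cc, h.aba, h.bab, h.bcb, h.cbc, h.ca,
    h.aa', h.bb', h.cc', h.aba', h.bab', h.bcb', h.cbc', h.ca',
    h.acba, h.acba', h.cbac, h.cbac']
  obtain ⟨hd3, hd4, hd5, hd6, hd7, hd8, hd9, hd10⟩ := dpow hd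
  match_scalars <;> ring_nf <;> (try simp only [hd, hd3, hd4, hd5, hd6, hd7, hd8, hd9, hd10]) <;> (try ring)

theorem F2_c (h : T4 d a b c) (hd : d ^ 2 = d + 1) : F2 (d - 1) a c * c = 0 := by
  unfold F2
  simp only [mul_assoc, add_mul, mul_add, sub_mul, mul_sub,
    smul_mul_assoc, mul_smul_comm, smul_add, smul_sub, smul_smul, one_mul, mul_one,
    h.aa, h.bb, h.cc, h.aba, h.bab, h.bcb, h.cbc, h.ca,
    h.aa', h.bb', h.cc', h.aba', h.bab', h.bcb', h.cbc', h.ca',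
    h.acba, h.acba', h.cbac, h.cbac']
  obtain ⟨hd3, hd4, hd5, hd6, hd7, hd8, hd9, hd10⟩ := dpow hd
  match_scalars <;> ring_nf <;> (try simp only [hd, hd3, hd4, hd5, hd6, hd7, hd8, hd9, hd10]) <;> (try ring)

theorem a_F2 (h : T4 d a b c) (hd : d ^ 2 = d + 1) : a * F2 (d - 1) a c = 0 := by
  unfold F2
  simp only [mul_assoc, add_mul, mul_add, sub_mul, mul_sub,
    smul_mul_assoc, mul_smul_comm, smul_add, smul_sub, smul_smul, one_mul, mul_one,
    h.aa, h.bb, h.cc, h.aba, h.bab, h.bcb, h.cbc, h.ca,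
    h.aa', h.bb', h.cc', h.aba', h.bab', h.bcb', h.cbc', h.ca',
    h.acba, h.acba', h.cbac, h.cbac']
  obtain ⟨hd3, hd4, hd5, hd6, hd7, hd8, hd9, hd10⟩ := dpow hd
  match_scalars <;> ring_nf <;> (try simp only [hd, hd3, hd4, hd5, hd6, hd7, hd8, hd9, hd10]) <;> (try ring)

theorem c_F2 (h : T4 d a b c) (hd : d ^ 2 = d + 1) : c * F2 (d - 1) a c = 0 := by
  unfold F2
  simp only [mul_assoc, add_mul, mul_add, sub_mul, mul_sub,
    smul_mul_assoc, mul_smul_comm, smul_add, smul_sub, smul_smul, one_mul, mul_one,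
    h.aa, h.bb, h.cc, h.aba, h.bab, h.bcb, h.cbc, h.ca,
    h.aa', h.bb', h.cc', h.aba', h.bab', h.bcb', h.cbc', h.ca',
    h.acba, h.acba', h.cbac, h.cbac']
  obtain ⟨hd3, hd4, hd5, hd6, hd7, hd8, hd9, hd10⟩ := dpow hd
  match_scalars <;> ring_nf <;> (try simp only [hd, hd3, hd4, hd5, hd6, hd7, hd8, hd9, hd10]) <;> (try ring)

theorem F2_F2 (h : T4 d a b c) (hd : d ^ 2 = d + 1) : F2 (d - 1) a c * F2 (d - 1) a c = F2 (d - 1) a c := by
  unfold F2
  simp only [mul_assoc, add_mul, mul_add, sub_mul, mul_sub,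
    smul_mul_assoc, mul_smul_comm, smul_add, smul_sub, smul_smul, one_mul, mul_one,
    h.aa, h.bb, h.cc, h.aba, h.bab, h.bcb, h.cbc, h.ca,
    h.aa', h.bb', h.cc', h.aba', h.bab', h.bcb', h.cbc', h.ca',
    h.acba, h.acba', h.cbac, h.cbac']
  obtain ⟨hd3, hd4, hd5, hd6, hd7, hd8, hd9, hd10⟩ := dpow hd
  match_scalars <;> ring_nf <;> (try simp only [hd, hd3, hd4, hd5, hd6, hd7, hd8, hd9, hd10]) <;> (try ring)

theorem Z_a (h : T4 d a b c) (hd : d ^ 2 = d + 1) : ZZ (d - 1) a b c * a = 0 := by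
  unfold ZZ
  rw [sub_mul, sub_mul, smul_mul_assoc, smul_mul_assoc, mul_assoc, mul_assoc (F2 _ _ _ * _), F2_a h hd]
  simp

theorem Z_c (h : T4 d a b c) (hd : d ^ 2 = d + 1) : ZZ (d - 1) a b c * c = 0 := by
  unfold ZZ
  rw [sub_mul, sub_mul, smul_mul_assoc, smul_mul_assoc, mul_assoc, mul_assoc (F2 _ _ _ * _), F2_c h hd]
  simp

theorem bFb (h : T4 d a b c) (hd : d ^ 2 = d + 1) :
    b * (F2 (d - 1) a c * b) = ((d - 1) ^ 2) • (b + NN a b c) := by
  unfold F2 NN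
  simp only [mul_assoc, add_mul, mul_add, sub_mul, mul_sub,
    smul_mul_assoc, mul_smul_comm, smul_add, smul_sub, smul_smul, one_mul, mul_one,
    h.aa, h.bb, h.cc, h.aba, h.bab, h.bcb, h.cbc, h.ca,
    h.aa', h.bb', h.cc', h.aba', h.bab', h.bcb', h.cbc', h.ca',
    h.acba, h.acba', h.cbac, h.cbac']
  obtain ⟨hd3, hd4, hd5, hd6, hd7, hd8, hd9, hd10⟩ := dpow hd
  match_scalars <;> ring_nf <;> (try simp only [hd, hd3, hd4, hd5, hd6, hd7, hd8, hd9, hd10]) <;> (try ring)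

theorem NFb (h : T4 d a b c) (hd : d ^ 2 = d + 1) :
    NN a b c * (F2 (d - 1) a c * b) = NN a b c := by
  unfold F2 NN
  simp only [mul_assoc, add_mul, mul_add, sub_mul, mul_sub,
    smul_mul_assoc, mul_smul_comm, smul_add, smul_sub, smul_smul, one_mul, mul_one,
    h.aa, h.bb, h.cc, h.aba, h.bab, h.bcb, h.cbc, h.ca,
    h.aa', h.bb', h.cc', h.aba', h.bab', h.bcb', h.cbc', h.ca',
    h.acba, h.acba', h.cbac, h.cbac']
  obtain ⟨hd3, hd4, hd5, hd6, hd7, hd8, hd9, hd10⟩ := dpow hd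
  match_scalars <;> ring_nf <;> (try simp only [hd, hd3, hd4, hd5, hd6, hd7, hd8, hd9, hd10]) <;> (try ring)

theorem NFN (h : T4 d a b c) (hd : d ^ 2 = d + 1) :
    NN a b c * (F2 (d - 1) a c * NN a b c) = d • NN a b c := by
  unfold F2 NN
  simp only [mul_assoc, add_mul, mul_add, sub_mul, mul_sub,
    smul_mul_assoc, mul_smul_comm, smul_add, smul_sub, smul_smul, one_mul, mul_one,
    h.aa, h.bb, h.cc, h.aba, h.bab, h.bcb, h.cbc, h.ca,
    h.aa', h.bb', h.cc', h.aba', h.bab', h.bcb', h.cbc', h.ca',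
    h.acba, h.acba', h.cbac, h.cbac']
  obtain ⟨hd3, hd4, hd5, hd6, hd7, hd8, hd9, hd10⟩ := dpow hd
  match_scalars <;> ring_nf <;> (try simp only [hd, hd3, hd4, hd5, hd6, hd7, hd8, hd9, hd10]) <;> (try ring)

theorem Z_b (h : T4 d a b c) (hd : d ^ 2 = d + 1) : ZZ (d - 1) a b c * b = 0 := by
  unfold ZZ
  have h1 : F2 (d - 1) a c * b * F2 (d - 1) a c * b = F2 (d - 1) a c * (((d - 1) ^ 2) • (b + NN a b c)) := by
    rw [mul_assoc, mul_assoc, bFb h hd]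
  have h2 : F2 (d - 1) a c * NN a b c * F2 (d - 1) a c * b = F2 (d - 1) a c * NN a b c := by
    rw [mul_assoc, mul_assoc, NFb h hd]
  rw [sub_mul, sub_mul, smul_mul_assoc, smul_mul_assoc, h1, h2, mul_smul_comm, mul_add, smul_add]
  abel

theorem X_a (h : T4 d a b c) {x y : ℂ} (hxy : x * y = 1) (hd : d = -x ^ 2 - y ^ 2) :
    XX x y a b c * a = c * XX x y a b c := by
  unfold XX
  simp only [mul_assoc, add_mul, mul_add, sub_mul, mul_sub,
    smul_mul_assoc, mul_smul_comm, smul_add, smul_sub, smul_smul, one_mul, mul_one,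
    h.aa, h.bb, h.cc, h.aba, h.bab, h.bcb, h.cbc, h.ca,
    h.aa', h.bb', h.cc', h.aba', h.bab', h.bcb', h.cbc', h.ca',
    h.acba, h.acba', h.cbac, h.cbac']
  subst hd
  have hy : y = x⁻¹ := eq_inv_of_mul_eq_one_right hxy
  have hx : x ≠ 0 := left_ne_zero_of_mul_eq_one hxy
  subst hy
  match_scalars <;> field_simp <;> ring

theorem X_c (h : T4 d a b c) {x y : ℂ} (hxy : x * y = 1) (hd : d = -x ^ 2 - y ^ 2) :
    XX x y a b c * c = a * XX x y a b c := by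
  unfold XX
  simp only [mul_assoc, add_mul, mul_add, sub_mul, mul_sub,
    smul_mul_assoc, mul_smul_comm, smul_add, smul_sub, smul_smul, one_mul, mul_one,
    h.aa, h.bb, h.cc, h.aba, h.bab, h.bcb, h.cbc, h.ca,
    h.aa', h.bb', h.cc', h.aba', h.bab', h.bcb', h.cbc', h.ca',
    h.acba, h.acba', h.cbac, h.cbac']
  subst hd
  have hy : y = x⁻¹ := eq_inv_of_mul_eq_one_right hxy
  have hx : x ≠ 0 := left_ne_zero_of_mul_eq_one hxy
  subst hy
  match_scalars <;> field_simp <;> ring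

theorem X_ac (h : T4 d a b c) {x y : ℂ} (hxy : x * y = 1) (hd : d = -x ^ 2 - y ^ 2) :
    XX x y a b c * (a * c) = a * c := by
  unfold XX
  simp only [mul_assoc, add_mul, mul_add, sub_mul, mul_sub,
    smul_mul_assoc, mul_smul_comm, smul_add, smul_sub, smul_smul, one_mul, mul_one,
    h.aa, h.bb, h.cc, h.aba, h.bab, h.bcb, h.cbc, h.ca,
    h.aa', h.bb', h.cc', h.aba', h.bab', h.bcb', h.cbc', h.ca',
    h.acba, h.acba', h.cbac, h.cbac']
  subst hd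
  have hy : y = x⁻¹ := eq_inv_of_mul_eq_one_right hxy
  have hx : x ≠ 0 := left_ne_zero_of_mul_eq_one hxy
  subst hy
  match_scalars <;> field_simp <;> ring

theorem xpow {x : ℂ} (hx : 1 + x + x ^ 2 + x ^ 3 + x ^ 4 = 0) : x ^ 4 = (-1 - x - x ^ 2 - x ^ 3) ∧ x ^ 5 = 1 ∧ x ^ 6 = x ∧ x ^ 7 = x ^ 2 ∧ x ^ 8 = x ^ 3 ∧ x ^ 9 = (-1 - x - x ^ 2 - x ^ 3) ∧ x ^ 10 = 1 ∧ x ^ 11 = x ∧ x ^ 12 = x ^ 2 ∧ x ^ 13 = x ^ 3 ∧ x ^ 14 = (-1 - x - x ^ 2 - x ^ 3) ∧ x ^ 15 = 1 ∧ x ^ 16 = x ∧ x ^ 17 = x ^ 2 ∧ x ^ 18 = x ^ 3 ∧ x ^ 19 = (-1 - x - x ^ 2 - x ^ 3) ∧ x ^ 20 = 1 ∧ x ^ 21 = x ∧ x ^ 22 = x ^ 2 ∧ x ^ 23 = x ^ 3 ∧ x ^ 24 = (-1 - x - x ^ 2 - x ^ 3) ∧ x ^ 25 = 1 ∧ x ^ 26 = x ∧ x ^ 27 = x ^ 2 ∧ x ^ 28 = x ^ 3 ∧ x ^ 29 = (-1 - x - x ^ 2 - x ^ 3) ∧ x ^ 30 = 1 ∧ x ^ 31 = x ∧ x ^ 32 = x ^ 2 ∧ x ^ 33 = x ^ 3 ∧ x ^ 34 = (-1 - x - x ^ 2 - x ^ 3) ∧ x ^ 35 = 1 ∧ x ^ 36 = x ∧ x ^ 37 = x ^ 2 ∧ x ^ 38 = x ^ 3 ∧ x ^ 39 = (-1 - x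 - x ^ 2 - x ^ 3) ∧ x ^ 40 = 1 := by
  have h4 : x ^ 4 = (-1 - x - x ^ 2 - x ^ 3) := by linear_combination hx
  have h5 : x ^ 5 = 1 := by linear_combination (x - 1) * hx
  have h6 : x ^ 6 = x := by rw [show x ^ 6 = x ^ 1 * x ^ 5 by ring, h5]; ring
  have h7 : x ^ 7 = x ^ 2 := by rw [show x ^ 7 = x ^ 2 * x ^ 5 by ring, h5]; ring
  have h8 : x ^ 8 = x ^ 3 := by rw [show x ^ 8 = x ^ 3 * x ^ 5 by ring, h5]; ring
  have h9 : x ^ 9 = (-1 - x - x ^ 2 - x ^ 3) := by rw [show x ^ 9 = x ^ 4 * x ^ 5 by ring, h5, h4]; ring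
  have h10 : x ^ 10 = 1 := by rw [show x ^ 10 = x ^ 5 * x ^ 5 by ring, h5]; ring
  have h11 : x ^ 11 = x := by rw [show x ^ 11 = x ^ 6 * x ^ 5 by ring, h5, h6]; ring
  have h12 : x ^ 12 = x ^ 2 := by rw [show x ^ 12 = x ^ 7 * x ^ 5 by ring, h5, h7]; ring
  have h13 : x ^ 13 = x ^ 3 := by rw [show x ^ 13 = x ^ 8 * x ^ 5 by ring, h5, h8]; ring
  have h14 : x ^ 14 = (-1 - x - x ^ 2 - x ^ 3) := by rw [show x ^ 14 = x ^ 9 * x ^ 5 by ring, h5, h9]; ring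
  have h15 : x ^ 15 = 1 := by rw [show x ^ 15 = x ^ 10 * x ^ 5 by ring, h5, h10]; ring
  have h16 : x ^ 16 = x := by rw [show x ^ 16 = x ^ 11 * x ^ 5 by ring, h5, h11]; ring
  have h17 : x ^ 17 = x ^ 2 := by rw [show x ^ 17 = x ^ 12 * x ^ 5 by ring, h5, h12]; ring
  have h18 : x ^ 18 = x ^ 3 := by rw [show x ^ 18 = x ^ 13 * x ^ 5 by ring, h5, h13]; ring
  have h19 : x ^ 19 = (-1 - x - x ^ 2 - x ^ 3) := by rw [show x ^ 19 = x ^ 14 * x ^ 5 by ring, h5, h14]; ring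
  have h20 : x ^ 20 = 1 := by rw [show x ^ 20 = x ^ 15 * x ^ 5 by ring, h5, h15]; ring
  have h21 : x ^ 21 = x := by rw [show x ^ 21 = x ^ 16 * x ^ 5 by ring, h5, h16]; ring
  have h22 : x ^ 22 = x ^ 2 := by rw [show x ^ 22 = x ^ 17 * x ^ 5 by ring, h5, h17]; ring
  have h23 : x ^ 23 = x ^ 3 := by rw [show x ^ 23 = x ^ 18 * x ^ 5 by ring, h5, h18]; ring
  have h24 : x ^ 24 = (-1 - x - x ^ 2 - x ^ 3) := by rw [show x ^ 24 = x ^ 19 * x ^ 5 by ring, h5, h19]; ring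
  have h25 : x ^ 25 = 1 := by rw [show x ^ 25 = x ^ 20 * x ^ 5 by ring, h5, h20]; ring
  have h26 : x ^ 26 = x := by rw [show x ^ 26 = x ^ 21 * x ^ 5 by ring, h5, h21]; ring
  have h27 : x ^ 27 = x ^ 2 := by rw [show x ^ 27 = x ^ 22 * x ^ 5 by ring, h5, h22]; ring
  have h28 : x ^ 28 = x ^ 3 := by rw [show x ^ 28 = x ^ 23 * x ^ 5 by ring, h5, h23]; ring
  have h29 : x ^ 29 = (-1 - x - x ^ 2 - x ^ 3) := by rw [show x ^ 29 = x ^ 24 * x ^ 5 by ring, h5, h24]; ring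
  have h30 : x ^ 30 = 1 := by rw [show x ^ 30 = x ^ 25 * x ^ 5 by ring, h5, h25]; ring
  have h31 : x ^ 31 = x := by rw [show x ^ 31 = x ^ 26 * x ^ 5 by ring, h5, h26]; ring
  have h32 : x ^ 32 = x ^ 2 := by rw [show x ^ 32 = x ^ 27 * x ^ 5 by ring, h5, h27]; ring
  have h33 : x ^ 33 = x ^ 3 := by rw [show x ^ 33 = x ^ 28 * x ^ 5 by ring, h5, h28]; ring
  have h34 : x ^ 34 = (-1 - x - x ^ 2 - x ^ 3) := by rw [show x ^ 34 = x ^ 29 * x ^ 5 by ring, h5, h29]; ring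
  have h35 : x ^ 35 = 1 := by rw [show x ^ 35 = x ^ 30 * x ^ 5 by ring, h5, h30]; ring
  have h36 : x ^ 36 = x := by rw [show x ^ 36 = x ^ 31 * x ^ 5 by ring, h5, h31]; ring
  have h37 : x ^ 37 = x ^ 2 := by rw [show x ^ 37 = x ^ 32 * x ^ 5 by ring, h5, h32]; ring
  have h38 : x ^ 38 = x ^ 3 := by rw [show x ^ 38 = x ^ 33 * x ^ 5 by ring, h5, h33]; ring
  have h39 : x ^ 39 = (-1 - x - x ^ 2 - x ^ 3) := by rw [show x ^ 39 = x ^ 34 * x ^ 5 by ring, h5, h34]; ring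
  have h40 : x ^ 40 = 1 := by rw [show x ^ 40 = x ^ 35 * x ^ 5 by ring, h5, h35]; ring
  exact ⟨h4, h5, h6, h7, h8, h9, h10, h11, h12, h13, h14, h15, h16, h17, h18, h19, h20, h21, h22, h23, h24, h25, h26, h27, h28, h29, h30, h31, h32, h33, h34, h35, h36, h37, h38, h39, h40⟩

theorem FXF (h : T4 d a b c) {x : ℂ} (hx : 1 + x + x ^ 2 + x ^ 3 + x ^ 4 = 0) (hd : d = -x ^ 2 - x ^ 3) :
    F2 (d - 1) a c * (XX x (x ^ 4) a b c * F2 (d - 1) a c) =
      -(d • ZZ (d - 1) a b c) - x • F2 (d - 1) a c - (x ^ 4) • (F2 (d - 1) a c * NN a b c * F2 (d - 1) a c) := by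
  unfold F2 NN ZZ XX F2 NN
  simp only [mul_assoc, add_mul, mul_add, sub_mul, mul_sub,
    smul_mul_assoc, mul_smul_comm, smul_add, smul_sub, smul_smul, one_mul, mul_one,
    h.aa, h.bb, h.cc, h.aba, h.bab, h.bcb, h.cbc, h.ca,
    h.aa', h.bb', h.cc', h.aba', h.bab', h.bcb', h.cbc', h.ca',
    h.acba, h.acba', h.cbac, h.cbac']
  subst hd
  simp only [neg_sub]
  obtain ⟨hx4, hx5, hx6, hx7, hx8, hx9, hx10, hx11, hx12, hx13, hx14, hx15, hx16, hx17, hx18, hx19, hx20, hx21, hx22, hx23, hx24, hx25, hx26, hx27, hx28, hx29, hx30, hx31, hx32, hx33, hx34, hx35, hx36, hx37, hx38, hx39, hx40⟩ := xpow hx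
  match_scalars <;> ring_nf <;> (try simp only [hx4, hx5, hx6, hx7, hx8, hx9, hx10, hx11, hx12, hx13, hx14, hx15, hx16, hx17, hx18, hx19, hx20, hx21, hx22, hx23, hx24, hx25, hx26, hx27, hx28, hx29, hx30, hx31, hx32, hx33, hx34, hx35, hx36, hx37, hx38, hx39, hx40]) <;> (try ring)

theorem T4.symm (h : T4 d a b c) : T4 d c b a where
  aa := h.cc
  bb := h.bb
  cc := h.aa
  aba := h.cbc
  bab := h.bcb
  bcb := h.bab
  cbc := h.aba
  ca := h.ca.symm

theorem NN_a (h : T4 d a b c) : NN a b c * a = NN a b c * c := by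
  unfold NN
  simp only [mul_assoc, add_mul, mul_add, sub_mul, mul_sub,
    smul_mul_assoc, mul_smul_comm, smul_add, smul_sub, smul_smul, one_mul, mul_one,
    h.aa, h.bb, h.cc, h.aba, h.bab, h.bcb, h.cbc, h.ca,
    h.aa', h.bb', h.cc', h.aba', h.bab', h.bcb', h.cbc', h.ca',
    h.acba, h.acba', h.cbac, h.cbac']

theorem a_NN (h : T4 d a b c) : a * NN a b c = c * NN a b c := by
  unfold NN
  simp only [mul_assoc, add_mul, mul_add, sub_mul, mul_sub,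
    smul_mul_assoc, mul_smul_comm, smul_add, smul_sub, smul_smul, one_mul, mul_one,
    h.aa, h.bb, h.cc, h.aba, h.bab, h.bcb, h.cbc, h.ca,
    h.aa', h.bb', h.cc', h.aba', h.bab', h.bcb', h.cbc', h.ca',
    h.acba, h.acba', h.cbac, h.cbac']

/-- the relation of the doubled cup-caps -/
theorem NNN {g k : R} (h : T4 d a b c) (h' : T4 d c g k) (hag : a * g = g * a) (hbg : b * g = g * b)
    (hbk : b * k = k * b) : NN a b c * (NN c g k * NN a b c) = NN a b c := by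
  have gb : ∀ x, g * (b * x) = b * (g * x) := fun x => by rw [← mul_assoc, ← hbg, mul_assoc]
  have kb : ∀ x, k * (b * x) = b * (k * x) := fun x => by rw [← mul_assoc, ← hbk, mul_assoc]
  have ga : ∀ x, g * (a * x) = a * (g * x) := fun x => by rw [← mul_assoc, ← hag, mul_assoc]
  have L1 : ∀ x, b * (g * (c * (k * (g * (b * x))))) = g * (b * x) := by
    intro x
    rw [gb x, kb (g * x), ← gb (c * (b * (k * (g * x)))), h.bcb', ← kb (g * x), ← gb x, h'.bcb']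
  have L2 : ∀ x, a * (c * (g * (b * (a * (c * x))))) = a * (c * x) := by
    intro x
    rw [gb (a * (c * x)), ga (c * x), ← h.ca' (b * (a * (g * (c * x)))), h.aba', ← ga (c * x),
      ← h.ca' x, h'.aba']
  have e : NN a b c * (NN c g k * NN a b c) =
      b * (a * (c * (b * (g * (c * (k * (g * (b * (a * (c * b)))))))))) := by
    unfold NN
    simp only [mul_assoc]
  rw [e, L1, L2]
  rfl

end main

end Pool.Agent.V8H83.WD
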