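import Pool.Agent.V8H83.WD.Neg

/-!
# The trace on the algebra of the doubled strands
-/

set_option autoImplicit false

namespace Pool.Agent.V8H83.WD

open Pool.Agent.H891R2.Jones Pool.Agent.TH561

section mem

variable {d : ℂ} {M : ℕ}

theorem fb_mem {P : ℕ → Prop} (j : ℕ) (h : P (2 * j)) : fb d (er d M) j ∈ SA d M P :=
  sub_mem (one_mem _) (Subalgebra.smul_mem _ (SAe _ h) _)

theorem Nb_mem {P : ℕ → Prop} (j : ℕ) (h : P (2 * j)) (h1 : P (2 * j + 1)) (h2 : P (2 * j + 2)) :
    Nb (er d M) j ∈ SA d M P :=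
  NN_mem (SAe _ h) (SAe _ h1) (SAe _ h2)

theorem QP_mem {P : ℕ → Prop} (q : ℕ → RR d M) (n : ℕ) (h : ∀ k, k < n → q k ∈ SA d M P) :
    QP q n ∈ SA d M P := by
  induction n with
  | zero => exact one_mem _
  | succ n ih => exact mul_mem (ih (fun k hk => h k (by omega))) (h n (by omega))

/-- elements of `SA` commute with everything that commutes with the generators -/
theorem SA_comm {P : ℕ → Prop} (y : RR d M) (h : ∀ i, P i → i + 1 < M → er d M i * y = y * er d M i)
    (x : RR d M) (hx : x ∈ SA d M P) : x * y = y * x := by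
  unfold SA at hx
  induction hx using Algebra.adjoin_induction with
  | mem x hx =>
    obtain ⟨i, h1, h2, rfl⟩ := hx
    exact h i h1 h2
  | algebraMap r => exact Algebra.commutes r y
  | add a b _ _ ha hb => rw [add_mul, mul_add, ha, hb]
  | mul a b _ _ ha hb => rw [mul_assoc, hb, ← mul_assoc, ha, mul_assoc]

end mem

section tr2

variable {d : ℂ} {m : ℕ}

theorem tr_QP_fb (hd : d ^ 2 = d + 1) (n : ℕ) (hn : n ≤ m) :
    tr d (2 * m) (QP (fb d (er d (2 * m))) n) = (d - 1) ^ n * d ^ (2 * m) := by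
  induction n with
  | zero => rw [QP, tr_one, pow_zero, one_mul]
  | succ n ih =>
    have h1 : QP (fb d (er d (2 * m))) (n+1) = QP (fb d (er d (2 * m))) n - (d - 1) • (QP (fb d (er d (2 * m))) n * (er d (2 * m)) (2 * n)) := by
      show QP (fb d (er d (2 * m))) n * fb d (er d (2 * m)) n = _
      rw [show fb d (er d (2 * m)) n = 1 - (d - 1) • (er d (2 * m)) (2 * n) from rfl, mul_sub, mul_one, mul_smul_comm]
    have h2 : QP (fb d (er d (2 * m))) n ∈ SA d (2 * m) (fun i => i ≠ 2 * n ∧ i ≠ 2 * n + 1) :=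
      QP_mem _ n (fun k hk => fb_mem k (by omega))
    rw [h1, map_sub, map_smul, trR hd (2 * n) (by omega) _ h2, ih (by omega), smul_eq_mul]
    linear_combination (-(d - 1) ^ n * d ^ (2 * m)) * hd

theorem tr_FF2 (hd : d ^ 2 = d + 1) : tr d (2 * m) (FF2 d (er d (2 * m)) m) = d ^ m := by
  have h1 := tr_QP_fb (m := m) hd m le_rfl
  unfold FF2
  rw [h1, pow_mul, ← mul_pow]
  congr 1
  linear_combination d * hd

/-- the product of all projectors except the one of the strand `r + 1` -/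
noncomputable def Fc (d : ℂ) (m r : ℕ) : RR d (2 * m) :=
  QP (fun k => if k = r + 1 then 1 else fb d (er d (2 * m)) k) m

theorem Fc_mem (r : ℕ) :
    Fc d m r ∈ SA d (2 * m) (fun i => i ≠ 2 * r + 1 ∧ i ≠ 2 * r + 2 ∧ i ≠ 2 * r + 3) := by
  refine QP_mem _ m (fun k hk => ?_)
  split_ifs with h
  · exact one_mem _
  · exact fb_mem k (by omega)

theorem Fc_eq (r : ℕ) (hr : r + 1 < m) : Fc d m r * fb d (er d (2 * m)) (r + 1) = (FF2 d (er d (2 * m)) m) := by
  have hT := isTL_er d (2 * m)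
  have h1 : ∀ n, n ≤ r + 1 → QP (fun k => if k = r + 1 then 1 else fb d (er d (2 * m)) k) n =
      QP (fb d (er d (2 * m))) n := by
    intro n
    induction n with
    | zero => intro _; rfl
    | succ n ih =>
      intro hn
      have : n ≠ r + 1 := by omega
      rw [QP, QP, ih (by omega), if_neg this]
  have h2 : ∀ n, r + 2 + n ≤ m → QP (fun k => if k = r + 1 then 1 else fb d (er d (2 * m)) k) (r + 2 + n) *
      fb d (er d (2 * m)) (r + 1) = QP (fb d (er d (2 * m))) (r + 2 + n) := by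
    intro n
    induction n with
    | zero =>
      intro _
      show QP _ (r + 1) * (if r + 1 = r + 1 then 1 else fb d (er d (2 * m)) (r + 1)) * _ = 
        QP _ (r + 1) * fb d (er d (2 * m)) (r + 1)
      rw [if_pos rfl, mul_one, h1 (r+1) le_rfl]
    | succ n ih =>
      intro hn
      have h3 : r + 2 + n ≠ r + 1 := by omega
      show QP _ (r + 2 + n) * (if r + 2 + n = r + 1 then 1 else fb d (er d (2 * m)) (r + 2 + n)) * _ =
        QP _ (r + 2 + n) * fb d (er d (2 * m)) (r + 2 + n)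
      rw [if_neg h3, mul_assoc, fb_comm hT (r+2+n) (r+1) (by omega) (by omega), ← mul_assoc,
        ih (by omega)]
  obtain ⟨n, hn⟩ : ∃ n, m = r + 2 + n := ⟨m - (r + 2), by omega⟩
  have h4 := h2 n (by omega)
  unfold Fc FF2
  rw [← hn] at h4
  exact h4

theorem Fc_fb (hd : d ^ 2 = d + 1) (r : ℕ) (hr : r + 1 < m) : Fc d m r * fb d (er d (2 * m)) r = Fc d m r := by
  have hT := isTL_er d (2 * m)
  have h := QP_absorb (q := fun k => if k = r + 1 then 1 else fb d (er d (2 * m)) k) (m := m) ?_ ?_ m le_rfl r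
    (by omega)
  · simp only [show r ≠ r + 1 by omega, if_false] at h
    exact h
  · intro j k hj hk
    split_ifs
    · rfl
    · rw [one_mul, mul_one]
    · rw [one_mul, mul_one]
    · exact fb_comm hT j k hj hk
  · intro j hj
    split_ifs
    · rw [one_mul]
    · exact fb_sq hT hd j hj

/-- the decomposition of a word in the doubled generators -/
theorem word_dec (hd : d ^ 2 = d + 1) (r : ℕ) (hr : r + 1 < m) (L : List ℕ) (hL : ∀ i ∈ L, i < r) :
    ∃ Y : RR d (2 * m), Y ∈ SA d (2 * m) (fun i => i ≠ 2 * r + 1 ∧ i ≠ 2 * r + 2 ∧ i ≠ 2 * r + 3) ∧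
      Y * fb d (er d (2 * m)) r = Y ∧ (FF2 d (er d (2 * m)) m) * WP (Ub d (er d (2 * m)) m) L = Y * fb d (er d (2 * m)) (r + 1) := by
  have hT := isTL_er d (2 * m)
  induction L with
  | nil =>
    refine ⟨Fc d m r, Fc_mem r, Fc_fb hd r hr, ?_⟩
    rw [WP_nil, mul_one, Fc_eq r hr]
  | cons j L ih =>
    obtain ⟨Y, h1, h2, h3⟩ := ih (fun i hi => hL i (List.mem_cons_of_mem _ hi))
    have hj := hL j List.mem_cons_self
    refine ⟨Fc d m r * (Nb (er d (2 * m)) j * Y), mul_mem (Fc_mem r) (mul_mem (Nb_mem j ?_ ?_ ?_) h1), ?_, ?_⟩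
    · omega
    · omega
    · omega
    · rw [mul_assoc, mul_assoc, h2]
    · have hY : Y * fb d (er d (2 * m)) (r + 1) = fb d (er d (2 * m)) (r + 1) * Y := by
        have h4 : Y * (er d (2 * m)) (2 * (r + 1)) = (er d (2 * m)) (2 * (r + 1)) * Y :=
          SA_comm ((er d (2 * m)) (2 * (r + 1))) (fun i hi hi' => by
            exact e_comm hT i (2 * (r + 1)) hi' (by omega) (by omega)) Y h1
        unfold fb
        rw [mul_sub, sub_mul, mul_one, one_mul, mul_smul_comm, smul_mul_assoc, h4]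
      have e1 : (FF2 d (er d (2 * m)) m) * WP (Ub d (er d (2 * m)) m) (j :: L) = Fc d m r * (fb d (er d (2 * m)) (r+1) * (Nb (er d (2 * m)) j * ((FF2 d (er d (2 * m)) m) * WP (Ub d (er d (2 * m)) m) L))) := by
        rw [WP_cons, ← mul_assoc, FF2_Ub hT hd]
        unfold Ub
        rw [mul_assoc, mul_assoc, ← mul_assoc (Fc d m r), Fc_eq r hr]
      rw [e1, h3, ← mul_assoc (fb d (er d (2 * m)) (r+1)), fb_Nb_comm hT (r+1) j (by omega) (by omega) (by omega) (by omega),
        mul_assoc, ← mul_assoc (fb d (er d (2 * m)) (r+1)), ← hY, mul_assoc Y, fb_sq hT hd (r+1) (by omega)]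
      simp only [mul_assoc]

/-- the Markov property of the doubled generators -/
theorem markov_U (hd : d ^ 2 = d + 1) (r : ℕ) (hr : r + 1 < m) (L : List ℕ) (hL : ∀ i ∈ L, i < r) :
    d * tr d (2 * m) ((FF2 d (er d (2 * m)) m) * WP (Ub d (er d (2 * m)) m) L * Ub d (er d (2 * m)) m r) = tr d (2 * m) ((FF2 d (er d (2 * m)) m) * WP (Ub d (er d (2 * m)) m) L) := by
  have hT := isTL_er d (2 * m)
  have t := t4_er (d := d) (M := 2 * m) (2 * r) (by omega)
  obtain ⟨Y, h1, h2, h3⟩ := word_dec hd r hr L hL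
  have hWF : (FF2 d (er d (2 * m)) m) * WP (Ub d (er d (2 * m)) m) L * (FF2 d (er d (2 * m)) m) = (FF2 d (er d (2 * m)) m) * WP (Ub d (er d (2 * m)) m) L := by
    clear h3
    induction L with
    | nil => rw [WP_nil, mul_one, FF2_sq hT hd]
    | cons j L ih =>
      have h4 : WP (Ub d (er d (2 * m)) m) (j :: L) * (FF2 d (er d (2 * m)) m) = WP (Ub d (er d (2 * m)) m) (j :: L) := by
        clear ih
        induction L generalizing j with
        | nil => rw [WP_cons, WP_nil, mul_one, Ub_FF2 hT hd]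
        | cons k L ih => rw [WP_cons, mul_assoc, ih k (fun i hi => hL i (by
            rcases List.mem_cons.1 hi with h | h
            · rw [h]; simp
            · simp [h]))]
      rw [mul_assoc, h4]
  have e1 : tr d (2 * m) ((FF2 d (er d (2 * m)) m) * WP (Ub d (er d (2 * m)) m) L * Ub d (er d (2 * m)) m r) = tr d (2 * m) (Y * (fb d (er d (2 * m)) (r+1) * Nb (er d (2 * m)) r)) := by
    have e2 : (FF2 d (er d (2 * m)) m) * WP (Ub d (er d (2 * m)) m) L * Ub d (er d (2 * m)) m r = ((FF2 d (er d (2 * m)) m) * WP (Ub d (er d (2 * m)) m) L * (FF2 d (er d (2 * m)) m) * Nb (er d (2 * m)) r) * (FF2 d (er d (2 * m)) m) := by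
      unfold Ub
      simp only [mul_assoc]
    have e3 : (FF2 d (er d (2 * m)) m) * ((FF2 d (er d (2 * m)) m) * WP (Ub d (er d (2 * m)) m) L * (FF2 d (er d (2 * m)) m) * Nb (er d (2 * m)) r) = (FF2 d (er d (2 * m)) m) * WP (Ub d (er d (2 * m)) m) L * (FF2 d (er d (2 * m)) m) * Nb (er d (2 * m)) r := by
      simp only [mul_assoc]
      rw [FF2_sq' hT hd]
    rw [e2, tr_comm, e3, hWF, h3, mul_assoc]
  set a := (er d (2 * m)) (2 * r) with ha
  set b := (er d (2 * m)) (2 * r + 1) with hb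
  set c := (er d (2 * m)) (2 * r + 2) with hc
  set u := d - 1 with hu
  set τ := tr d (2 * m) with hτ
  have ma : a ∈ SA d (2 * m) (fun i => i ≠ 2 * r + 1 ∧ i ≠ 2 * r + 2) := SAe _ (by omega)
  have mY : Y ∈ SA d (2 * m) (fun i => i ≠ 2 * r + 1 ∧ i ≠ 2 * r + 2) := SA_mono (fun i hi => by omega) h1
  have mY2 : Y ∈ SA d (2 * m) (fun i => i ≠ 2 * r + 2 ∧ i ≠ 2 * r + 3) := SA_mono (fun i hi => by omega) h1
  have ma2 : a ∈ SA d (2 * m) (fun i => i ≠ 2 * r + 2 ∧ i ≠ 2 * r + 3) := SAe _ (by omega)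
  have mb2 : b ∈ SA d (2 * m) (fun i => i ≠ 2 * r + 2 ∧ i ≠ 2 * r + 3) := SAe _ (by omega)
  -- the trace of `Y`
  have k1 : τ (Y * fb d (er d (2 * m)) (r + 1)) = u * τ Y := by
    have e4 : Y * fb d (er d (2 * m)) (r + 1) = Y - u • (Y * c) := by
      show Y * (1 - (d - 1) • (er d (2 * m)) (2 * (r + 1))) = _
      rw [mul_sub, mul_one, mul_smul_comm]
      rfl
    rw [e4, map_sub, map_smul, trR hd (2 * r + 2) (by omega) Y mY2, smul_eq_mul]
    linear_combination (-τ Y) * hd
  have k2 : τ (Y * NN a b c) = u ^ 2 * τ Y := by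
    have e5 : τ (Y * NN a b c) = τ ((b * Y * (b * a)) * c) := by
      unfold NN
      have e6 : Y * (b * (a * (c * b))) = (Y * (b * (a * c))) * b := by simp only [mul_assoc]
      rw [e6, tr_comm]
      congr 1
      simp only [mul_assoc]
    have e7 : τ (b * Y * (b * a)) = τ (Y * b) := by
      rw [mul_assoc, tr_comm]
      have e8 : Y * (b * a) * b = Y * b := by rw [mul_assoc, mul_assoc, t.bab]
      rw [e8]
    rw [e5, trR hd (2 * r + 2) (by omega) _ (mul_mem (mul_mem mb2 mY2) (mul_mem mb2 ma2)), e7,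
      trR hd (2 * r + 1) (by omega) Y mY]
    ring
  have k3 : τ (Y * (c * NN a b c)) = u ^ 2 * τ (Y * a) := by
    have e5 : c * NN a b c = a * (c * b) := by unfold NN; rw [t.cbac']
    have e6 : Y * (a * (c * b)) = (Y * (a * c)) * b := by simp only [mul_assoc]
    have e7 : b * (Y * (a * c)) = (b * (Y * a)) * c := by simp only [mul_assoc]
    rw [e5, e6, tr_comm, e7, trR hd (2 * r + 2) (by omega) _ (mul_mem mb2 (mul_mem mY2 ma2)), tr_comm,
      trR hd (2 * r + 1) (by omega) _ (mul_mem mY ma)]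
    ring
  have k4 : τ (Y * a) = 0 := by
    have e8 : Y * a = (Y * fb d (er d (2 * m)) r) * a := by rw [h2]
    have e9 : fb d (er d (2 * m)) r * a = 0 := by
      show (1 - (d - 1) • (er d (2 * m)) (2 * r)) * a = 0
      rw [sub_mul, one_mul, smul_mul_assoc, ← ha, t.aa, smul_smul]
      have : (d - 1) * d = 1 := by linear_combination hd
      rw [this, one_smul, sub_self]
    rw [e8, mul_assoc, e9, mul_zero, map_zero]
  have k5 : τ (Y * (fb d (er d (2 * m)) (r+1) * Nb (er d (2 * m)) r)) = u ^ 2 * τ Y := by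
    have e4 : Y * (fb d (er d (2 * m)) (r+1) * Nb (er d (2 * m)) r) = Y * NN a b c - u • (Y * (c * NN a b c)) := by
      show Y * ((1 - (d - 1) • (er d (2 * m)) (2 * (r + 1))) * NN a b c) = _
      rw [sub_mul, mul_sub, one_mul, smul_mul_assoc, mul_smul_comm]
      rfl
    rw [e4, map_sub, map_smul, k2, k3, k4, mul_zero, smul_zero, sub_zero]
  rw [e1, h3, k5, k1]
  linear_combination (u * τ Y) * inv_d hd

end tr2

end Pool.Agent.V8H83.WD
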