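import Pool.Agent.V8H83.WD.Ann

/-!
# The traces of a doubled braid word
-/

set_option autoImplicit false

namespace Pool.Agent.V8H83.WD

open Pool.Agent.H891R2.Jones Pool.Agent.W639.RB Pool.Agent.TH561

section gen

variable {R : Type*} [Ring R] [Algebra ℂ R]

/-- the element of a braid word -/
noncomputable def MG (A : ℂ) (e : ℕ → R) (W : List (Bool × ℕ)) : R :=
  (W.map (fun x => A ^ (sgn x) • (1 : R) + A ^ (-sgn x) • e x.2)).prod

theorem MG_nil (A : ℂ) (e : ℕ → R) : MG A e [] = 1 := rfl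

theorem MG_cons (A : ℂ) (e : ℕ → R) (x : Bool × ℕ) (W : List (Bool × ℕ)) :
    MG A e (x :: W) = (A ^ (sgn x) • (1 : R) + A ^ (-sgn x) • e x.2) * MG A e W := by
  simp [MG]

theorem MG_append (A : ℂ) (e : ℕ → R) (W W' : List (Bool × ℕ)) :
    MG A e (W ++ W') = MG A e W * MG A e W' := by simp [MG]

theorem MG_terms {A : ℂ} (hA : A ≠ 0) (e : ℕ → R) (w : List (Bool × ℕ)) :
    MG A e w = ((terms w).map (fun t : ℤ × List ℕ => A ^ t.1 • WP e t.2)).sum := by
  induction w with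
  | nil => simp [MG, terms]
  | cons x w ih =>
    rw [MG_cons, ih, terms, List.map_append, List.sum_append, List.map_map, List.map_map, add_mul]
    congr 1
    · rw [smul_mul_assoc, one_mul, List.smul_sum, List.map_map]
      congr 1
      apply List.map_congr_left
      intro t _
      simp only [Function.comp_apply]
      rw [smul_smul, zpow_add₀ hA]
    · rw [smul_mul_assoc, ← List.sum_map_mul_left, List.smul_sum, List.map_map]
      congr 1
      apply List.map_congr_left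
      intro t _
      simp only [Function.comp_apply]
      rw [mul_smul_comm, smul_smul, zpow_add₀ hA, WP_cons]

/-- the 2-cable of a letter -/
def cabL (x : Bool × ℕ) : List (Bool × ℕ) :=
  [(x.1, 2 * x.2 + 1), (x.1, 2 * x.2), (x.1, 2 * x.2 + 2), (x.1, 2 * x.2 + 1)]

/-- the 2-cable of a braid word -/
def cab (w : List (Bool × ℕ)) : List (Bool × ℕ) := w.flatMap cabL

theorem MG_cabL (A : ℂ) (e : ℕ → R) (x : Bool × ℕ) :
    MG A e (cabL x) = Xb (A ^ (sgn x)) (A ^ (-sgn x)) e x.2 := by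
  obtain ⟨b, i⟩ := x
  unfold Xb XX cabL
  simp only [MG, List.map_cons, List.map_nil, List.prod_cons, List.prod_nil, mul_one]
  rfl

theorem MG_cab_cons (A : ℂ) (e : ℕ → R) (x : Bool × ℕ) (w : List (Bool × ℕ)) :
    MG A e (cab (x :: w)) = Xb (A ^ (sgn x)) (A ^ (-sgn x)) e x.2 * MG A e (cab w) := by
  rw [← MG_cabL, ← MG_append]
  rfl

end gen

/-! ### the slide lemma -/

section slide

variable {R : Type*} [Ring R] [Algebra ℂ R]

theorem slide_cycle {m : ℕ} (hm : 0 < m) (τ : R →ₗ[ℂ] ℂ) (hτ : ∀ x y, τ (x * y) = τ (y * x)) (q : ℕ → R)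
    (hc : ∀ j k, j < m → k < m → q j * q k = q k * q j) (hs : ∀ j, j < m → q j * q j = q j)
    (B : R) (π : ℕ → ℕ) (hπ : ∀ k, k < m → π k < m) (hB : ∀ k, k < m → B * q k = q (π k) * B)
    (hcyc : ∀ k, k < m → ∃ i : ℕ, π^[i] 0 = k) : τ (B * q 0) = τ (B * QP q m) := by
  have hlt : ∀ i : ℕ, π^[i] 0 < m := by
    intro i
    induction i with
    | zero => exact hm
    | succ i ih => rw [Function.iterate_succ_apply']; exact hπ _ ih
  -- the products along the orbit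
  have h1 : ∀ n : ℕ, τ (B * q 0) = τ (B * QP (fun i => q (π^[i] 0)) (n + 1)) := by
    intro n
    induction n with
    | zero => simp [QP]
    | succ n ih =>
      rw [ih]
      set p := fun i => q (π^[i] 0) with hp
      have pc : ∀ i j, p i * p j = p j * p i := fun i j => hc _ _ (hlt i) (hlt j)
      have ps : ∀ i, p i * p i = p i := fun i => hs _ (hlt i)
      have e1 : QP p (n + 1) = p n * QP p (n + 1) :=
        (absorb_QP (m := n + 1) (fun i j _ _ => pc i j) (fun i _ => ps i) (n + 1) le_rfl n (by omega)).symm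
      have e2 : B * p n = p (n + 1) * B := by
        rw [hp]
        simp only
        rw [hB _ (hlt n), Function.iterate_succ_apply']
      calc τ (B * QP p (n + 1)) = τ (B * (p n * QP p (n + 1))) := by rw [← e1]
        _ = τ (p (n + 1) * (B * QP p (n + 1))) := by rw [← mul_assoc, e2, mul_assoc]
        _ = τ (B * QP p (n + 1) * p (n + 1)) := hτ _ _
        _ = τ (B * QP p (n + 1 + 1)) := by rw [mul_assoc]; rfl
  -- all indices occur
  have h2 : ∀ K, K ≤ m → ∃ n : ℕ, ∀ k, k < K → ∃ i, i < n ∧ π^[i] 0 = k := by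
    intro K
    induction K with
    | zero => intro _; exact ⟨0, fun k hk => absurd hk (by omega)⟩
    | succ K ih =>
      intro hK
      obtain ⟨n, hn⟩ := ih (by omega)
      obtain ⟨i, hi⟩ := hcyc K (by omega)
      refine ⟨max n (i + 1), fun k hk => ?_⟩
      rcases Nat.lt_or_ge k K with h | h
      · obtain ⟨j, hj1, hj2⟩ := hn k h
        exact ⟨j, lt_max_of_lt_left hj1, hj2⟩
      · have : k = K := by omega
        exact ⟨i, lt_max_of_lt_right (by omega), this ▸ hi⟩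
  obtain ⟨n, hn⟩ := h2 m le_rfl
  rw [h1 n]
  congr 2
  set p := fun i => q (π^[i] 0) with hp
  have pc : ∀ i j, p i * p j = p j * p i := fun i j => hc _ _ (hlt i) (hlt j)
  have ps : ∀ i, p i * p i = p i := fun i => hs _ (hlt i)
  -- both equal the product of the two
  have e1 : QP p (n + 1) * QP q m = QP p (n + 1) := by
    refine QP_fix' m _ (fun k hk => ?_)
    obtain ⟨i, hi1, hi2⟩ := hn k hk
    have := QP_absorb (m := n + 1) (q := p) (fun i j _ _ => pc i j) (fun i _ => ps i) (n + 1) le_rfl i (by omega)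
    rw [← hi2]
    exact this
  have e2 : QP p (n + 1) * QP q m = QP q m := by
    refine QP_fix (n + 1) _ (fun i hi => ?_)
    exact absorb_QP (m := m) (q := q) hc hs m le_rfl _ (hlt i)
  rw [← e1, e2]

end slide

section cabtr

variable {ζ d : ℂ} {m : ℕ}

/-- the powers of a primitive fifth root of unity -/
theorem root_sgn (hz : 1 + ζ + ζ ^ 2 + ζ ^ 3 + ζ ^ 4 = 0) (hd : d = -ζ ^ 2 - ζ ^ 3) (x : Bool × ℕ) :
    ∃ y : ℂ, 1 + y + y ^ 2 + y ^ 3 + y ^ 4 = 0 ∧ d = -y ^ 2 - y ^ 3 ∧ ζ ^ (sgn x) = y ∧ ζ ^ (-sgn x) = y ^ 4 := by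
  have h5 : ζ ^ 5 = 1 := by linear_combination (ζ - 1) * hz
  have h0 : ζ ≠ 0 := by
    rintro rfl
    norm_num at h5
  have hi : ζ⁻¹ = ζ ^ 4 := inv_eq_of_mul_eq_one_right (by linear_combination h5)
  obtain ⟨b, i⟩ := x
  cases b
  · refine ⟨ζ ^ 4, ?_, ?_, ?_, ?_⟩
    · linear_combination hz + (ζ ^ 3 + ζ ^ 7 + ζ ^ 2 + ζ + ζ ^ 11 + ζ ^ 6) * h5
    · rw [hd]
      linear_combination (ζ ^ 3 + ζ ^ 7 + ζ ^ 2) * h5
    · simp [sgn, hi]
    · simp only [sgn]
      norm_num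
      linear_combination (-ζ - ζ ^ 6 - ζ ^ 11) * h5
  · exact ⟨ζ, hz, hd, by simp [sgn], by simp [sgn, hi]⟩

theorem y_inv {y : ℂ} (hy : 1 + y + y ^ 2 + y ^ 3 + y ^ 4 = 0) (hd : d = -y ^ 2 - y ^ 3) :
    y * y ^ 4 = 1 ∧ d = -y ^ 2 - (y ^ 4) ^ 2 ∧ d ^ 2 = d + 1 := by
  have h5 : y ^ 5 = 1 := by linear_combination (y - 1) * hy
  refine ⟨by linear_combination h5, ?_, ?_⟩
  · rw [hd]
    linear_combination (y ^ 3) * h5
  · rw [hd]
    linear_combination (y + 2) * h5 + hy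

/-- the doubled crossing commutes with the projector -/
theorem Xb_FF2 {R : Type*} [Ring R] [Algebra ℂ R] {e : ℕ → R} (hT : IsTL (2 * m) d e) (hd2 : d ^ 2 = d + 1)
    {x y : ℂ} (hxy : x * y = 1) (hdx : d = -x ^ 2 - y ^ 2) (j : ℕ) (hj : j + 1 < m) :
    Xb x y e j * FF2 d e m = FF2 d e m * (Xb x y e j * FF2 d e m) := by
  obtain ⟨h1, h2⟩ := Xb_fb hT hxy hdx j hj
  symm
  refine QP_fix m _ (fun k hk => ?_)
  by_cases hk1 : k = j
  · subst hk1
    rw [← mul_assoc, ← h2, mul_assoc, fb_FF2 hT hd2 (k+1) (by omega)]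
  by_cases hk2 : k = j + 1
  · subst hk2
    rw [← mul_assoc, ← h1, mul_assoc, fb_FF2 hT hd2 j (by omega)]
  rw [← mul_assoc, fb_Xb_comm hT x y k j hk hj hk1 hk2, mul_assoc, fb_FF2 hT hd2 k hk]

theorem gen_step {R : Type*} [Ring R] [Algebra ℂ R] {F f X N U : R} {y y4 : ℂ}
    (hF : f * (X * f) = -(y • f) - y4 • (f * N * f)) (e1 : F * f = F) (e2 : f * F = F) (hs : F * F = F)
    (hU : U = F * (N * F)) : F * (X * F) = -(F * (y • (1 : R) + y4 • U)) := by
  have h1 : F * (X * F) = F * (f * (X * f)) * F := by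
    have : F * (f * (X * f)) * F = (F * f) * (X * (f * F)) := by simp only [mul_assoc]
    rw [this, e1, e2]
  have h2 : F * (f * N * f) * F = U := by
    have : F * (f * N * f) * F = (F * f) * (N * (f * F)) := by simp only [mul_assoc]
    rw [this, e1, e2, hU]
  have h3 : F * U = U := by rw [hU, ← mul_assoc, hs]
  rw [h1, hF, mul_sub, sub_mul, mul_neg, neg_mul, mul_smul_comm, mul_smul_comm, smul_mul_assoc,
    smul_mul_assoc, h2, e1, hs, mul_add, mul_smul_comm, mul_smul_comm, h3, mul_one]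
  abel

theorem gen_step2 {R : Type*} [Ring R] [Algebra ℂ R] {X F M Y : R} (n : ℕ)
    (h1 : X * F = -(F * Y)) : ((-1 : ℂ) ^ n) • (X * F * M) = ((-1 : ℂ) ^ (n + 1)) • (F * (Y * M)) := by
  rw [h1, pow_succ, neg_mul, smul_neg, mul_neg_one, neg_smul, mul_assoc]

/-- the doubled crossing in front of the projector -/
theorem Xb_F {y : ℂ} (hy : 1 + y + y ^ 2 + y ^ 3 + y ^ 4 = 0) (hd : d = -y ^ 2 - y ^ 3) (j : ℕ) (hj : j + 1 < m) :
    Xb y (y ^ 4) (er d (2 * m)) j * FF2 d (er d (2 * m)) m =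
      -(FF2 d (er d (2 * m)) m * (y • (1 : RR d (2 * m)) + (y ^ 4) • Ub d (er d (2 * m)) m j)) := by
  obtain ⟨h1, h2, h3⟩ := y_inv hy hd
  have hT := isTL_er d (2 * m)
  have t := t4_of hT (2 * j) (by omega)
  have hZ : ZZ (d - 1) (er d (2 * m) (2 * j)) (er d (2 * m) (2 * j + 1)) (er d (2 * m) (2 * j + 2)) = 0 :=
    Zi_zero h3 (2 * j) (by omega)
  have hF := FXF t hy hd
  rw [hZ, smul_zero, neg_zero, zero_sub] at hF
  rw [Xb_FF2 hT h3 h1 h2 j hj]
  exact gen_step hF (FF2_F2 hT h3 j hj) (F2_FF2 hT h3 j hj) (FF2_sq hT h3) rfl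

/-- the doubled word in front of the projector -/
theorem cab_F (hz : 1 + ζ + ζ ^ 2 + ζ ^ 3 + ζ ^ 4 = 0) (hd : d = -ζ ^ 2 - ζ ^ 3) (w : List (Bool × ℕ))
    (hw : ∀ x ∈ w, x.2 + 1 < m) :
    MG ζ (er d (2 * m)) (cab w) * FF2 d (er d (2 * m)) m =
      ((-1 : ℂ) ^ w.length) • (FF2 d (er d (2 * m)) m * MG ζ (Ub d (er d (2 * m)) m) w) := by
  have hT := isTL_er d (2 * m)
  induction w with
  | nil => 
    show MG ζ (er d (2 * m)) [] * _ = _
    rw [MG_nil, MG_nil, one_mul, mul_one, List.length_nil, pow_zero, one_smul]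
  | cons x w ih =>
    obtain ⟨y, h1, h2, h3, h4⟩ := root_sgn hz hd x
    obtain ⟨k1, k2, k3⟩ := y_inv h1 h2
    have ih' := ih (fun z hz' => hw z (List.mem_cons_of_mem _ hz'))
    rw [MG_cab_cons, mul_assoc, ih', mul_smul_comm, ← mul_assoc, MG_cons, List.length_cons, h3, h4]
    exact gen_step2 w.length (Xb_F h1 h2 x.2 (hw x List.mem_cons_self))

/-- the value of a state sum -/
noncomputable def Sm (ζ d : ℂ) (m : ℕ) (w : List (Bool × ℕ)) : ℂ :=
  ((terms w).map (fun t : ℤ × List ℕ => ζ ^ t.1 * d ^ lam m t.2)).sum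

theorem map_lsum {V W : Type*} [AddCommMonoid V] [AddCommMonoid W] (f : V →+ W) {α : Type*} (g : α → V)
    (l : List α) : f (l.map g).sum = (l.map (fun t => f (g t))).sum := by
  rw [map_list_sum, List.map_map]
  rfl

theorem tr_cab_F (hz : 1 + ζ + ζ ^ 2 + ζ ^ 3 + ζ ^ 4 = 0) (hd : d = -ζ ^ 2 - ζ ^ 3) (w : List (Bool × ℕ))
    (hw : ∀ x ∈ w, x.2 + 1 < m) :
    tr d (2 * m) (MG ζ (er d (2 * m)) (cab w) * FF2 d (er d (2 * m)) m) =
      (-1 : ℂ) ^ w.length * Sm ζ d m w := by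
  have h5 : ζ ^ 5 = 1 := by linear_combination (ζ - 1) * hz
  have h0 : ζ ≠ 0 := by
    rintro rfl
    norm_num at h5
  obtain ⟨k1, k2, k3⟩ := y_inv hz hd
  rw [cab_F hz hd w hw, map_smul, smul_eq_mul, MG_terms h0, ← List.sum_map_mul_left]
  congr 1
  have := map_lsum (tr d (2 * m)).toAddMonoidHom
    (fun t : ℤ × List ℕ => FF2 d (er d (2 * m)) m * (ζ ^ t.1 • WP (Ub d (er d (2 * m)) m) t.2)) (terms w)
  unfold Sm
  refine this.trans ?_
  congr 1
  apply List.map_congr_left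
  intro t ht
  show tr d (2 * m) _ = _
  rw [mul_smul_comm, map_smul, tr_U k3 t.2 (terms_mem w hw t ht), smul_eq_mul]

/-- the permutation of a braid word -/
def pm (w : List (Bool × ℕ)) : Equiv.Perm ℕ := (w.map (fun x => Equiv.swap x.2 (x.2 + 1))).prod

theorem pm_cons (x : Bool × ℕ) (w : List (Bool × ℕ)) (k : ℕ) :
    pm (x :: w) k = Equiv.swap x.2 (x.2 + 1) (pm w k) := by
  simp [pm]

theorem pm_lt (w : List (Bool × ℕ)) (hw : ∀ x ∈ w, x.2 + 1 < m) (k : ℕ) (hk : k < m) : pm w k < m := by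
  induction w with
  | nil => exact hk
  | cons x w ih =>
    have h1 := ih (fun y hy => hw y (List.mem_cons_of_mem _ hy))
    have h2 := hw x List.mem_cons_self
    rw [pm_cons]
    unfold Equiv.swap
    simp only [Equiv.coe_fn_mk, Equiv.swapCore]
    split_ifs <;> omega

theorem cab_fb (hz : 1 + ζ + ζ ^ 2 + ζ ^ 3 + ζ ^ 4 = 0) (hd : d = -ζ ^ 2 - ζ ^ 3) (w : List (Bool × ℕ))
    (hw : ∀ x ∈ w, x.2 + 1 < m) (k : ℕ) (hk : k < m) :
    MG ζ (er d (2 * m)) (cab w) * fb d (er d (2 * m)) k =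
      fb d (er d (2 * m)) (pm w k) * MG ζ (er d (2 * m)) (cab w) := by
  have hT := isTL_er d (2 * m)
  induction w with
  | nil => 
    show MG ζ (er d (2 * m)) [] * _ = _ * MG ζ (er d (2 * m)) []
    rw [MG_nil, one_mul, mul_one]
    rfl
  | cons x w ih =>
    obtain ⟨y, h1, h2, h3, h4⟩ := root_sgn hz hd x
    obtain ⟨k1, k2, k3⟩ := y_inv h1 h2
    have ih' := ih (fun z hz' => hw z (List.mem_cons_of_mem _ hz'))
    have hlt := pm_lt w (fun z hz' => hw z (List.mem_cons_of_mem _ hz')) k hk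
    have hx := hw x List.mem_cons_self
    rw [MG_cab_cons, mul_assoc, ih', ← mul_assoc, ← mul_assoc, h3, h4, pm_cons]
    congr 1
    obtain ⟨g1, g2⟩ := Xb_fb hT k1 k2 x.2 hx
    by_cases c1 : pm w k = x.2
    · rw [c1, Equiv.swap_apply_left, g1]
    by_cases c2 : pm w k = x.2 + 1
    · rw [c2, Equiv.swap_apply_right, g2]
    rw [Equiv.swap_apply_of_ne_of_ne c1 c2, fb_Xb_comm hT _ _ _ _ hlt hx c1 c2]

/-- the complementary idempotents -/
noncomputable def pb (d : ℂ) (m : ℕ) (k : ℕ) : RR d (2 * m) := (d - 1) • er d (2 * m) (2 * k)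

theorem pb_fb (k : ℕ) : pb d m k = 1 - fb d (er d (2 * m)) k := by
  unfold pb fb
  abel

theorem pb_comm (j k : ℕ) (hj : j < m) (hk : k < m) : pb d m j * pb d m k = pb d m k * pb d m j := by
  have hT := isTL_er d (2 * m)
  have h := fb_comm hT j k hj hk
  rw [pb_fb, pb_fb]
  exact ((Commute.one_left _).sub_left (((Commute.one_right _).sub_right h)))

theorem pb_sq (hd2 : d ^ 2 = d + 1) (k : ℕ) (hk : k < m) : pb d m k * pb d m k = pb d m k := by
  have hT := isTL_er d (2 * m)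
  unfold pb
  rw [smul_mul_smul_comm, hT.sq (2 * k) (by omega), smul_smul]
  congr 1
  linear_combination (d - 1) * hd2

theorem sub_comm_gen {R : Type*} [Ring R] {B f f' : R} (h : B * f = f' * B) : B * (1 - f) = (1 - f') * B := by
  rw [mul_sub, sub_mul, mul_one, one_mul, h]

theorem cab_pb (hz : 1 + ζ + ζ ^ 2 + ζ ^ 3 + ζ ^ 4 = 0) (hd : d = -ζ ^ 2 - ζ ^ 3) (w : List (Bool × ℕ))
    (hw : ∀ x ∈ w, x.2 + 1 < m) (k : ℕ) (hk : k < m) :
    MG ζ (er d (2 * m)) (cab w) * pb d m k = pb d m (pm w k) * MG ζ (er d (2 * m)) (cab w) := by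
  rw [pb_fb, pb_fb]
  exact sub_comm_gen (cab_fb hz hd w hw k hk)

theorem cab_Pall (hz : 1 + ζ + ζ ^ 2 + ζ ^ 3 + ζ ^ 4 = 0) (hd : d = -ζ ^ 2 - ζ ^ 3) (w : List (Bool × ℕ))
    (hw : ∀ x ∈ w, x.2 + 1 < m) :
    MG ζ (er d (2 * m)) (cab w) * QP (pb d m) m = QP (pb d m) m := by
  have hT := isTL_er d (2 * m)
  induction w with
  | nil => 
    show MG ζ (er d (2 * m)) [] * _ = _
    rw [MG_nil, one_mul]
  | cons x w ih =>
    obtain ⟨y, h1, h2, h3, h4⟩ := root_sgn hz hd x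
    obtain ⟨k1, k2, k3⟩ := y_inv h1 h2
    have ih' := ih (fun z hz' => hw z (List.mem_cons_of_mem _ hz'))
    have hx := hw x List.mem_cons_self
    rw [MG_cab_cons, mul_assoc, ih', h3, h4]
    obtain ⟨-, -, g3⟩ := Xb_slide hT k1 k2 x.2 hx
    have a1 : pb d m x.2 * QP (pb d m) m = QP (pb d m) m :=
      absorb_QP (m := m) (fun j k hj hk => pb_comm j k hj hk) (fun j hj => pb_sq k3 j hj) m le_rfl x.2 (by omega)
    have a2 : pb d m (x.2 + 1) * QP (pb d m) m = QP (pb d m) m :=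
      absorb_QP (m := m) (fun j k hj hk => pb_comm j k hj hk) (fun j hj => pb_sq k3 j hj) m le_rfl _ hx
    have a3 : QP (pb d m) m = ((d - 1) * (d - 1)) • (er d (2 * m) (2 * x.2) * er d (2 * m) (2 * (x.2 + 1)) *
        QP (pb d m) m) := by
      conv_lhs => rw [← a1, ← a2]
      unfold pb
      rw [← mul_assoc, smul_mul_smul_comm, smul_mul_assoc]
    rw [a3, mul_smul_comm, ← mul_assoc, g3]

theorem tr_QP_pb (hd : d ^ 2 = d + 1) (n : ℕ) (hn : n ≤ m) :
    tr d (2 * m) (QP (pb d m) n) = ((d - 1) * (d - 1)) ^ n * d ^ (2 * m) := by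
  induction n with
  | zero => rw [QP, tr_one, pow_zero, one_mul]
  | succ n ih =>
    have h1 : QP (pb d m) (n+1) = (d - 1) • (QP (pb d m) n * er d (2 * m) (2 * n)) := by
      show QP (pb d m) n * pb d m n = _
      unfold pb
      rw [mul_smul_comm]
    have h2 : QP (pb d m) n ∈ SA d (2 * m) (fun i => i ≠ 2 * n ∧ i ≠ 2 * n + 1) :=
      QP_mem _ n (fun k hk => Subalgebra.smul_mem _ (SAe _ (by omega)) _)
    rw [h1, map_smul, trR hd (2 * n) (by omega) _ h2, ih (by omega), smul_eq_mul]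
    ring

theorem tr_Pall (hd : d ^ 2 = d + 1) : tr d (2 * m) (QP (pb d m) m) = 1 := by
  rw [tr_QP_pb hd m le_rfl, pow_mul, ← mul_pow]
  have : (d - 1) * (d - 1) * d ^ 2 = 1 := by
    linear_combination (d ^ 2 - d + 1) * hd
  rw [this, one_pow]

/-- the trace of the doubled word on the two parts -/
theorem tr_cab_parts (hm : 0 < m) (hz : 1 + ζ + ζ ^ 2 + ζ ^ 3 + ζ ^ 4 = 0) (hd : d = -ζ ^ 2 - ζ ^ 3)
    (w : List (Bool × ℕ)) (hw : ∀ x ∈ w, x.2 + 1 < m)
    (hcyc : ∀ k, k < m → ∃ i : ℕ, (pm w)^[i] 0 = k) :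
    tr d (2 * m) (MG ζ (er d (2 * m)) (cab w) * pb d m 0) = 1 ∧
    tr d (2 * m) (MG ζ (er d (2 * m)) (cab w) * fb d (er d (2 * m)) 0) = (-1 : ℂ) ^ w.length * Sm ζ d m w := by
  have hT := isTL_er d (2 * m)
  obtain ⟨k1, k2, k3⟩ := y_inv hz hd
  constructor
  · rw [slide_cycle hm (tr d (2 * m)) (tr_comm d (2 * m)) (pb d m) (fun j k hj hk => pb_comm j k hj hk)
      (fun j hj => pb_sq k3 j hj) (MG ζ (er d (2 * m)) (cab w)) (pm w) (pm_lt w hw) (cab_pb hz hd w hw) hcyc,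
      cab_Pall hz hd w hw, tr_Pall k3]
  · rw [slide_cycle hm (tr d (2 * m)) (tr_comm d (2 * m)) (fb d (er d (2 * m))) (fun j k hj hk => fb_comm hT j k hj hk)
      (fun j hj => fb_sq hT k3 j hj) (MG ζ (er d (2 * m)) (cab w)) (pm w) (pm_lt w hw) (cab_fb hz hd w hw) hcyc]
    exact tr_cab_F hz hd w hw

/-- twists on two strands -/
def tws (b : Bool) (n : ℕ) : List (Bool × ℕ) := List.replicate n (b, 0)

theorem MG_tws (A : ℂ) (b : Bool) (n : ℕ) {R : Type*} [Ring R] [Algebra ℂ R] (e : ℕ → R) :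
    MG A e (tws b n) = (A ^ (sgn (b, 0)) • (1 : R) + A ^ (-sgn (b, 0)) • e 0) ^ n := by
  unfold MG tws
  rw [List.map_replicate, List.prod_replicate]

theorem pow_fix {R : Type*} [Ring R] [Algebra ℂ R] {x y : R} {c : ℂ} (h : x * y = c • y) (n : ℕ) :
    x ^ n * y = c ^ n • y := by
  induction n with
  | zero => simp
  | succ n ih => rw [pow_succ, mul_assoc, h, mul_smul_comm, ih, smul_smul, pow_succ, mul_comm]

/-- the value of the state sum of the doubled word with twists -/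
theorem tr_full (hm : 0 < m) (hz : 1 + ζ + ζ ^ 2 + ζ ^ 3 + ζ ^ 4 = 0) (hd : d = -ζ ^ 2 - ζ ^ 3)
    (w : List (Bool × ℕ)) (hw : ∀ x ∈ w, x.2 + 1 < m)
    (hcyc : ∀ k, k < m → ∃ i : ℕ, (pm w)^[i] 0 = k) (b : Bool) (n : ℕ) :
    tr d (2 * m) (MG ζ (er d (2 * m)) (cab w ++ tws b n)) =
      (-ζ ^ (-3 * sgn (b, 0))) ^ n + (ζ ^ sgn (b, 0)) ^ n * ((-1 : ℂ) ^ w.length * Sm ζ d m w) ∧
    tr d (2 * m) (MG ζ (er d (2 * m)) (cab w ++ tws b n) * er d (2 * m) 0) =
      (-ζ ^ (-3 * sgn (b, 0))) ^ n * d := by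
  have hT := isTL_er d (2 * m)
  obtain ⟨k1, k2, k3⟩ := y_inv hz hd
  obtain ⟨t1, t2⟩ := tr_cab_parts hm hz hd w hw hcyc
  have h5 : ζ ^ 5 = 1 := by linear_combination (ζ - 1) * hz
  have h0 : ζ ≠ 0 := by
    rintro rfl
    norm_num at h5
  set B := MG ζ (er d (2 * m)) (cab w) with hB
  set e0 := er d (2 * m) 0 with he0
  have hsq : e0 * e0 = d • e0 := hT.sq 0 (by omega)
  obtain ⟨y, g1, g2, g3, g4⟩ := root_sgn hz hd (b, 0)
  have h6 : y ^ 5 = 1 := by linear_combination (y - 1) * g1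
  have g5 : ζ ^ (-3 * sgn (b, 0)) = y ^ 2 := by
    have h7 : ζ ^ (-3 * sgn (b, 0)) = (y ^ 3)⁻¹ := by
      rw [mul_comm, zpow_mul, g3, zpow_neg]
      norm_cast
    rw [h7]
    exact inv_eq_of_mul_eq_one_right (by linear_combination h6)
  have hc : y + y ^ 4 * d = -y ^ 2 := by linear_combination y ^ 4 * g2 + (-y - y ^ 2) * h6
  set x := (ζ ^ (sgn (b, 0)) • (1 : RR d (2 * m)) + ζ ^ (-sgn (b, 0)) • e0) with hx
  have s1 : x * e0 = (-ζ ^ (-3 * sgn (b, 0))) • e0 := by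
    rw [hx, add_mul, smul_mul_assoc, smul_mul_assoc, one_mul, hsq, smul_smul, ← add_smul, g3, g4, g5, hc]
  have hef : e0 * fb d (er d (2 * m)) 0 = 0 := by
    show e0 * (1 - (d - 1) • e0) = 0
    rw [mul_sub, mul_one, mul_smul_comm, hsq, smul_smul]
    have : (d - 1) * d = 1 := by linear_combination k3
    rw [this, one_smul, sub_self]
  have s2 : x * fb d (er d (2 * m)) 0 = (ζ ^ sgn (b, 0)) • fb d (er d (2 * m)) 0 := by
    rw [hx, add_mul, smul_mul_assoc, smul_mul_assoc, one_mul, hef, smul_zero, add_zero]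
  have r1 := pow_fix s1 n
  have r2 := pow_fix s2 n
  have hpe : e0 = d • pb d m 0 := by
    show e0 = d • ((d - 1) • e0)
    rw [smul_smul]
    have : d * (d - 1) = 1 := by linear_combination k3
    rw [this, one_smul]
  have t3 : tr d (2 * m) (B * e0) = d := by
    rw [hpe, mul_smul_comm, map_smul, t1, smul_eq_mul, mul_one]
  have hW : MG ζ (er d (2 * m)) (cab w ++ tws b n) = B * x ^ n := by
    rw [MG_append, MG_tws]
  have hp1 : (1 : RR d (2 * m)) = pb d m 0 + fb d (er d (2 * m)) 0 := by rw [pb_fb]; abel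
  have r3 : x ^ n * pb d m 0 = (-ζ ^ (-3 * sgn (b, 0))) ^ n • pb d m 0 := by
    show x ^ n * ((d - 1) • e0) = _ • ((d - 1) • e0)
    rw [mul_smul_comm, r1, smul_comm]
  constructor
  · have e1 : B * x ^ n = (-ζ ^ (-3 * sgn (b, 0))) ^ n • (B * pb d m 0) +
        (ζ ^ sgn (b, 0)) ^ n • (B * fb d (er d (2 * m)) 0) := by
      calc B * x ^ n = B * x ^ n * 1 := (mul_one _).symm
        _ = B * x ^ n * (pb d m 0 + fb d (er d (2 * m)) 0) := by rw [← hp1]
        _ = B * (x ^ n * pb d m 0) + B * (x ^ n * fb d (er d (2 * m)) 0) := by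
            rw [mul_add, mul_assoc, mul_assoc]
        _ = _ := by rw [r3, r2, mul_smul_comm, mul_smul_comm]
    rw [hW, e1, map_add, map_smul, map_smul, t1, t2, smul_eq_mul, smul_eq_mul, mul_one]
  · rw [hW, mul_assoc, r1, mul_smul_comm, map_smul, t3, smul_eq_mul]

end cabtr

end Pool.Agent.V8H83.WD
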